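import Mathlib
import Pool.Agent.TH932.S2.All

set_option autoImplicit false

/-!
# The key proposition with an explicit constant
-/

namespace Pool.Agent.TH932.S2.G

open Filter Topology Pool.Agent.TH932.Germs Pool.Agent.TH932.S2 Pool.Agent.TH932.S2.KP
open scoped Pointwise

/-- **The key proposition with an explicit constant.** -/
theorem kpx (p q : ℕ) (hp : 2 ≤ p) (hq : 2 ≤ q) (hpq : IsCoprime (q : ℤ) (p : ℤ)) (L : ℕ → ℝ)
    (hL : Tendsto L atTop atTop) (v : Pl) (J : Type) [Fintype J] (ζ : J → GG) (C : ℝ)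
    (hind : ∀ A : J → Rg hL, ∑ j, ev2 hL hp hq (A j) * ζ j = 0 → ∀ j, A j = 0)
    (hval : ∀ u j, ζ j ∈ Sv L p q u (-C)) (hsint : ∀ j, Sint L p q (ζ j))
    (A : J → Rg hL) (x : ℝ) (hx : ∑ j, ev2 hL hp hq (A j) * ζ j ∈ Sv L p q v x)
    (j : J) (g : ℝ × ℝ) (hg : (A j).coeff g ≠ 0) :
    x ≤ lv p q v g + 6 * |C| * Fintype.card J := by
  classical
  have h : MovStmt := mov_thm
  set T : Finset (ℝ × ℝ) := Finset.univ.biUnion fun j => (A j).coeff.support with hT
  have hgT : g ∈ T := Finset.mem_biUnion.2 ⟨j, Finset.mem_univ j, Finsupp.mem_support_iff.2 hg⟩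
  obtain ⟨γ, hγT, hγmin⟩ := Finset.exists_min_image T (key p q v) ⟨g, hgT⟩
  obtain ⟨j0, _, hj0⟩ := Finset.mem_biUnion.1 hγT
  have hγ0 : (A j0).coeff γ ≠ 0 := Finsupp.mem_support_iff.1 hj0
  have hγm : ∀ x ∈ (A j0).coeff.support, key p q v γ ≤ key p q v x := fun x hx =>
    hγmin x (Finset.mem_biUnion.2 ⟨j0, Finset.mem_univ _, hx⟩)
  obtain ⟨Ω, hΩne, hΩ⟩ := folner T
  set W := Ω + T with hW
  set F := ∑ j, ev2 hL hp hq (A j) * ζ j with hF
  have hval' : ∀ u j, ζ j ∈ Sv L p q u (-|C|) := fun u j =>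
    (filt_v hL hp hq u).anti (neg_le_neg (le_abs_self C)) (hval u j)
  set e : W × J → GG := fun i => ch2 hL hp hq i.1 * ζ i.2 with he
  set z' : W × J → GG := fun i => if i.2 = j0 ∧ (i.1 : ℝ × ℝ) - γ ∈ Ω then
      ch2 hL hp hq (i.1 - γ) * F else ch2 hL hp hq i.1 * ζ i.2 with hz'
  set z : Pl → W × J → GG := fun u => if u = v then z' else e with hz
  set w : Pl → W × J → ℝ := fun u i => if u = v ∧ (i.2 = j0 ∧ (i.1 : ℝ × ℝ) - γ ∈ Ω) then
      lv p q u (i.1 - γ) + x else lv p q u i.1 - |C| with hw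
  have hlie : ∀ c : W × J → KK L hL, ∑ i, (c i : GG) * e i = 0 → ∀ i, c i = 0 := fun c hc =>
    li_e hL hp hq ζ hind W c hc
  have hliz : ∀ c : W × J → KK L hL, ∑ i, (c i : GG) * z' i = 0 → ∀ i, c i = 0 := fun c hc =>
    li_z hL hp hq ζ v hind A j0 γ hγ0 hγm W Ω c hc
  have hLe : LinearIndependent (KK L hL) e := Fintype.linearIndependent_iff.2 hlie
  have hLz : LinearIndependent (KK L hL) z' := Fintype.linearIndependent_iff.2 hliz
  have hze : ∀ i, z' i ∈ Submodule.span (KK L hL) (Set.range e) := by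
    intro i
    rw [hz']
    simp only []
    split_ifs with hs
    · rw [hF, Finset.mul_sum]
      refine Submodule.sum_mem _ fun j _ => ?_
      rw [ev2_sum, Finset.sum_mul, Finset.mul_sum]
      refine Submodule.sum_mem _ fun t ht => ?_
      have htW : (i.1 : ℝ × ℝ) - γ + t ∈ W := Finset.add_mem_add hs.2
        (Finset.mem_biUnion.2 ⟨j, Finset.mem_univ _, ht⟩)
      have e1 : ch2 hL hp hq (i.1 - γ) * (((A j).coeff t : GG) * ch2 hL hp hq t * ζ j) =
          ((A j).coeff t) • e (⟨(i.1 : ℝ × ℝ) - γ + t, htW⟩, j) := by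
        rw [Subfield.smul_def, smul_eq_mul, he]
        simp only []
        rw [ch2_add]
        ring
      rw [e1]
      exact Submodule.smul_mem _ _ (Submodule.subset_span ⟨_, rfl⟩)
    · exact Submodule.subset_span ⟨i, rfl⟩
  have hspan : ∀ u i, z u i ∈ Submodule.span (KK L hL) (Set.range (z .I)) := by
    intro u i
    by_cases hvI : v = .I
    · have hzI : z .I = z' := by rw [hz]; simp only []; rw [if_pos hvI.symm]
      rw [hzI, hz]
      simp only []
      split_ifs
      · exact Submodule.subset_span ⟨i, rfl⟩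
      · exact span_swap e z' hLe hLz hze i
    · have hzI : z .I = e := by rw [hz]; simp only []; rw [if_neg (Ne.symm hvI)]
      rw [hzI, hz]
      simp only []
      split_ifs
      · exact hze i
      · exact Submodule.subset_span ⟨i, rfl⟩
  have hmem : ∀ u i, z u i ∈ Sv L p q u (w u i) := by
    intro u i
    have hord : ch2 hL hp hq i.1 * ζ i.2 ∈ Sv L p q u (lv p q u i.1 - |C|) := by
      have := (filt_v hL hp hq u).mul_mem (ch2_mem hL hp hq hpq u i.1) (hval' u i.2)
      rw [← sub_eq_add_neg] at this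
      exact this
    rw [hz, hw]
    simp only []
    by_cases huv : u = v
    · subst huv
      rw [if_pos rfl, hz']
      simp only [true_and]
      split_ifs with hs
      · exact (filt_v hL hp hq u).mul_mem (ch2_mem hL hp hq hpq u _) hx
      · exact hord
    · rw [if_neg huv, if_neg (fun h => huv h.1)]
      exact hord
  have hFs : Sint L p q F := Sint.sum hL hp hq _ _ fun j _ =>
    Sint.mul hL hp hq (ev2_sint hL hp hq _) (hsint j)
  have hint : ∀ i, Sint L p q (z .I i) := by
    intro i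
    have hord : Sint L p q (ch2 hL hp hq i.1 * ζ i.2) :=
      Sint.mul hL hp hq (ch2_sint hL hp hq _) (hsint _)
    rw [hz]
    simp only []
    split_ifs
    · rw [hz']
      simp only []
      split_ifs
      · exact Sint.mul hL hp hq (ch2_sint hL hp hq _) hFs
      · exact hord
    · exact hord
  have hmain := h p q hp hq hpq L hL (W × J) inferInstance z w
    (fun u c hc => by
      by_cases huv : u = v
      · have : z u = z' := by rw [hz]; simp only []; rw [if_pos huv]
        rw [this] at hc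
        exact hliz c hc
      · have : z u = e := by rw [hz]; simp only []; rw [if_neg huv]
        rw [this] at hc
        exact hlie c hc)
    (fun u i => by
      obtain ⟨c, hc⟩ := (Submodule.mem_span_range_iff_exists_fun (KK L hL)).1 (hspan u i)
      exact ⟨c, hc.symm⟩)
    hmem hint
  -- the sum of the weights
  set X : ℝ := x - lv p q v γ + |C| with hX
  have hwe : ∀ u i, w u i = (lv p q u i.1 - |C|) +
      if u = v then (if (i.2 = j0 ∧ (i.1 : ℝ × ℝ) - γ ∈ Ω) then X else 0) else 0 := by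
    intro u i
    rw [hw]
    simp only []
    by_cases huv : u = v
    · subst huv
      simp only [true_and, if_true]
      split_ifs
      · rw [hX, sub_eq_add_neg (i.1 : ℝ × ℝ) γ, lv_add, lv_neg]
        ring
      · ring
    · rw [if_neg (fun h => huv h.1), if_neg huv, add_zero]
  have hsum : ∑ u, ∑ i, w u i = -(3 * |C| * ((W.card : ℝ) * Fintype.card J)) +
      ((Finset.univ.filter fun i : W × J => i.2 = j0 ∧ (i.1 : ℝ × ℝ) - γ ∈ Ω).card : ℝ) * X := by
    simp only [hwe]
    rw [Finset.sum_comm]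
    simp only [Finset.sum_add_distrib, Finset.sum_sub_distrib, lv_sum, Finset.sum_ite_eq',
      Finset.sum_ite_eq, Finset.mem_univ, if_true]
    rw [← Finset.sum_filter, Finset.sum_const, nsmul_eq_mul]
    have e3 : (Finset.univ : Finset Pl).card = 3 := rfl
    simp only [Finset.sum_const, nsmul_eq_mul, e3, Finset.card_univ, Fintype.card_prod,
      Fintype.card_coe]
    push_cast
    ring
  have hcardΩ : Ω.card ≤ (Finset.univ.filter fun i : W × J =>
      i.2 = j0 ∧ (i.1 : ℝ × ℝ) - γ ∈ Ω).card := by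
    rw [← Finset.card_attach]
    refine Finset.card_le_card_of_injOn (fun ω => (⟨ω.1 + γ, Finset.add_mem_add ω.2 hγT⟩, j0))
      ?_ ?_
    · intro ω _
      simp
    · intro a _ b _ hab
      have h1 := congrArg (fun i : W × J => (i.1 : ℝ × ℝ)) hab
      simp only [add_left_inj] at h1
      exact Subtype.ext h1
  rw [hsum] at hmain
  by_contra hcon
  rw [not_le] at hcon
  have hlv : lv p q v γ ≤ lv p q v g := key_le (hγmin g hgT)
  have hC := abs_nonneg C
  have hJ : (0 : ℝ) ≤ Fintype.card J := by positivity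
  have hX1 : 6 * |C| * Fintype.card J < X := by
    rw [hX]; linarith
  have hX0 : 0 ≤ X := le_trans (by positivity) hX1.le
  have hΩ1 : (1 : ℝ) ≤ Ω.card := by exact_mod_cast hΩne.card_pos
  have hc1 : (Ω.card : ℝ) ≤ ((Finset.univ.filter fun i : W × J =>
      i.2 = j0 ∧ (i.1 : ℝ × ℝ) - γ ∈ Ω).card : ℝ) := by exact_mod_cast hcardΩ
  have hc2 : (W.card : ℝ) ≤ 2 * Ω.card := by exact_mod_cast hΩ
  have h5 : (Ω.card : ℝ) * X ≤ 3 * |C| * ((W.card : ℝ) * Fintype.card J) := by
    have := mul_le_mul_of_nonneg_right hc1 hX0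
    linarith
  have h6 : 3 * |C| * ((W.card : ℝ) * Fintype.card J) ≤
      3 * |C| * ((2 * Ω.card : ℝ) * Fintype.card J) := by gcongr
  have h7 : (Ω.card : ℝ) * (6 * |C| * Fintype.card J) < Ω.card * X :=
    mul_lt_mul_of_pos_left hX1 (by linarith)
  nlinarith

end Pool.Agent.TH932.S2.G
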