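import Mathlib

set_option autoImplicit false

/-!
# Adapted families: distinct first and distinct last positions
-/

namespace Pool.Agent.TH932.S2.G

open Module

section
variable {K : Type*} [Field K] {n : ℕ}

/-- first position `l`, last position `h` -/
def Ad (u : Fin n → K) (l h : Fin n) : Prop :=
  u l ≠ 0 ∧ u h ≠ 0 ∧ (∀ j, j < l → u j = 0) ∧ ∀ j, h < j → u j = 0

lemma exists_first {u : Fin n → K} {h : Fin n} (hu : u h ≠ 0) :
    ∃ l, u l ≠ 0 ∧ ∀ j, j < l → u j = 0 := by
  classical
  have hne : (Finset.univ.filter fun j => u j ≠ 0).Nonempty :=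
    ⟨h, Finset.mem_filter.2 ⟨Finset.mem_univ _, hu⟩⟩
  refine ⟨_, (Finset.mem_filter.1 (Finset.min'_mem _ hne)).2, fun j hj => ?_⟩
  by_contra hcon
  have := Finset.min'_le (Finset.univ.filter fun j => u j ≠ 0) j
    (Finset.mem_filter.2 ⟨Finset.mem_univ _, hcon⟩)
  exact absurd hj (not_lt.2 this)

/-- a family of elements with distinct first and distinct last positions -/
theorem exists_adapted : ∀ (m : ℕ) (U : Submodule K (Fin n → K)), finrank K U = m →
    ∃ (ι : Type) (_ : Fintype ι) (u : ι → Fin n → K) (l h : ι → Fin n), Fintype.card ι = m ∧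
      Function.Injective l ∧ Function.Injective h ∧ ∀ i, u i ∈ U ∧ Ad (u i) (l i) (h i) := by
  classical
  intro m
  induction m with
  | zero =>
    intro U _
    exact ⟨PEmpty, inferInstance, fun i => i.elim, fun i => i.elim, fun i => i.elim, by simp,
      fun i => i.elim, fun i => i.elim, fun i => i.elim⟩
  | succ m ih =>
    intro U hU
    -- the last position of the space
    have hne : (Finset.univ.filter fun j : Fin n => ∃ u ∈ U, u j ≠ 0).Nonempty := by
      by_contra hcon
      rw [Finset.not_nonempty_iff_eq_empty] at hcon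
      have h1 : U = ⊥ := by
        rw [Submodule.eq_bot_iff]
        intro u hu
        funext j
        by_contra h2
        have : j ∈ Finset.univ.filter fun j : Fin n => ∃ u ∈ U, u j ≠ 0 :=
          Finset.mem_filter.2 ⟨Finset.mem_univ _, u, hu, h2⟩
        rw [hcon] at this
        exact absurd this (Finset.notMem_empty _)
      rw [h1, finrank_bot] at hU
      omega
    set H := Finset.max' _ hne with hH
    obtain ⟨u0, hu0, hu0H⟩ := (Finset.mem_filter.1 (Finset.max'_mem _ hne)).2
    rw [← hH] at hu0H
    have hlast : ∀ u ∈ U, ∀ j, H < j → u j = 0 := by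
      intro u hu j hj
      by_contra hcon
      have := Finset.le_max' (Finset.univ.filter fun j : Fin n => ∃ u ∈ U, u j ≠ 0) j
        (Finset.mem_filter.2 ⟨Finset.mem_univ _, u, hu, hcon⟩)
      exact absurd hj (not_lt.2 this)
    -- the hyperplane
    set f : U →ₗ[K] K := (LinearMap.proj H).comp U.subtype with hf
    set U' : Submodule K (Fin n → K) := (LinearMap.ker f).map U.subtype with hU'
    have hmem' : ∀ u, u ∈ U' ↔ u ∈ U ∧ u H = 0 := by
      intro u
      rw [hU', Submodule.mem_map]
      constructor
      · rintro ⟨v, hv, rfl⟩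
        exact ⟨v.2, LinearMap.mem_ker.1 hv⟩
      · rintro ⟨h1, h2⟩
        exact ⟨⟨u, h1⟩, LinearMap.mem_ker.2 h2, rfl⟩
    have hfin : finrank K U' = m := by
      have h1 : finrank K U' = finrank K (LinearMap.ker f) := by
        rw [hU']
        exact (LinearEquiv.finrank_eq
          (Submodule.equivMapOfInjective U.subtype (Submodule.subtype_injective U) _)).symm
      have h2 := LinearMap.finrank_range_add_finrank_ker f
      have h3 : LinearMap.range f = ⊤ := by
        rw [LinearMap.range_eq_top]
        intro x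
        refine ⟨(x / u0 H) • ⟨u0, hu0⟩, ?_⟩
        rw [map_smul]
        change (x / u0 H) • u0 H = x
        rw [smul_eq_mul, div_mul_cancel₀ _ hu0H]
      rw [h3, finrank_top, finrank_self, hU] at h2
      omega
    obtain ⟨ι, _, u, l, h, hc, hl, hh, had⟩ := ih U' hfin
    -- the new element
    have hne2 : (Finset.univ.filter fun j : Fin n => ∃ v ∈ U, v H ≠ 0 ∧ v j ≠ 0 ∧
        ∀ i, i < j → v i = 0).Nonempty := by
      obtain ⟨j, hj1, hj2⟩ := exists_first hu0H
      exact ⟨j, Finset.mem_filter.2 ⟨Finset.mem_univ _, u0, hu0, hu0H, hj1, hj2⟩⟩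
    set L := Finset.max' _ hne2 with hLdef
    obtain ⟨v, hv, hvH, hvL, hvL'⟩ := (Finset.mem_filter.1 (Finset.max'_mem _ hne2)).2
    rw [← hLdef] at hvL hvL'
    have hLne : ∀ i, l i ≠ L := by
      intro i hi
      obtain ⟨hui, ha1, ha2, ha3, ha4⟩ := had i
      obtain ⟨hui1, hui2⟩ := (hmem' _).1 hui
      rw [hi] at ha1 ha3
      set v' := v - (v L / u i L) • u i with hv'
      have h1 : v' ∈ U := U.sub_mem hv (U.smul_mem _ hui1)
      have h2 : v' H ≠ 0 := by
        rw [hv', Pi.sub_apply, Pi.smul_apply, hui2, smul_zero, sub_zero]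
        exact hvH
      obtain ⟨j, hj1, hj2⟩ := exists_first h2
      have h3 : j ≤ L := Finset.le_max' (Finset.univ.filter fun j : Fin n => ∃ v ∈ U, v H ≠ 0 ∧
        v j ≠ 0 ∧ ∀ i, i < j → v i = 0) j
        (Finset.mem_filter.2 ⟨Finset.mem_univ _, v', h1, h2, hj1, hj2⟩)
      apply hj1
      rcases lt_or_eq_of_le h3 with h4 | h4
      · rw [hv', Pi.sub_apply, Pi.smul_apply, hvL' j h4, ha3 j h4, smul_zero, sub_zero]
      · rw [h4, hv', Pi.sub_apply, Pi.smul_apply, smul_eq_mul, div_mul_cancel₀ _ ha1, sub_self]
    have hHne : ∀ i, h i ≠ H := by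
      intro i hi
      obtain ⟨hui, ha1, ha2, ha3, ha4⟩ := had i
      rw [hi] at ha2
      exact ha2 ((hmem' _).1 hui).2
    refine ⟨Option ι, inferInstance, fun o => o.elim v u, fun o => o.elim L l,
      fun o => o.elim H h, by rw [Fintype.card_option, hc], ?_, ?_, ?_⟩
    · intro a b hab
      cases a with
      | none =>
        cases b with
        | none => rfl
        | some b => exact absurd hab.symm (hLne b)
      | some a =>
        cases b with
        | none => exact absurd hab (hLne a)
        | some b => exact congrArg some (hl hab)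
    · intro a b hab
      cases a with
      | none =>
        cases b with
        | none => rfl
        | some b => exact absurd hab.symm (hHne b)
      | some a =>
        cases b with
        | none => exact absurd hab (hHne a)
        | some b => exact congrArg some (hh hab)
    · intro o
      cases o with
      | none => exact ⟨hv, hvL, hvH, hvL', fun j hj => hlast v hv j hj⟩
      | some i => exact ⟨((hmem' _).1 (had i).1).1, (had i).2⟩

end

/-- **Adapted families**: for a subspace all of whose nonzero elements have width at least `w`,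
there are sets of positions `l`, `h` which detect the subspace, with large total difference. -/
theorem exists_lohi {K : Type*} [Field K] {S : Type*} [Fintype S] (U : Submodule K (S → K))
    (φ : S → ℝ) (w : ℝ) (hw : ∀ u ∈ U, u ≠ 0 → ∃ i j, u i ≠ 0 ∧ u j ≠ 0 ∧ w ≤ φ j - φ i) :
    ∃ (ι : Type) (_ : Fintype ι) (l h : ι → S), Fintype.card ι = finrank K U ∧
      Function.Injective l ∧ Function.Injective h ∧ (∀ u ∈ U, (∀ i, u (l i) = 0) → u = 0) ∧
      (∀ u ∈ U, (∀ i, u (h i) = 0) → u = 0) ∧
      finrank K U * w ≤ ∑ i, φ (h i) - ∑ i, φ (l i) := by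
  classical
  set n := Fintype.card S with hn
  -- sort the positions
  set e0 : Fin n ≃ S := (Fintype.equivFin S).symm with he0
  set σ : Equiv.Perm (Fin n) := Tuple.sort (fun i => φ (e0 i)) with hσ
  set e : Fin n ≃ S := σ.trans e0 with he
  have hmono : Monotone fun i => φ (e i) := Tuple.monotone_sort (fun i => φ (e0 i))
  set Λ : (S → K) ≃ₗ[K] (Fin n → K) := LinearEquiv.funCongrLeft K K e with hΛ
  have hΛa : ∀ u i, Λ u i = u (e i) := fun u i => rfl
  set V : Submodule K (Fin n → K) := U.map Λ.toLinearMap with hV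
  have hfin : finrank K V = finrank K U := LinearEquiv.finrank_map_eq Λ U
  obtain ⟨ι, _, u, l, h, hc, hl, hh, had⟩ := exists_adapted (finrank K U) V hfin
  have hmemV : ∀ v, v ∈ V ↔ Λ.symm v ∈ U := by
    intro v
    rw [hV, Submodule.mem_map]
    constructor
    · rintro ⟨x, hx, rfl⟩
      simpa using hx
    · intro hx
      exact ⟨_, hx, by simp⟩
  -- the family spans
  have key : ∀ (P : Fin n → Fin n → Prop) (pos : ι → Fin n), Function.Injective pos →
      (∀ i, u i (pos i) ≠ 0) → (∀ i j, P j (pos i) → u i j = 0) →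
      (∀ a b, a ≠ b → P a b ∨ P b a) → (∀ s : Finset ι, s.Nonempty → ∃ i ∈ s, ∀ j ∈ s, j ≠ i →
        P (pos i) (pos j)) →
      ∀ v ∈ V, (∀ i, v (pos i) = 0) → v = 0 := by
    intro P pos hinj hne hP hP1 hP2 v hv hv0
    have hli : LinearIndependent K (fun i => (⟨u i, (had i).1⟩ : V)) := by
      rw [Fintype.linearIndependent_iff]
      intro c hc0
      by_contra hcon
      push Not at hcon
      obtain ⟨i0, hi0⟩ := hcon
      obtain ⟨i, hi, hmin⟩ := hP2 (Finset.univ.filter fun i => c i ≠ 0)
        ⟨i0, Finset.mem_filter.2 ⟨Finset.mem_univ _, hi0⟩⟩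
      have h1 : ∑ j, c j * u j (pos i) = 0 := by
        have := congrArg (fun x : V => (x : Fin n → K) (pos i)) hc0
        simpa [Finset.sum_apply] using this
      rw [Finset.sum_eq_single i] at h1
      · exact (mul_ne_zero (Finset.mem_filter.1 hi).2 (hne i)) h1
      · intro j _ hj
        by_cases hcj : c j = 0
        · rw [hcj, zero_mul]
        · rw [hP j _ (hmin j (Finset.mem_filter.2 ⟨Finset.mem_univ _, hcj⟩) hj), mul_zero]
      · intro h; exact absurd (Finset.mem_univ _) h
    have hcard : Fintype.card ι = finrank K V := by rw [hc, hfin]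
    have hspan := hli.span_eq_top_of_card_eq_finrank' hcard
    have hvs : (⟨v, hv⟩ : V) ∈ Submodule.span K (Set.range fun i => (⟨u i, (had i).1⟩ : V)) := by
      rw [hspan]; trivial
    obtain ⟨c, hc1⟩ := (Submodule.mem_span_range_iff_exists_fun K).1 hvs
    have hc2 : ∀ j, v j = ∑ i, c i * u i j := by
      intro j
      have := congrArg (fun x : V => (x : Fin n → K) j) hc1
      simpa [Finset.sum_apply] using this.symm
    by_cases hcz : ∀ i, c i = 0
    · funext j
      rw [hc2 j]
      simp [hcz]
    · exfalso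
      push Not at hcz
      obtain ⟨i0, hi0⟩ := hcz
      obtain ⟨i, hi, hmin⟩ := hP2 (Finset.univ.filter fun i => c i ≠ 0)
        ⟨i0, Finset.mem_filter.2 ⟨Finset.mem_univ _, hi0⟩⟩
      have h1 := hc2 (pos i)
      rw [hv0 i, Finset.sum_eq_single i] at h1
      · exact (mul_ne_zero (Finset.mem_filter.1 hi).2 (hne i)) h1.symm
      · intro j _ hj
        by_cases hcj : c j = 0
        · rw [hcj, zero_mul]
        · rw [hP j _ (hmin j (Finset.mem_filter.2 ⟨Finset.mem_univ _, hcj⟩) hj), mul_zero]
      · intro h; exact absurd (Finset.mem_univ _) h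
  have hA := key (fun a b => a < b) l hl (fun i => (had i).2.1)
    (fun i j hj => (had i).2.2.2.1 j hj) (fun a b hab => lt_or_gt_of_ne hab) (by
      intro s hs
      obtain ⟨i, hi, hmin⟩ := Finset.exists_min_image s l hs
      exact ⟨i, hi, fun j hj hji => lt_of_le_of_ne (hmin j hj) fun h => hji (hl h.symm)⟩)
  have hB := key (fun a b => b < a) h hh (fun i => (had i).2.2.1)
    (fun i j hj => (had i).2.2.2.2 j hj) (fun a b hab => (lt_or_gt_of_ne hab).symm) (by
      intro s hs
      obtain ⟨i, hi, hmax⟩ := Finset.exists_max_image s h hs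
      exact ⟨i, hi, fun j hj hji => lt_of_le_of_ne (hmax j hj) fun h' => hji (hh h')⟩)
  have hUV : ∀ x ∈ U, Λ x ∈ V := fun x hx => Submodule.mem_map_of_mem hx
  refine ⟨ι, inferInstance, fun i => e (l i), fun i => e (h i), hc, e.injective.comp hl,
    e.injective.comp hh, ?_, ?_, ?_⟩
  · intro x hx h0
    have := hA (Λ x) (hUV x hx) fun i => h0 i
    simpa using this
  · intro x hx h0
    have := hB (Λ x) (hUV x hx) fun i => h0 i
    simpa using this
  · rw [← Finset.sum_sub_distrib]
    have h1 : ∀ i : ι, w ≤ φ (e (h i)) - φ (e (l i)) := by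
      intro i
      obtain ⟨hui, ha1, ha2, ha3, ha4⟩ := had i
      have hx := (hmemV _).1 hui
      have hx0 : Λ.symm (u i) ≠ 0 := by
        intro h0
        have : u i = 0 := by simpa using h0
        rw [this] at ha1
        exact ha1 rfl
      obtain ⟨a, b, hab1, hab2, hab3⟩ := hw _ hx hx0
      have e1 : ∀ s, Λ.symm (u i) s = u i (e.symm s) := fun s => rfl
      rw [e1] at hab1 hab2
      have h3 : l i ≤ e.symm a := by
        by_contra hcon
        exact hab1 (ha3 _ (not_le.1 hcon))
      have h4 : e.symm b ≤ h i := by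
        by_contra hcon
        exact hab2 (ha4 _ (not_le.1 hcon))
      have h5 := hmono h3
      have h6 := hmono h4
      simp only [Equiv.apply_symm_apply] at h5 h6
      linarith
    calc (finrank K U : ℝ) * w = ∑ _i : ι, w := by
          rw [Finset.sum_const, Finset.card_univ, hc, nsmul_eq_mul]
      _ ≤ _ := Finset.sum_le_sum fun i _ => h1 i

end Pool.Agent.TH932.S2.G
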