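import Mathlib
import Pool.Agent.TH932.S2.All
import Pool.Agent.TH932.S2.G.Ad

set_option autoImplicit false

/-!
# The subspace theorem with two filtrations
-/

namespace Pool.Agent.TH932.S2.G

open Filter Topology Module Pool.Agent.TH932.Germs Pool.Agent.TH932.S2

lemma sum_over_compl {S ι M : Type*} [Fintype S] [Fintype ι] [AddCommMonoid M] (r : ι → S)
    (hr : Function.Injective r) [Fintype {s // s ∉ Set.range r}] (f : S → M) :
    ∑ s, f s = ∑ i, f (r i) + ∑ s : {s // s ∉ Set.range r}, f s := by
  classical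
  have h1 : ∑ i, f (r i) = ∑ s ∈ Finset.univ.image r, f s :=
    (Finset.sum_image fun a _ b _ hab => hr hab).symm
  have h2 : ∑ s : {s // s ∉ Set.range r}, f s = ∑ s ∈ (Finset.univ.image r)ᶜ, f s :=
    (Finset.sum_subtype _ (fun x => by simp) f).symm
  rw [h1, h2, Finset.sum_add_sum_compl]

variable {L : ℕ → ℝ} {p q : ℕ}

/-- **The subspace theorem for a family `e`, modulo an independent family `b`**: if all relations
have width at least `w` then there are few of them. -/
theorem two (hp : 2 ≤ p) (hq : 2 ≤ q) (hpq : IsCoprime (q : ℤ) (p : ℤ))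
    (hL : Tendsto L atTop atTop) {S B : Type} [Fintype S] [Fintype B] (e : S → GG) (b : B → GG)
    (hb : ∀ c : B → KK L hL, ∑ j, (c j : GG) * b j = 0 → ∀ j, c j = 0)
    (U : Submodule (KK L hL) (S → KK L hL))
    (hU : ∀ c, c ∈ U ↔ ∃ d : B → KK L hL, ∑ s, (c s : GG) * e s = ∑ j, (d j : GG) * b j)
    (φ : S → ℝ) (w c1 c2 c3 : ℝ)
    (hw : ∀ u ∈ U, u ≠ 0 → ∃ i j, u i ≠ 0 ∧ u j ≠ 0 ∧ w ≤ φ j - φ i)
    (heP : ∀ s, e s ∈ Sv L p q .P (φ s - c1)) (αQ αI : S → ℝ)
    (heQ : ∀ s, e s ∈ Sv L p q .Q (αQ s)) (heI : ∀ s, e s ∈ Sv L p q .I (αI s))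
    (hα : ∀ s, -φ s - c2 ≤ αQ s + αI s)
    (β : Pl → B → ℝ) (hbβ : ∀ v j, b j ∈ Sv L p q v (β v j)) (hβ : ∀ j, -c3 ≤ ∑ v, β v j)
    (hSe : ∀ s, Sint L p q (e s)) (hSb : ∀ j, Sint L p q (b j)) :
    finrank (KK L hL) U * w ≤
      (c1 + c2) * (Fintype.card S - finrank (KK L hL) U) + c3 * Fintype.card B := by
  classical
  obtain ⟨ι, _, l, h, hc, hl, hh, hl0, hh0, hsum⟩ := exists_lohi U φ w hw
  set m := finrank (KK L hL) U with hm
  -- the complements
  have hcomp : ∀ r : ι → S, Function.Injective r →
      Fintype.card {s // s ∉ Set.range r} + m = Fintype.card S := by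
    intro r hr
    have h1 := Fintype.card_subtype_compl (fun s => s ∈ Set.range r)
    have h2 : Fintype.card {s // s ∈ Set.range r} = m := by
      rw [← hc]
      exact (Fintype.card_congr (Equiv.ofInjective r hr)).symm
    have h3 : Fintype.card {s // s ∈ Set.range r} ≤ Fintype.card S := Fintype.card_subtype_le _
    rw [h2] at h1 h3
    omega
  have hcl := hcomp l hl
  have hch := hcomp h hh
  have hcard : Fintype.card {s // s ∉ Set.range h} = Fintype.card {s // s ∉ Set.range l} := by
    omega
  set σ : {s // s ∉ Set.range h} ≃ {s // s ∉ Set.range l} := Fintype.equivOfCardEq hcard with hσ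
  -- independence of the complements
  have hind : ∀ (r : ι → S), Function.Injective r → (∀ u ∈ U, (∀ i, u (r i) = 0) → u = 0) →
      ∀ (κ : Type) [Fintype κ] (τ : κ ≃ {s // s ∉ Set.range r}) (c : κ ⊕ B → KK L hL),
      ∑ i, (c i : GG) * (Sum.elim (fun k => e (τ k)) b i) = 0 → ∀ i, c i = 0 := by
    intro r hrinj hr κ _ τ c hc0
    rw [Fintype.sum_sum_type] at hc0
    simp only [Sum.elim_inl, Sum.elim_inr] at hc0
    set u : S → KK L hL := fun s => if hs : s ∉ Set.range r then c (Sum.inl (τ.symm ⟨s, hs⟩)) else 0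
      with hu
    have hu1 : ∀ k, u (τ k) = c (Sum.inl k) := by
      intro k
      simp only [hu]
      rw [dif_pos (τ k).2]
      simp
    have hu2 : ∀ i, u (r i) = 0 := by
      intro i
      simp only [hu]
      rw [dif_neg (not_not.2 ⟨i, rfl⟩)]
    have h1 : ∑ s, (u s : GG) * e s = ∑ k, (c (Sum.inl k) : GG) * e (τ k) := by
      rw [sum_over_compl r hrinj, Finset.sum_eq_zero (fun i _ => by rw [hu2 i]; simp), zero_add,
        ← Equiv.sum_comp τ]
      exact Finset.sum_congr rfl fun k _ => by rw [hu1 k]
    have h3 : u ∈ U := by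
      rw [hU]
      refine ⟨fun j => -c (Sum.inr j), ?_⟩
      rw [h1, eq_neg_of_add_eq_zero_left hc0, ← Finset.sum_neg_distrib]
      refine Finset.sum_congr rfl fun j _ => ?_
      push_cast
      ring
    have h4 : u = 0 := hr u h3 hu2
    have h5 : ∀ k, c (Sum.inl k) = 0 := by
      intro k
      rw [← hu1 k, h4]
      rfl
    have h6 : ∀ j, c (Sum.inr j) = 0 := by
      apply hb
      rw [← hc0]
      simp [h5]
    rintro (k | j)
    · exact h5 k
    · exact h6 j
  -- the complement of `h` spans
  have hdual : ∀ i0 : ι, ∃ u ∈ U, u (h i0) = 1 ∧ ∀ i, i ≠ i0 → u (h i) = 0 := by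
    intro i0
    set f : U →ₗ[KK L hL] (ι → KK L hL) :=
      (LinearMap.funLeft (KK L hL) (KK L hL) h).comp U.subtype with hf
    have hfa : ∀ (u : U) i, f u i = (u : S → KK L hL) (h i) := fun u i => rfl
    have hfi : Function.Injective f := by
      rw [← LinearMap.ker_eq_bot, LinearMap.ker_eq_bot']
      intro u hu
      apply Subtype.ext
      apply hh0 u u.2
      intro i
      rw [← hfa, hu]
      rfl
    have hfs : Function.Surjective f := by
      rw [← LinearMap.injective_iff_surjective_of_finrank_eq_finrank]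
      · exact hfi
      · rw [Module.finrank_fintype_fun_eq_card, hc]
    obtain ⟨u, hu⟩ := hfs (fun i => if i = i0 then 1 else 0)
    refine ⟨u, u.2, ?_, fun i hi => ?_⟩
    · rw [← hfa, hu]; simp
    · rw [← hfa, hu]; simp [hi]
  have hspan : ∀ s, ∃ c : {s // s ∉ Set.range h} ⊕ B → KK L hL,
      e s = ∑ i, (c i : GG) * (Sum.elim (fun k : {s // s ∉ Set.range h} => e (k : S)) b i) := by
    intro s
    by_cases hs : s ∈ Set.range h
    · obtain ⟨i0, rfl⟩ := hs
      obtain ⟨u, hu, hu1, hu2⟩ := hdual i0
      obtain ⟨d, hd⟩ := (hU u).1 hu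
      refine ⟨Sum.elim (fun k => -u k) d, ?_⟩
      rw [Fintype.sum_sum_type]
      simp only [Sum.elim_inl, Sum.elim_inr]
      rw [← hd, sum_over_compl h hh, Finset.sum_eq_single i0]
      · rw [hu1]
        push_cast
        simp only [neg_mul, Finset.sum_neg_distrib, one_mul]
        ring
      · intro i _ hi
        rw [hu2 i hi]
        simp
      · intro h; exact absurd (Finset.mem_univ _) h
    · refine ⟨Sum.elim (fun k => if k = ⟨s, hs⟩ then 1 else 0) 0, ?_⟩
      rw [Fintype.sum_sum_type]
      simp only [Sum.elim_inl, Sum.elim_inr]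
      rw [Finset.sum_eq_single ⟨s, hs⟩]
      · simp
      · intro k _ hk
        rw [if_neg hk]
        simp
      · intro h; exact absurd (Finset.mem_univ _) h
  -- the subspace theorem
  have key := mov_thm p q hp hq hpq L hL ({s // s ∉ Set.range h} ⊕ B) inferInstance
    (fun v => if v = .P then Sum.elim (fun k => e (σ k)) b else Sum.elim (fun k => e (k : S)) b)
    (fun v => match v with
      | .P => Sum.elim (fun k => φ (σ k) - c1) (β .P)
      | .Q => Sum.elim (fun k => αQ (k : S)) (β .Q)
      | .I => Sum.elim (fun k => αI (k : S)) (β .I))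
    ?_ ?_ ?_ ?_
  · rw [Pl.sum] at key
    simp only [Fintype.sum_sum_type, Sum.elim_inl, Sum.elim_inr] at key
    have e1 : ∑ k : {s // s ∉ Set.range h}, (φ (σ k) - c1)
        = ∑ s, φ s - ∑ i, φ (l i) - c1 * Fintype.card {s // s ∉ Set.range h} := by
      rw [Finset.sum_sub_distrib, Finset.sum_const, Finset.card_univ, nsmul_eq_mul,
        Equiv.sum_comp σ (fun k => φ (k : S)), sum_over_compl l hl φ]
      ring
    have e2 : ∑ s, φ s - ∑ i, φ (h i) + c2 * Fintype.card {s // s ∉ Set.range h}
        ≥ -(∑ k : {s // s ∉ Set.range h}, αQ (k : S) + ∑ k : {s // s ∉ Set.range h}, αI (k : S)) := by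
      rw [← Finset.sum_add_distrib]
      have e3 : ∑ k : {s // s ∉ Set.range h}, (-φ (k : S) - c2)
          ≤ ∑ k : {s // s ∉ Set.range h}, (αQ (k : S) + αI (k : S)) :=
        Finset.sum_le_sum fun k _ => hα k
      rw [Finset.sum_sub_distrib, Finset.sum_const, Finset.card_univ, nsmul_eq_mul,
        Finset.sum_neg_distrib] at e3
      rw [sum_over_compl h hh φ]
      linarith
    have e4 : -(c3 * Fintype.card B) ≤ ∑ j, β .P j + ∑ j, β .Q j + ∑ j, β .I j := by
      rw [← Finset.sum_add_distrib, ← Finset.sum_add_distrib]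
      have : ∑ _j : B, (-c3) ≤ ∑ j, (β .P j + β .Q j + β .I j) := by
        refine Finset.sum_le_sum fun j _ => ?_
        have := hβ j
        rwa [Pl.sum] at this
      rw [Finset.sum_const, Finset.card_univ, nsmul_eq_mul] at this
      linarith
    have e5 : (Fintype.card {s // s ∉ Set.range h} : ℝ) = Fintype.card S - m := by
      have : (Fintype.card {s // s ∉ Set.range h} : ℝ) + m = Fintype.card S := by
        exact_mod_cast hch
      linarith
    rw [e5] at e1 e2
    rw [e1] at key
    linarith
  · intro v c hc0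
    by_cases hv : v = .P
    · simp only [if_pos hv] at hc0
      exact hind l hl hl0 _ σ c hc0
    · simp only [if_neg hv] at hc0
      exact hind h hh hh0 _ (Equiv.refl _) c hc0
  · intro v i
    simp only [reduceCtorEq, if_false]
    have hgen : ∀ i : {s // s ∉ Set.range h} ⊕ B, ∃ c : {s // s ∉ Set.range h} ⊕ B → KK L hL,
        Sum.elim (fun k : {s // s ∉ Set.range h} => e (k : S)) b i
          = ∑ j, (c j : GG) * Sum.elim (fun k : {s // s ∉ Set.range h} => e (k : S)) b j := by
      intro i
      refine ⟨fun j => if j = i then 1 else 0, ?_⟩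
      rw [Finset.sum_eq_single i]
      · simp
      · intro j _ hj
        simp [hj]
      · intro h; exact absurd (Finset.mem_univ _) h
    by_cases hv : v = .P
    · simp only [if_pos hv]
      cases i with
      | inl k => exact hspan _
      | inr j => exact hgen (Sum.inr j)
    · simp only [if_neg hv]
      exact hgen i
  · intro v i
    cases v
    · simp only [if_true]
      cases i with
      | inl k => exact heP _
      | inr j => exact hbβ _ _
    · simp only [reduceCtorEq, if_false]
      cases i with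
      | inl k => exact heQ _
      | inr j => exact hbβ _ _
    · simp only [reduceCtorEq, if_false]
      cases i with
      | inl k => exact heI _
      | inr j => exact hbβ _ _
  · intro i
    simp only [reduceCtorEq, if_false]
    cases i with
    | inl k => exact hSe _
    | inr j => exact hSb _

end Pool.Agent.TH932.S2.G
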