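import Mathlib
import Pool.Agent.TH932.S2.All
import Pool.Agent.TH932.S2.Pw
import Pool.Agent.TH932.S2.G.Two

set_option autoImplicit false

/-!
# Relations of small width
-/

namespace Pool.Agent.TH932.S2.G

open Filter Topology Module Pool.Agent.TH932.Germs Pool.Agent.TH932.S2
open scoped Pointwise

theorem pow_lt' (k : ℕ) {x : ℝ} (hx : 1 < x) : ∃ r : ℕ, ((r : ℝ) + 1) ^ k < x ^ r := by
  have h := tendsto_pow_const_div_const_pow_of_one_lt k hx
  have h2 := (h.comp (tendsto_add_atTop_nat 1)).eventually_lt_const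
    (show (0 : ℝ) < 1 / x by positivity)
  obtain ⟨r, hr⟩ := h2.exists
  refine ⟨r, ?_⟩
  simp only [Function.comp] at hr
  have hx0 : 0 < x := by linarith
  rw [div_lt_iff₀ (by positivity), pow_succ] at hr
  push_cast at hr
  have e : 1 / x * (x ^ r * x) = x ^ r := by field_simp
  rwa [e] at hr

theorem folner' {G : Type*} [AddCommGroup G] [DecidableEq G] (T : Finset G) {ε : ℝ} (hε : 0 < ε) :
    ∃ Ω : Finset G, Ω.Nonempty ∧ ((Ω + T).card : ℝ) ≤ (1 + ε) * Ω.card := by
  set Om : ℕ → Finset G := fun r =>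
    (Finset.univ : Finset (T → Fin (r + 1))).image fun m => ∑ t : T, (m t : ℕ) • (t : G) with hOm
  have hmem : ∀ (r : ℕ) (m : T → ℕ), (∀ t, m t ≤ r) → (∑ t : T, m t • (t : G)) ∈ Om r := by
    intro r m hm
    simp only [hOm, Finset.mem_image, Finset.mem_univ, true_and]
    exact ⟨fun t => ⟨m t, Nat.lt_succ_of_le (hm t)⟩, rfl⟩
  have hex : ∀ (r : ℕ) (x : G), x ∈ Om r → ∃ m : T → ℕ, (∀ t, m t ≤ r) ∧
      x = ∑ t : T, m t • (t : G) := by
    intro r x hx
    simp only [hOm, Finset.mem_image, Finset.mem_univ, true_and] at hx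
    obtain ⟨m, rfl⟩ := hx
    exact ⟨fun t => m t, fun t => Nat.le_of_lt_succ (m t).2, rfl⟩
  have hne : ∀ r, (Om r).Nonempty := fun r => ⟨_, hmem r (fun _ => 0) fun _ => Nat.zero_le _⟩
  have hcard : ∀ r, (Om r).card ≤ (r + 1) ^ T.card := by
    intro r
    refine Finset.card_image_le.trans ?_
    simp
  have hsub : ∀ r, Om r + T ⊆ Om (r + 1) := by
    intro r x hx
    obtain ⟨a, ha, t, ht, rfl⟩ := Finset.mem_add.1 hx
    obtain ⟨m, hm, rfl⟩ := hex r a ha
    have e : (∑ s : T, m s • (s : G)) + t =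
        ∑ s : T, (m s + if s = ⟨t, ht⟩ then 1 else 0) • (s : G) := by
      simp only [add_smul, Finset.sum_add_distrib, ite_smul, one_smul, zero_smul,
        Finset.sum_ite_eq', Finset.mem_univ, if_true]
    rw [e]
    refine hmem _ _ fun s => ?_
    have := hm s
    split_ifs <;> omega
  by_contra hcon
  push Not at hcon
  have h1 : ∀ r, (1 + ε) ^ r ≤ ((Om r).card : ℝ) := by
    intro r
    induction r with
    | zero =>
      have := (hne 0).card_pos
      simp only [pow_zero]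
      exact_mod_cast this
    | succ r ih =>
        have h2 := hcon (Om r) (hne r)
        have h3 : ((Om r + T).card : ℝ) ≤ (Om (r + 1)).card := by
          exact_mod_cast Finset.card_le_card (hsub r)
        rw [pow_succ]
        have : (1 + ε) ^ r * (1 + ε) ≤ (Om r).card * (1 + ε) := by gcongr
        linarith
  obtain ⟨r, hr⟩ := pow_lt' T.card (show (1 : ℝ) < 1 + ε by linarith)
  have h4 := (h1 r)
  have h5 : ((Om r).card : ℝ) ≤ ((r : ℝ) + 1) ^ T.card := by exact_mod_cast hcard r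
  linarith

variable {L : ℕ → ℝ} {p q : ℕ}

section mk
variable (hL : Tendsto L atTop atTop) (hp : 2 ≤ p) (hq : 2 ≤ q)

/-- the element of the group ring with given coefficients -/
noncomputable def mkR (T : Finset (ℝ × ℝ)) (c : T → KK L hL) : Rg hL :=
  ∑ t : T, AddMonoidAlgebra.single (t : ℝ × ℝ) (c t)

lemma mkR_coeff (T : Finset (ℝ × ℝ)) (c : T → KK L hL) (t : T) : (mkR hL T c).coeff t = c t := by
  have := KP.coeff_sum_eq hL (fun _ : T => True) (fun g : T => (g : ℝ × ℝ))
    Subtype.val_injective c t trivial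
  simp only [if_true] at this
  exact this

lemma mkR_supp (T : Finset (ℝ × ℝ)) (c : T → KK L hL) (g : ℝ × ℝ) (hg : (mkR hL T c).coeff g ≠ 0) :
    ∃ t : T, (t : ℝ × ℝ) = g ∧ c t ≠ 0 := by
  by_cases h : g ∈ T
  · refine ⟨⟨g, h⟩, rfl, ?_⟩
    rw [← mkR_coeff hL T c]
    exact hg
  · exfalso
    apply hg
    have := KP.coeff_sum_ne hL (fun _ : T => True) (fun g : T => (g : ℝ × ℝ)) c g
      (fun i _ hi => h (hi ▸ i.2))
    simp only [if_true] at this
    exact this

lemma mkR_ev (T : Finset (ℝ × ℝ)) (c : T → KK L hL) :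
    ev2 hL hp hq (mkR hL T c) = ∑ t : T, (c t : GG) * ch2 hL hp hq (t : ℝ × ℝ) := by
  unfold mkR
  rw [map_sum]
  exact Finset.sum_congr rfl fun t _ => ev2_single hL hp hq _ _

/-- shifts -/
lemma shift (T : Finset (ℝ × ℝ)) (f : Rg hL) (ω : ℝ × ℝ)
    (hT : ∀ τ, f.coeff τ ≠ 0 → ω + τ ∈ T) :
    ∑ t : T, ((f.coeff ((t : ℝ × ℝ) - ω) : KK L hL) : GG) * ch2 hL hp hq (t : ℝ × ℝ)
      = ch2 hL hp hq ω * ev2 hL hp hq f := by
  classical
  rw [ev2_sum, Finset.mul_sum]
  rw [Finset.sum_coe_sort T (fun t => ((f.coeff (t - ω) : KK L hL) : GG) * ch2 hL hp hq t)]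
  have h1 : (f.coeff.support.image fun g => ω + g) ⊆ T := by
    intro x hx
    obtain ⟨g, hg, rfl⟩ := Finset.mem_image.1 hx
    exact hT g (Finsupp.mem_support_iff.1 hg)
  rw [← Finset.sum_subset h1]
  · rw [Finset.sum_image fun a _ b _ hab => add_left_cancel hab]
    refine Finset.sum_congr rfl fun g _ => ?_
    rw [add_sub_cancel_left, ch2_add]
    ring
  · intro x _ hx
    have : f.coeff (x - ω) = 0 := by
      by_contra hcon
      apply hx
      exact Finset.mem_image.2 ⟨x - ω, Finsupp.mem_support_iff.2 hcon, by abel⟩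
    rw [this]
    simp

end mk

/-- relations modulo `b` -/
noncomputable def Ud (hL : Tendsto L atTop atTop) {S B : Type} [Fintype S] [Fintype B] (e : S → GG)
    (b : B → GG) : Submodule (KK L hL) (S → KK L hL) :=
  (Submodule.span (KK L hL) (Set.range b)).comap (Fintype.linearCombination (KK L hL) e)

lemma mem_Ud (hL : Tendsto L atTop atTop) {S B : Type} [Fintype S] [Fintype B] (e : S → GG)
    (b : B → GG) (c : S → KK L hL) : c ∈ Ud hL e b ↔
      ∃ d : B → KK L hL, ∑ s, (c s : GG) * e s = ∑ j, (d j : GG) * b j := by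
  unfold Ud
  rw [Submodule.mem_comap, Submodule.mem_span_range_iff_exists_fun]
  constructor
  · rintro ⟨d, hd⟩
    refine ⟨d, ?_⟩
    rw [Fintype.linearCombination_apply] at hd
    simpa only [Subfield.smul_def, smul_eq_mul] using hd.symm
  · rintro ⟨d, hd⟩
    refine ⟨d, ?_⟩
    rw [Fintype.linearCombination_apply]
    simpa only [Subfield.smul_def, smul_eq_mul] using hd.symm

section wd
variable (hp : 2 ≤ p) (hq : 2 ≤ q) (hpq : IsCoprime (q : ℤ) (p : ℤ)) (hL : Tendsto L atTop atTop)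

include hp hq hpq in
/-- shifts of one nonzero element are independent -/
lemma shifts_ind (Ω T : Finset (ℝ × ℝ)) (f : Rg hL) (hf : f ≠ 0)
    (hT : ∀ ω ∈ Ω, ∀ τ, f.coeff τ ≠ 0 → ω + τ ∈ T) (c : Ω → KK L hL)
    (h : ∀ t : T, ∑ ω : Ω, c ω * f.coeff ((t : ℝ × ℝ) - ω) = 0) : ∀ ω, c ω = 0 := by
  apply Pw.ch_ind hp hq hpq hL Ω
  have hf' : ev2 hL hp hq f ≠ 0 := fun h0 => hf (su_thm p q hp hq hpq L hL f h0)
  have h1 : (∑ i : Ω, (c i : GG) * ch2 hL hp hq (i : ℝ × ℝ)) * ev2 hL hp hq f = 0 := by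
    rw [Finset.sum_mul]
    have h2 : ∀ ω : Ω, (c ω : GG) * ch2 hL hp hq (ω : ℝ × ℝ) * ev2 hL hp hq f
        = ∑ t : T, ((c ω * f.coeff ((t : ℝ × ℝ) - ω) : KK L hL) : GG)
          * ch2 hL hp hq (t : ℝ × ℝ) := by
      intro ω
      rw [mul_assoc, ← shift hL hp hq T f ω (hT ω ω.2), Finset.mul_sum]
      refine Finset.sum_congr rfl fun t _ => ?_
      push_cast
      ring
    rw [Finset.sum_congr rfl fun ω _ => h2 ω, Finset.sum_comm]
    refine Finset.sum_eq_zero fun t _ => ?_
    rw [← Finset.sum_mul]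
    have h3 := congrArg (fun x : KK L hL => (x : GG)) (h t)
    have h4 : ((∑ ω : Ω, c ω * f.coeff ((t : ℝ × ℝ) - ω) : KK L hL) : GG)
        = ∑ ω : Ω, ((c ω * f.coeff ((t : ℝ × ℝ) - ω) : KK L hL) : GG) :=
      map_sum (KK L hL).subtype _ _
    rw [← h4, h t]
    simp
  exact (mul_eq_zero.1 h1).resolve_right hf'

lemma lv_sub (v : Pl) (g h : ℝ × ℝ) : lv p q v (g - h) = lv p q v g - lv p q v h := by
  rw [sub_eq_add_neg, lv_add, lv_neg]; ring

include hp hq hpq in
/-- **Width of the denominators of a germ of arbitrary size.** -/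
theorem width1 {J : Type} [Fintype J] (ζ : J → GG) (C : ℝ)
    (hind : ∀ A : J → Rg hL, ∑ j, ev2 hL hp hq (A j) * ζ j = 0 → ∀ j, A j = 0)
    (hζ : ∀ u j, ζ j ∈ Sv L p q u (-C)) (hζS : ∀ j, Sint L p q (ζ j)) (Y : GG) (CY : ℝ)
    (hY : ∀ u, Y ∈ Sv L p q u (-CY)) (hYS : Sint L p q Y) (f0 : Rg hL) (hf0 : f0 ≠ 0)
    (a0 : J → Rg hL) (h0 : ev2 hL hp hq f0 * Y = ∑ j, ev2 hL hp hq (a0 j) * ζ j) :
    ∃ (f : Rg hL) (a : J → Rg hL), f ≠ 0 ∧
      ev2 hL hp hq f * Y = ∑ j, ev2 hL hp hq (a j) * ζ j ∧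
      ∀ g g', f.coeff g ≠ 0 → f.coeff g' ≠ 0 →
        lv p q .P g' - lv p q .P g ≤ 6 * |C| * Fintype.card J + 1 := by
  classical
  by_contra hcon
  push Not at hcon
  set w : ℝ := 6 * |C| * Fintype.card J + 1 with hw
  have hζ' : ∀ u j, ζ j ∈ Sv L p q u (-|C|) := fun u j =>
    (filt_v hL hp hq u).anti (neg_le_neg (le_abs_self C)) (hζ u j)
  have hY' : ∀ u, Y ∈ Sv L p q u (-|CY|) := fun u =>
    (filt_v hL hp hq u).anti (neg_le_neg (le_abs_self CY)) (hY u)
  -- the positions
  set T0 : Finset (ℝ × ℝ) := f0.coeff.support ∪ Finset.univ.biUnion fun j => (a0 j).coeff.support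
    with hT0
  set ε : ℝ := 1 / (3 * |CY| + 3) with hε
  have hε0 : 0 < ε := by positivity
  have hε1 : ε ≤ 1 := by
    rw [hε, div_le_one (by positivity)]
    have := abs_nonneg CY
    linarith
  obtain ⟨Ω, hΩne, hΩ⟩ := folner' T0 hε0
  set T := Ω + T0 with hT
  have hTf : ∀ ω ∈ Ω, ∀ τ, f0.coeff τ ≠ 0 → ω + τ ∈ T := fun ω hω τ hτ =>
    Finset.add_mem_add hω (Finset.mem_union_left _ (Finsupp.mem_support_iff.2 hτ))
  have hTa : ∀ j, ∀ ω ∈ Ω, ∀ τ, (a0 j).coeff τ ≠ 0 → ω + τ ∈ T := fun j ω hω τ hτ =>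
    Finset.add_mem_add hω (Finset.mem_union_right _ (Finset.mem_biUnion.2
      ⟨j, Finset.mem_univ _, Finsupp.mem_support_iff.2 hτ⟩))
  set e : T → GG := fun t => ch2 hL hp hq (t : ℝ × ℝ) * Y with he
  set b : T × J → GG := fun i => ch2 hL hp hq (i.1 : ℝ × ℝ) * ζ i.2 with hb
  -- sums over the second family
  have hbsum : ∀ d : T × J → KK L hL, ∑ i, (d i : GG) * b i
      = ∑ j, ev2 hL hp hq (mkR hL T fun t => d (t, j)) * ζ j := by
    intro d
    rw [Fintype.sum_prod_type_right]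
    refine Finset.sum_congr rfl fun j _ => ?_
    rw [mkR_ev, Finset.sum_mul]
    refine Finset.sum_congr rfl fun t _ => ?_
    rw [hb]
    simp only
    ring
  have hesum : ∀ c : T → KK L hL, ∑ s, (c s : GG) * e s
      = ev2 hL hp hq (mkR hL T c) * Y := by
    intro c
    rw [mkR_ev, Finset.sum_mul]
    refine Finset.sum_congr rfl fun t _ => ?_
    rw [he]
    simp only
    ring
  have hord : ∀ (v : Pl) (g : ℝ × ℝ) (x : GG) (c : ℝ), x ∈ Sv L p q v (-c) →
      ch2 hL hp hq g * x ∈ Sv L p q v (lv p q v g - c) := by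
    intro v g x c hx
    have := (filt_v hL hp hq v).mul_mem (ch2_mem hL hp hq hpq v g) hx
    rw [← sub_eq_add_neg] at this
    exact this
  have key := two hp hq hpq hL e b ?_ (Ud hL e b) (fun c => mem_Ud hL e b c)
    (fun t => lv p q .P t) w |CY| (2 * |CY|) (3 * |C|) ?_ ?_
    (fun t => lv p q .Q t - |CY|) (fun t => lv p q .I t - |CY|) ?_ ?_ ?_
    (fun v i => lv p q v i.1 - |C|) ?_ ?_ ?_ ?_
  · -- the dimension
    have hdim : Ω.card ≤ finrank (KK L hL) (Ud hL e b) := by
      have hmemU : ∀ ω : Ω, (fun t : T => f0.coeff ((t : ℝ × ℝ) - ω)) ∈ Ud hL e b := by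
        intro ω
        rw [mem_Ud]
        refine ⟨fun i => (a0 i.2).coeff ((i.1 : ℝ × ℝ) - ω), ?_⟩
        rw [hbsum, hesum, mkR_ev, shift hL hp hq T f0 ω (hTf ω ω.2), mul_assoc, h0,
          Finset.mul_sum]
        refine Finset.sum_congr rfl fun j _ => ?_
        rw [mkR_ev, shift hL hp hq T (a0 j) ω (hTa j ω ω.2), mul_assoc]
      have hli : LinearIndependent (KK L hL) (fun ω : Ω => (⟨_, hmemU ω⟩ : Ud hL e b)) := by
        rw [Fintype.linearIndependent_iff]
        intro c hc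
        apply shifts_ind hp hq hpq hL Ω T f0 hf0 hTf c
        intro t
        have := congrArg (fun x : Ud hL e b => (x : T → KK L hL) t) hc
        simpa [Finset.sum_apply] using this
      have := hli.fintype_card_le_finrank
      rwa [Fintype.card_coe] at this
    have hdim' : (Ω.card : ℝ) ≤ finrank (KK L hL) (Ud hL e b) := by exact_mod_cast hdim
    rw [Fintype.card_coe, Fintype.card_prod, Fintype.card_coe] at key
    push_cast at key
    have hΩ1 : (1 : ℝ) ≤ Ω.card := by exact_mod_cast hΩne.card_pos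
    have hw0 : 0 < w := by positivity
    have k1 : Ω.card * w ≤ finrank (KK L hL) (Ud hL e b) * w := by gcongr
    have k2 : (T.card : ℝ) - finrank (KK L hL) (Ud hL e b) ≤ ε * Ω.card := by
      linarith
    have k3 : (|CY| + 2 * |CY|) * ((T.card : ℝ) - finrank (KK L hL) (Ud hL e b))
        ≤ (3 * |CY|) * (ε * Ω.card) := by
      have := abs_nonneg CY
      have e1 : |CY| + 2 * |CY| = 3 * |CY| := by ring
      rw [e1]
      gcongr
    have k4 : (3 * |CY|) * ε < 1 := by
      rw [hε, mul_one_div, div_lt_one (by positivity)]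
      linarith
    have k5 : (T.card : ℝ) ≤ 2 * Ω.card := by
      have : (1 + ε) * Ω.card ≤ 2 * Ω.card := by gcongr; linarith
      linarith
    have k6 : 3 * |C| * (T.card * Fintype.card J) ≤ 3 * |C| * ((2 * Ω.card) * Fintype.card J) := by
      gcongr
    have k7 : (3 * |CY|) * (ε * Ω.card) < Ω.card := by
      have : (3 * |CY|) * (ε * Ω.card) = (3 * |CY| * ε) * Ω.card := by ring
      rw [this]
      calc (3 * |CY| * ε) * Ω.card < 1 * Ω.card := by gcongr
        _ = Ω.card := one_mul _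
    have k8 : Ω.card * w < Ω.card + 3 * |C| * ((2 * Ω.card) * Fintype.card J) := by linarith
    rw [hw] at k8
    linarith
  · exact KP.li_e hL hp hq ζ hind T
  · intro u hu hu0
    obtain ⟨d, hd⟩ := (mem_Ud hL e b u).1 hu
    rw [hesum, hbsum] at hd
    have hne : mkR hL T u ≠ 0 := by
      intro h1
      apply hu0
      funext t
      rw [← mkR_coeff hL T u t, h1]
      rfl
    obtain ⟨g, g', hg, hg', hgg⟩ := hcon _ _ hne hd
    obtain ⟨t, rfl, ht⟩ := mkR_supp hL T u g hg
    obtain ⟨t', rfl, ht'⟩ := mkR_supp hL T u g' hg'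
    exact ⟨t, t', ht, ht', hgg.le⟩
  · intro t; exact hord .P _ _ _ (hY' _)
  · intro t; exact hord .Q _ _ _ (hY' _)
  · intro t; exact hord .I _ _ _ (hY' _)
  · intro t
    have := lv_sum (p := p) (q := q) (t : ℝ × ℝ)
    rw [Pl.sum] at this
    linarith
  · intro v i; exact hord v _ _ _ (hζ' _ _)
  · intro i
    have := lv_sum (p := p) (q := q) (i.1 : ℝ × ℝ)
    rw [Pl.sum] at this
    rw [Pl.sum]
    linarith
  · intro t
    exact Sint.mul hL hp hq (ch2_sint hL hp hq _) hYS
  · intro i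
    exact Sint.mul hL hp hq (ch2_sint hL hp hq _) (hζS _)

include hp hq hpq in
/-- **Joint width of a relation.** -/
theorem width2 {J : Type} [Fintype J] (ζ : J → GG) (C : ℝ)
    (hind : ∀ A : J → Rg hL, ∑ j, ev2 hL hp hq (A j) * ζ j = 0 → ∀ j, A j = 0)
    (hζ : ∀ u j, ζ j ∈ Sv L p q u (-C)) (hζS : ∀ j, Sint L p q (ζ j)) (z : GG)
    (hz : ∀ u, z ∈ Sv L p q u (-C)) (hzS : Sint L p q z) (f0 : Rg hL) (hf0 : f0 ≠ 0)
    (a0 : J → Rg hL) (h0 : ev2 hL hp hq f0 * z = ∑ j, ev2 hL hp hq (a0 j) * ζ j) :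
    ∃ (f : Rg hL) (a : J → Rg hL), f ≠ 0 ∧
      ev2 hL hp hq f * z = ∑ j, ev2 hL hp hq (a j) * ζ j ∧
      ∀ g g', (f.coeff g ≠ 0 ∨ ∃ j, (a j).coeff g ≠ 0) →
        (f.coeff g' ≠ 0 ∨ ∃ j, (a j).coeff g' ≠ 0) →
        lv p q .P g' - lv p q .P g ≤ 6 * |C| * (Fintype.card J + 1) + 1 := by
  classical
  by_contra hcon
  push Not at hcon
  set w : ℝ := 6 * |C| * (Fintype.card J + 1) + 1 with hw
  have hζ' : ∀ u j, ζ j ∈ Sv L p q u (-|C|) := fun u j =>
    (filt_v hL hp hq u).anti (neg_le_neg (le_abs_self C)) (hζ u j)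
  have hz' : ∀ u, z ∈ Sv L p q u (-|C|) := fun u =>
    (filt_v hL hp hq u).anti (neg_le_neg (le_abs_self C)) (hz u)
  set T0 : Finset (ℝ × ℝ) := f0.coeff.support ∪ Finset.univ.biUnion fun j => (a0 j).coeff.support
    with hT0
  obtain ⟨Ω, hΩne, hΩ⟩ := KP.folner T0
  set T := Ω + T0 with hT
  have hTf : ∀ ω ∈ Ω, ∀ τ, f0.coeff τ ≠ 0 → ω + τ ∈ T := fun ω hω τ hτ =>
    Finset.add_mem_add hω (Finset.mem_union_left _ (Finsupp.mem_support_iff.2 hτ))
  have hTa : ∀ j, ∀ ω ∈ Ω, ∀ τ, (a0 j).coeff τ ≠ 0 → ω + τ ∈ T := fun j ω hω τ hτ =>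
    Finset.add_mem_add hω (Finset.mem_union_right _ (Finset.mem_biUnion.2
      ⟨j, Finset.mem_univ _, Finsupp.mem_support_iff.2 hτ⟩))
  set ζ' : Option J → GG := fun o => o.elim z ζ with hζ'd
  set e : T × Option J → GG := fun i => ch2 hL hp hq (i.1 : ℝ × ℝ) * ζ' i.2 with he
  set b : PEmpty.{1} → GG := fun i => i.elim with hb
  have hesum : ∀ c : T × Option J → KK L hL, ∑ s, (c s : GG) * e s
      = ev2 hL hp hq (mkR hL T fun t => c (t, none)) * z
        + ∑ j, ev2 hL hp hq (mkR hL T fun t => c (t, some j)) * ζ j := by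
    intro c
    rw [Fintype.sum_prod_type_right, Fintype.sum_option]
    congr 1
    · rw [mkR_ev, Finset.sum_mul]
      refine Finset.sum_congr rfl fun t _ => ?_
      rw [he]
      simp only [hζ'd, Option.elim]
      ring
    · refine Finset.sum_congr rfl fun j _ => ?_
      rw [mkR_ev, Finset.sum_mul]
      refine Finset.sum_congr rfl fun t _ => ?_
      rw [he]
      simp only [hζ'd, Option.elim]
      ring
  have hord : ∀ (v : Pl) (i : T × Option J), e i ∈ Sv L p q v (lv p q v i.1 - |C|) := by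
    intro v i
    have h1 : ζ' i.2 ∈ Sv L p q v (-|C|) := by
      cases h : i.2 with
      | none => exact hz' v
      | some j => exact hζ' v j
    have := (filt_v hL hp hq v).mul_mem (ch2_mem hL hp hq hpq v i.1) h1
    rw [← sub_eq_add_neg] at this
    exact this
  have key := two hp hq hpq hL e b ?_ (Ud hL e b) (fun c => mem_Ud hL e b c)
    (fun i => lv p q .P i.1) w |C| (2 * |C|) 0 ?_ ?_
    (fun i => lv p q .Q i.1 - |C|) (fun i => lv p q .I i.1 - |C|) ?_ ?_ ?_
    (fun v i => i.elim) ?_ ?_ ?_ ?_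
  · have hdim : Ω.card ≤ finrank (KK L hL) (Ud hL e b) := by
      set um : Ω → T × Option J → KK L hL := fun ω i =>
        i.2.elim (f0.coeff ((i.1 : ℝ × ℝ) - ω)) (fun j => -(a0 j).coeff ((i.1 : ℝ × ℝ) - ω))
        with hum
      have hmemU : ∀ ω : Ω, um ω ∈ Ud hL e b := by
        intro ω
        rw [mem_Ud]
        refine ⟨fun i => i.elim, ?_⟩
        rw [hesum, mkR_ev]
        simp only [hum, Option.elim]
        rw [shift hL hp hq T f0 ω (hTf ω ω.2), mul_assoc, h0,
          Finset.mul_sum, ← Finset.sum_add_distrib]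
        rw [Finset.sum_eq_zero]
        · simp
        · intro j _
          have h1 := shift hL hp hq T (a0 j) ω (hTa j ω ω.2)
          rw [mkR_ev]
          have h2 : ∑ t : T, ((-(a0 j).coeff ((t : ℝ × ℝ) - ω) : KK L hL) : GG)
              * ch2 hL hp hq (t : ℝ × ℝ) = -(ch2 hL hp hq ω * ev2 hL hp hq (a0 j)) := by
            rw [← h1, ← Finset.sum_neg_distrib]
            refine Finset.sum_congr rfl fun t _ => ?_
            push_cast
            ring
          rw [h2]
          ring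
      have hli : LinearIndependent (KK L hL) (fun ω : Ω => (⟨_, hmemU ω⟩ : Ud hL e b)) := by
        rw [Fintype.linearIndependent_iff]
        intro c hc
        apply shifts_ind hp hq hpq hL Ω T f0 hf0 hTf c
        intro t
        have := congrArg (fun x : Ud hL e b => (x : T × Option J → KK L hL) (t, none)) hc
        simpa [Finset.sum_apply, hum] using this
      have := hli.fintype_card_le_finrank
      rwa [Fintype.card_coe] at this
    have hdim' : (Ω.card : ℝ) ≤ finrank (KK L hL) (Ud hL e b) := by exact_mod_cast hdim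
    rw [Fintype.card_prod, Fintype.card_option, Fintype.card_coe] at key
    push_cast at key
    have hΩ1 : (1 : ℝ) ≤ Ω.card := by exact_mod_cast hΩne.card_pos
    have hw0 : 0 < w := by positivity
    have k1 : Ω.card * w ≤ finrank (KK L hL) (Ud hL e b) * w := by gcongr
    have k5 : (T.card : ℝ) ≤ 2 * Ω.card := by exact_mod_cast hΩ
    have k3 : (|C| + 2 * |C|) * ((T.card : ℝ) * (Fintype.card J + 1)
        - finrank (KK L hL) (Ud hL e b)) ≤ 3 * |C| * ((2 * Ω.card) * (Fintype.card J + 1)) := by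
      have h1 := abs_nonneg C
      have e1 : |C| + 2 * |C| = 3 * |C| := by ring
      rw [e1]
      have h2 : (T.card : ℝ) * (Fintype.card J + 1) - finrank (KK L hL) (Ud hL e b)
          ≤ (2 * Ω.card) * (Fintype.card J + 1) := by
        have : (T.card : ℝ) * (Fintype.card J + 1) ≤ (2 * Ω.card) * (Fintype.card J + 1) := by
          gcongr
        have h3 : (0 : ℝ) ≤ finrank (KK L hL) (Ud hL e b) := by positivity
        linarith
      gcongr
    rw [hw] at k1
    nlinarith
  · intro c _ j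
    exact j.elim
  · intro u hu hu0
    obtain ⟨d, hd⟩ := (mem_Ud hL e b u).1 hu
    rw [hesum] at hd
    simp only [Finset.univ_eq_empty, Finset.sum_empty] at hd
    have hne : mkR hL T (fun t => u (t, none)) ≠ 0 := by
      intro h1
      rw [h1, map_zero, zero_mul, zero_add] at hd
      have h2 := hind _ hd
      apply hu0
      funext i
      obtain ⟨t, o⟩ := i
      cases o with
      | none =>
        have := mkR_coeff hL T (fun t => u (t, none)) t
        rw [h1] at this
        exact this.symm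
      | some j =>
        have := mkR_coeff hL T (fun t => u (t, some j)) t
        rw [h2 j] at this
        exact this.symm
    obtain ⟨g, g', hg, hg', hgg⟩ := hcon _ (fun j => -mkR hL T (fun t => u (t, some j))) hne (by
      rw [eq_neg_of_add_eq_zero_left hd, ← Finset.sum_neg_distrib]
      refine Finset.sum_congr rfl fun j _ => ?_
      rw [map_neg, neg_mul])
    have hpos : ∀ g, ((mkR hL T fun t => u (t, none)).coeff g ≠ 0 ∨
        ∃ j, (-mkR hL T (fun t => u (t, some j))).coeff g ≠ 0) →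
        ∃ i, (i.1 : ℝ × ℝ) = g ∧ u i ≠ 0 := by
      rintro g (hg | ⟨j, hg⟩)
      · obtain ⟨t, rfl, ht⟩ := mkR_supp hL T _ g hg
        exact ⟨(t, none), rfl, ht⟩
      · rw [AddMonoidAlgebra.coeff_neg, Finsupp.neg_apply, neg_ne_zero] at hg
        obtain ⟨t, rfl, ht⟩ := mkR_supp hL T _ g hg
        exact ⟨(t, some j), rfl, ht⟩
    obtain ⟨i, rfl, hi⟩ := hpos g hg
    obtain ⟨i', rfl, hi'⟩ := hpos g' hg'
    exact ⟨i, i', hi, hi', hgg.le⟩
  · intro t; exact hord .P _
  · intro t; exact hord .Q _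
  · intro t; exact hord .I _
  · intro t
    have := lv_sum (p := p) (q := q) (t.1 : ℝ × ℝ)
    rw [Pl.sum] at this
    linarith
  · intro v i; exact i.elim
  · intro i; exact i.elim
  · intro i
    have h1 : Sint L p q (ζ' i.2) := by
      cases h : i.2 with
      | none => exact hzS
      | some j => exact hζS j
    exact Sint.mul hL hp hq (ch2_sint hL hp hq _) h1
  · intro i; exact i.elim

end wd

end Pool.Agent.TH932.S2.G
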