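import Mathlib
import Pool.Agent.TH932.S2.All
import Pool.Agent.TH932.S2.Pw
import Pool.Agent.TH932.S2.G.Wd
import Pool.Agent.TH932.S2.G.Kx

set_option autoImplicit false

/-!
# Absorption: a bound which does not depend on the first term
-/

namespace Pool.Agent.TH932.S2.G

open Filter Topology Pool.Agent.TH932.Germs Pool.Agent.TH932.S2

variable {L : ℕ → ℝ} {p q : ℕ}

/-- the valuations at `P` of the exponents are in `[0, s]` -/
def Bx (p q : ℕ) {L : ℕ → ℝ} {hL : Tendsto L atTop atTop} (s : ℝ) (f : Rg hL) : Prop :=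
  ∀ g, f.coeff g ≠ 0 → 0 ≤ lv p q .P g ∧ lv p q .P g ≤ s

section bx
variable {hL : Tendsto L atTop atTop}

lemma Bx.mono {s t : ℝ} {f : Rg hL} (h : Bx p q s f) (hst : s ≤ t) : Bx p q t f :=
  fun g hg => ⟨(h g hg).1, (h g hg).2.trans hst⟩

lemma Bx.mul {s t : ℝ} {f g : Rg hL} (hf : Bx p q s f) (hg : Bx p q t g) :
    Bx p q (s + t) (f * g) := by
  intro x hx
  obtain ⟨a, b, ha, hb, rfl⟩ := BD.supp_mul _ _ _ hx
  have h1 := hf a ha
  have h2 := hg b hb
  rw [lv_add]
  constructor <;> linarith [h1.1, h1.2, h2.1, h2.2]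

lemma Bx.one : Bx p q 0 (1 : Rg hL) := by
  intro g hg
  have : g = 0 := by
    by_contra hne
    apply hg
    rw [AddMonoidAlgebra.one_def, AddMonoidAlgebra.coeff_single, Finsupp.single_eq_of_ne hne]
  rw [this, lv_zero]
  exact ⟨le_rfl, le_rfl⟩

lemma Bx.prod {ι : Type*} (s : Finset ι) (f : ι → Rg hL) {w : ℝ} (h : ∀ k ∈ s, Bx p q w (f k)) :
    Bx p q (s.card * w) (∏ k ∈ s, f k) := by
  classical
  induction s using Finset.induction_on with
  | empty => simpa using Bx.one
  | insert a s ha ih =>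
    rw [Finset.prod_insert ha, Finset.card_insert_of_notMem ha]
    have h1 := (h a (Finset.mem_insert_self _ _)).mul
      (ih fun k hk => h k (Finset.mem_insert_of_mem hk))
    refine h1.mono ?_
    push_cast
    linarith

end bx

section
variable (hp : 2 ≤ p) (hq : 2 ≤ q) (hpq : IsCoprime (q : ℤ) (p : ℤ)) (hL : Tendsto L atTop atTop)

lemma mono_supp (γ : ℝ × ℝ) (f : Rg hL) (g : ℝ × ℝ)
    (hg : ((AddMonoidAlgebra.single γ 1 : Rg hL) * f).coeff g ≠ 0) :
    ∃ τ, f.coeff τ ≠ 0 ∧ g = γ + τ := by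
  obtain ⟨a, b, ha, hb, rfl⟩ := BD.supp_mul _ _ _ hg
  refine ⟨b, hb, ?_⟩
  have : a = γ := by
    by_contra hne
    apply ha
    rw [AddMonoidAlgebra.coeff_single, Finsupp.single_eq_of_ne hne]
  rw [this]

lemma exists_coeff (f : Rg hL) (hf : f ≠ 0) : ∃ g, f.coeff g ≠ 0 := by
  by_contra hcon
  push Not at hcon
  apply hf
  apply AddMonoidAlgebra.coeff_injective
  ext g
  rw [hcon g]
  rfl

include hp hq hpq in
/-- a common denominator of small width -/
theorem basis2 (Z : Type) [Fintype Z] (z : Z → GG) (C : ℝ) (hz : ∀ u j, z j ∈ Sv L p q u (-C))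
    (hzi : ∀ j, Sint L p q (z j)) :
    ∃ (J : Finset Z) (δ : Rg hL) (c : Z → J → Rg hL), δ ≠ 0 ∧
      (∀ A : J → Rg hL, ∑ j, ev2 hL hp hq (A j) * z j = 0 → ∀ j, A j = 0) ∧
      (∀ k, ev2 hL hp hq δ * z k = ∑ j, ev2 hL hp hq (c k j) * z j) ∧
      Bx p q ((Fintype.card Z + 1) * (6 * |C| * (Fintype.card Z + 1) + 1)) δ ∧
      ∀ k j, Bx p q ((Fintype.card Z + 1) * (6 * |C| * (Fintype.card Z + 1) + 1)) (c k j) := by
  classical
  obtain ⟨J, δ0, c0, hδ0, hJ, hc0⟩ := BD.basis su_thm p q hp hq hpq L hL Z z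
  set w : ℝ := 6 * |C| * (Fintype.card Z + 1) + 1 with hw
  have hw0 : 0 ≤ w := by positivity
  have hJc : (Fintype.card J : ℝ) ≤ Fintype.card Z := by
    rw [Fintype.card_coe]
    exact_mod_cast Finset.card_le_univ J
  have hinj : ∀ f : Rg hL, ev2 hL hp hq f = 0 → f = 0 := su_thm p q hp hq hpq L hL
  have key : ∀ k : Z, ∃ (f : Rg hL) (a : J → Rg hL), f ≠ 0 ∧
      ev2 hL hp hq f * z k = ∑ j, ev2 hL hp hq (a j) * z j ∧ Bx p q w f ∧ ∀ j, Bx p q w (a j) := by
    intro k
    obtain ⟨f, a, hf, hr, hwd⟩ := width2 hp hq hpq hL (fun j : J => z j) C hJ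
      (fun u j => hz u j) (fun j => hzi j) (z k) (fun u => hz u k) (hzi k) δ0 hδ0 (c0 k) (hc0 k)
    -- the lowest exponent
    set T : Finset (ℝ × ℝ) := f.coeff.support ∪ Finset.univ.biUnion fun j => (a j).coeff.support
      with hT
    have hTmem : ∀ g, g ∈ T ↔ (f.coeff g ≠ 0 ∨ ∃ j, (a j).coeff g ≠ 0) := by
      intro g
      rw [hT, Finset.mem_union, Finsupp.mem_support_iff, Finset.mem_biUnion]
      simp
    obtain ⟨g1, hg1⟩ := exists_coeff hL f hf
    obtain ⟨g0, hg0, hmin⟩ := Finset.exists_min_image T (lv p q .P)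
      ⟨g1, (hTmem g1).2 (Or.inl hg1)⟩
    have hg0' := (hTmem g0).1 hg0
    have hbx : ∀ (g τ : ℝ × ℝ), τ ∈ T → g = -g0 + τ → 0 ≤ lv p q .P g ∧ lv p q .P g ≤ w := by
      intro g τ hτ hg
      have h1 := hmin τ hτ
      have h2 := hwd g0 τ hg0' ((hTmem τ).1 hτ)
      rw [hg, lv_add, lv_neg]
      have h3 : 6 * |C| * ((Fintype.card J : ℝ) + 1) + 1 ≤ w := by
        rw [hw]; gcongr
      constructor <;> linarith
    refine ⟨AddMonoidAlgebra.single (-g0) 1 * f, fun j => AddMonoidAlgebra.single (-g0) 1 * a j,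
      ?_, ?_, ?_, ?_⟩
    · intro h
      have h1 := congrArg (ev2 hL hp hq) h
      rw [map_mul, map_zero, ev2_single] at h1
      rcases mul_eq_zero.1 h1 with h2 | h2
      · rcases mul_eq_zero.1 h2 with h3 | h3
        · exact one_ne_zero h3
        · exact ch2_ne hL hp hq _ h3
      · exact hf (hinj _ h2)
    · rw [map_mul, mul_assoc, hr, Finset.mul_sum]
      refine Finset.sum_congr rfl fun j _ => ?_
      rw [map_mul, mul_assoc]
    · intro g hg
      obtain ⟨τ, hτ, hgτ⟩ := mono_supp hL _ _ _ hg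
      exact hbx g τ ((hTmem τ).2 (Or.inl hτ)) hgτ
    · intro j g hg
      obtain ⟨τ, hτ, hgτ⟩ := mono_supp hL _ _ _ hg
      exact hbx g τ ((hTmem τ).2 (Or.inr ⟨j, hτ⟩)) hgτ
  choose f a hf hr hfB haB using key
  refine ⟨J, ∏ k, f k, fun k j => (∏ l ∈ Finset.univ.erase k, f l) * a k j, ?_, hJ, ?_, ?_, ?_⟩
  · intro h
    have h1 := congrArg (ev2 hL hp hq) h
    rw [map_zero, map_prod] at h1
    obtain ⟨k, -, hk⟩ := Finset.prod_eq_zero_iff.1 h1
    exact hf k (hinj _ hk)
  · intro k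
    rw [← Finset.mul_prod_erase Finset.univ f (Finset.mem_univ k), map_mul,
      mul_comm (ev2 hL hp hq (f k)), mul_assoc, hr k, Finset.mul_sum]
    refine Finset.sum_congr rfl fun j _ => ?_
    rw [map_mul, mul_assoc]
  · refine (Bx.prod Finset.univ f fun k _ => hfB k).mono ?_
    rw [Finset.card_univ]
    linarith
  · intro k j
    refine ((Bx.prod (Finset.univ.erase k) f fun k _ => hfB k).mul (haB k j)).mono ?_
    have h1 : ((Finset.univ.erase k).card : ℝ) ≤ Fintype.card Z := by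
      exact_mod_cast Finset.card_le_univ _
    have h2 : ((Finset.univ.erase k).card : ℝ) * w ≤ Fintype.card Z * w := by gcongr
    linarith

include hp hq hpq in
/-- the inverse of a nonzero element of the ring, at infinity -/
lemma inv_ev (f : Rg hL) (hf : f ≠ 0) : ∃ g0, f.coeff g0 ≠ 0 ∧
    (∀ g, f.coeff g ≠ 0 → lv p q .I g0 ≤ lv p q .I g) ∧
    ∀ η : ℝ, 0 < η → (ev2 hL hp hq f)⁻¹ ∈ Sv L p q .I (-(lv p q .I g0 + η)) := by
  obtain ⟨g1, hg1⟩ := exists_coeff hL f hf
  obtain ⟨g0, hg0, hmin⟩ := Finset.exists_min_image f.coeff.support (lv p q .I)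
    ⟨g1, Finsupp.mem_support_iff.2 hg1⟩
  have hg0' := Finsupp.mem_support_iff.1 hg0
  refine ⟨g0, hg0', fun g hg => hmin g (Finsupp.mem_support_iff.2 hg), fun η hη => ?_⟩
  refine inv_inf hL _ _ ?_
  intro hmem
  have := Pw.kp1 hp hq hpq hL .I f _ hmem g0 hg0'
  linarith

/-- the widths -/
noncomputable def W2 (C : ℝ) (n : ℕ) : ℝ := (n + 1) * (6 * |C| * (n + 1) + 1)

/-- the absolute bound -/
noncomputable def Babs (p q : ℕ) (C : ℝ) (n : ℕ) (c : ℝ) : ℝ :=
  |c| * ((6 * |C| * n + 1 + W2 C n + 6 * |C| * n) / Real.log p) * Real.log q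
    + (2 * |C| + 6 * |C| * n) + 1

include hp hq hpq in
/-- **Absorption.** -/
theorem absorb (Z : Type) [Fintype Z] (z : Z → GG) (C c : ℝ)
    (hz : ∀ u j, z j ∈ Sv L p q u (-C)) (hzi : ∀ j, Sint L p q (z j))
    (Y0 : GG) (CY : ℝ) (hY0 : ∀ u, Y0 ∈ Sv L p q u (-CY)) (hY0i : Sint L p q Y0) :
    ∃ H : ℝ, ∀ (Y : GG) (h : ℝ × ℝ) (M : KK L hL) (P : Z → Rg hL), Y ∈ Sv L p q .P 0 → M ≠ 0 →
      H ≤ h.1 →
      (∀ j g, (P j).coeff g ≠ 0 → g.1 ≤ h.1 ∧ h.2 - g.2 ≤ c * (h.1 - g.1)) →
      (M : GG) * ch2 hL hp hq h * Y = Y0 + ∑ j, ev2 hL hp hq (P j) * z j →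
      Y ∈ Sv L p q .I (-Babs p q C (Fintype.card Z) c) := by
  classical
  have hlp : 0 < Real.log p := Real.log_pos (by exact_mod_cast hp)
  have hlq : 0 < Real.log q := Real.log_pos (by exact_mod_cast hq)
  have hinj : ∀ f : Rg hL, ev2 hL hp hq f = 0 → f = 0 := su_thm p q hp hq hpq L hL
  obtain ⟨J, δ, co, hδ, hJ, hco, hδB, hcoB⟩ := basis2 hp hq hpq hL Z z C hz hzi
  change Bx p q (W2 C (Fintype.card Z)) δ at hδB
  change ∀ k j, Bx p q (W2 C (Fintype.card Z)) (co k j) at hcoB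
  set W := W2 C (Fintype.card Z) with hW
  set n := Fintype.card Z with hn
  have hJc : (Fintype.card J : ℝ) ≤ n := by
    rw [Fintype.card_coe]
    exact_mod_cast Finset.card_le_univ J
  have hCz : ∀ u j, z j ∈ Sv L p q u (-|C|) := fun u j =>
    (filt_v hL hp hq u).anti (neg_le_neg (le_abs_self C)) (hz u j)
  -- the combinations
  have hcomb : ∀ P : Z → Rg hL, ev2 hL hp hq δ * ∑ k, ev2 hL hp hq (P k) * z k
      = ∑ j : J, ev2 hL hp hq (∑ k, P k * co k j) * z j := by
    intro P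
    rw [Finset.mul_sum]
    have e2 : ∀ k, ev2 hL hp hq δ * (ev2 hL hp hq (P k) * z k) =
        ∑ j, ev2 hL hp hq (P k * co k j) * z j := by
      intro k
      calc ev2 hL hp hq δ * (ev2 hL hp hq (P k) * z k)
          = ev2 hL hp hq (P k) * (ev2 hL hp hq δ * z k) := by ring
        _ = ev2 hL hp hq (P k) * ∑ j, ev2 hL hp hq (co k j) * z j := by rw [hco k]
        _ = _ := by
          rw [Finset.mul_sum]
          refine Finset.sum_congr rfl fun j _ => ?_
          rw [map_mul, mul_assoc]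
    rw [Finset.sum_congr rfl fun k _ => e2 k, Finset.sum_comm]
    refine Finset.sum_congr rfl fun j _ => ?_
    rw [map_sum, Finset.sum_mul]
  have hδP : ev2 hL hp hq δ ∈ Sv L p q .P 0 :=
    BD.ev2_mem hL hp hq hpq .P δ _ fun g hg => (hδB g hg).1
  by_cases hdep : ∃ f0 : Rg hL, f0 ≠ 0 ∧ ∃ a0 : J → Rg hL,
      ev2 hL hp hq f0 * Y0 = ∑ j, ev2 hL hp hq (a0 j) * z j
  · -- `Y0` is dependent
    obtain ⟨f0, hf0, a0, h0⟩ := hdep
    obtain ⟨f1, a1, hf1, hr1, hw1⟩ := width1 hp hq hpq hL (fun j : J => z j) C hJ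
      (fun u j => hz u j) (fun j => hzi j) Y0 CY hY0 hY0i f0 hf0 a0 h0
    obtain ⟨g1, hg1⟩ := exists_coeff hL f1 hf1
    obtain ⟨g0, hg0, hmin⟩ := Finset.exists_min_image f1.coeff.support (lv p q .P)
      ⟨g1, Finsupp.mem_support_iff.2 hg1⟩
    have hg0' := Finsupp.mem_support_iff.1 hg0
    set f : Rg hL := AddMonoidAlgebra.single (-g0) 1 * f1 with hf
    set a : J → Rg hL := fun j => AddMonoidAlgebra.single (-g0) 1 * a1 j with ha
    have hfne : f ≠ 0 := by
      intro h
      have h1 := congrArg (ev2 hL hp hq) h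
      rw [hf, map_mul, map_zero, ev2_single] at h1
      rcases mul_eq_zero.1 h1 with h2 | h2
      · rcases mul_eq_zero.1 h2 with h3 | h3
        · exact one_ne_zero h3
        · exact ch2_ne hL hp hq _ h3
      · exact hf1 (hinj _ h2)
    have hr : ev2 hL hp hq f * Y0 = ∑ j, ev2 hL hp hq (a j) * z j := by
      rw [hf, map_mul, mul_assoc, hr1, Finset.mul_sum]
      refine Finset.sum_congr rfl fun j _ => ?_
      rw [ha]
      simp only
      rw [map_mul, mul_assoc]
    have hfB : Bx p q (6 * |C| * n + 1) f := by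
      intro g hg
      obtain ⟨τ, hτ, hgτ⟩ := mono_supp hL _ _ _ hg
      have h1 := hmin τ (Finsupp.mem_support_iff.2 hτ)
      have h2 := hw1 g0 τ hg0' hτ
      rw [hgτ, lv_add, lv_neg]
      have h3 : 6 * |C| * (Fintype.card J : ℝ) + 1 ≤ 6 * |C| * n + 1 := by gcongr
      constructor <;> linarith
    have hfP : ev2 hL hp hq f ∈ Sv L p q .P 0 :=
      BD.ev2_mem hL hp hq hpq .P f _ fun g hg => (hfB g hg).1
    obtain ⟨gf, hgf, hgfm, hgfi⟩ := inv_ev hp hq hpq hL f hfne
    obtain ⟨gδ, hgδ, hgδm, hgδi⟩ := inv_ev hp hq hpq hL δ hδ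
    -- the coefficients at infinity
    have hcoI : ∀ k j τ, (co k j).coeff τ ≠ 0 →
        lv p q .I gδ - |C| - 6 * |C| * n ≤ lv p q .I τ := by
      intro k j τ hτ
      have h1 : ∑ j : J, ev2 hL hp hq (co k j) * z j ∈ Sv L p q .I (lv p q .I gδ - |C|) := by
        rw [← hco k]
        have := (filt_v hL hp hq .I).mul_mem (BD.ev2_mem hL hp hq hpq .I δ _ hgδm) (hCz .I k)
        rwa [← sub_eq_add_neg] at this
      have h2 := kpx p q hp hq hpq L hL .I J (fun j => z j) C hJ (fun u j => hz u j)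
        (fun j => hzi j) (co k) _ h1 j τ hτ
      have h3 : 6 * |C| * (Fintype.card J : ℝ) ≤ 6 * |C| * n := by gcongr
      linarith
    -- the bound for the fixed part
    obtain ⟨b1, hb1⟩ : ∃ b1 : ℝ, ∀ j g, (δ * a j).coeff g ≠ 0 → lv p q .P g ≤ b1 := by
      set T1 : Finset (ℝ × ℝ) := Finset.univ.biUnion fun j => (δ * a j).coeff.support with hT1
      refine ⟨∑ g ∈ T1, |lv p q .P g|, fun j g hg => ?_⟩
      have h1 : g ∈ T1 := Finset.mem_biUnion.2
        ⟨j, Finset.mem_univ _, Finsupp.mem_support_iff.2 hg⟩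
      have h2 := Finset.single_le_sum (f := fun g => |lv p q .P g|) (fun g _ => abs_nonneg _) h1
      exact (le_abs_self _).trans h2
    refine ⟨(b1 + 6 * |C| * n + 1) / Real.log p, ?_⟩
    intro Y h M P hY hM hH hP hE
    rw [div_le_iff₀ hlp] at hH
    set A : J → Rg hL := fun j => δ * a j + f * ∑ k, P k * co k j with hA
    have e1 : ev2 hL hp hq f * (ev2 hL hp hq δ * ((M : GG) * ch2 hL hp hq h * Y))
        = ∑ j, ev2 hL hp hq (A j) * z j := by
      rw [hE, mul_add, mul_add, hcomb P]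
      have h1 : ev2 hL hp hq f * (ev2 hL hp hq δ * Y0)
          = ∑ j, ev2 hL hp hq (δ * a j) * z j := by
        calc ev2 hL hp hq f * (ev2 hL hp hq δ * Y0)
            = ev2 hL hp hq δ * (ev2 hL hp hq f * Y0) := by ring
          _ = _ := by
            rw [hr, Finset.mul_sum]
            refine Finset.sum_congr rfl fun j _ => ?_
            rw [map_mul (ev2 hL hp hq) δ (a j), mul_assoc]
      rw [h1, Finset.mul_sum, ← Finset.sum_add_distrib]
      refine Finset.sum_congr rfl fun j _ => ?_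
      rw [hA]
      simp only
      rw [map_add, map_mul _ f]
      ring
    have hP1 : ∑ j, ev2 hL hp hq (A j) * z j ∈ Sv L p q .P (h.1 * Real.log p) := by
      rw [← e1]
      have h3 := (filt_v hL hp hq .P).alg_mem M
      have h4 := ch2_mem hL hp hq hpq .P h
      have h5 := (filt_v hL hp hq .P).mul_mem hfP ((filt_v hL hp hq .P).mul_mem hδP
        ((filt_v hL hp hq .P).mul_mem ((filt_v hL hp hq .P).mul_mem h3 h4) hY))
      refine BD.cast_mem hL hp hq .P h5 (le_of_eq ?_)
      simp only [lv]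
      ring
    have hP2 : ∀ j g, (A j).coeff g ≠ 0 → h.1 * Real.log p ≤ lv p q .P g + 6 * |C| * n := by
      intro j g hg
      have h2 := kpx p q hp hq hpq L hL .P J (fun j => z j) C hJ (fun u j => hz u j)
        (fun j => hzi j) A _ hP1 j g hg
      have h3 : 6 * |C| * (Fintype.card J : ℝ) ≤ 6 * |C| * n := by gcongr
      linarith
    set U0 : ℝ := (6 * |C| * n + 1 + W + 6 * |C| * n) / Real.log p with hU0
    set K'' : ℝ := |c| * U0 * Real.log q - lv p q .I gf - lv p q .I gδ + |C| + 6 * |C| * n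
      with hK''
    have hI1 : ∀ j g, (A j).coeff g ≠ 0 → lv p q .I h - K'' ≤ lv p q .I g := by
      intro j g hg
      have h1 := hP2 j g hg
      have h2 : (δ * a j).coeff g = 0 := by
        by_contra hcon
        have := hb1 j g hcon
        linarith
      have h3 : (f * ∑ k, P k * co k j).coeff g ≠ 0 := by
        intro h4
        apply hg
        rw [hA]
        simp only
        rw [AddMonoidAlgebra.coeff_add, Finsupp.add_apply, h2, h4, add_zero]
      obtain ⟨φ, ρ, hφ, hρ, rfl⟩ := BD.supp_mul _ _ _ h3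
      obtain ⟨k, -, hk⟩ := BD.supp_sum _ _ _ hρ
      obtain ⟨π, τ, hπ, hτ, rfl⟩ := BD.supp_mul _ _ _ hk
      obtain ⟨h6, h7⟩ := hP k π hπ
      have h8 := (hfB φ hφ).2
      have h9 := (hcoB k j τ hτ).2
      have h10 := hgfm φ hφ
      have h11 := hcoI k j τ hτ
      rw [lv_add, lv_add] at h1 ⊢
      have h12 : (h.1 - π.1) * Real.log p ≤ 6 * |C| * n + 1 + W + 6 * |C| * n := by
        have : lv p q .P π = π.1 * Real.log p := rfl
        rw [this] at h1
        linarith
      have h13 : h.1 - π.1 ≤ U0 := by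
        rw [hU0, le_div_iff₀ hlp]; exact h12
      have h14 : 0 ≤ h.1 - π.1 := by linarith
      have h15 : c * (h.1 - π.1) ≤ |c| * U0 :=
        (mul_le_mul_of_nonneg_right (le_abs_self c) h14).trans
          (mul_le_mul_of_nonneg_left h13 (abs_nonneg c))
      have h16 : lv p q .I h - |c| * U0 * Real.log q ≤ lv p q .I π := by
        show h.2 * Real.log q - h.1 * Real.log p - |c| * U0 * Real.log q
          ≤ π.2 * Real.log q - π.1 * Real.log p
        have h17 : h.2 - |c| * U0 ≤ π.2 := by linarith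
        have h18 := mul_le_mul_of_nonneg_right h17 hlq.le
        have h19 := mul_le_mul_of_nonneg_right h6 hlp.le
        linarith
      rw [hK'']
      linarith
    have hI2 : ∑ j, ev2 hL hp hq (A j) * z j ∈ Sv L p q .I (lv p q .I h - K'' - |C|) := by
      refine BD.sum_mem hL hp hq .I _ _ _ fun j _ => ?_
      exact (filt_v hL hp hq .I).mul_mem (BD.ev2_mem hL hp hq hpq .I (A j) _ (hI1 j)) (hCz .I j)
    have hM' : (M : GG) ≠ 0 := fun h0 => hM (Subtype.ext h0)
    have hδ' : ev2 hL hp hq δ ≠ 0 := fun h0 => hδ (hinj _ h0)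
    have hf' : ev2 hL hp hq f ≠ 0 := fun h0 => hfne (hinj _ h0)
    have e3 : Y = (∑ j, ev2 hL hp hq (A j) * z j) * (ev2 hL hp hq f)⁻¹ * (ev2 hL hp hq δ)⁻¹ *
        (((M⁻¹ : KK L hL) : GG) * ch2 hL hp hq (-h)) := by
      rw [← e1, ch2_neg]
      have h1 := ch2_ne hL hp hq h
      have h2 : ((M⁻¹ : KK L hL) : GG) = (M : GG)⁻¹ := rfl
      rw [h2]
      field_simp
    have h1 := (filt_v hL hp hq .I).mul_mem ((filt_v hL hp hq .I).mul_mem
      ((filt_v hL hp hq .I).mul_mem hI2 (hgfi (1 / 2) (by norm_num))) (hgδi (1 / 2) (by norm_num)))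
      ((filt_v hL hp hq .I).mul_mem ((filt_v hL hp hq .I).alg_mem M⁻¹)
        (ch2_mem hL hp hq hpq .I (-h)))
    rw [e3]
    refine BD.cast_mem hL hp hq .I h1 (le_of_eq ?_)
    rw [lv_neg, hK'']
    unfold Babs
    rw [← hW, ← hU0]
    ring
  · -- `Y0` is independent
    push Not at hdep
    set C' : ℝ := max |C| |CY| with hC'
    set ζ' : Option J → GG := fun o => o.elim Y0 (fun j => z j) with hζ'
    obtain ⟨gδ, hgδ⟩ := exists_coeff hL δ hδ
    refine ⟨(W + 6 * |C'| * Fintype.card (Option J) + 1) / Real.log p, ?_⟩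
    intro Y h M P hY hM hH hP hE
    exfalso
    rw [div_le_iff₀ hlp] at hH
    have hind : ∀ A : Option J → Rg hL, ∑ o, ev2 hL hp hq (A o) * ζ' o = 0 → ∀ o, A o = 0 := by
      intro A hA
      rw [Fintype.sum_option] at hA
      simp only [hζ', Option.elim] at hA
      have h1 : A none = 0 := by
        by_contra hne
        refine hdep (A none) hne (fun j => -A (some j)) ?_
        rw [eq_neg_of_add_eq_zero_left hA, ← Finset.sum_neg_distrib]
        refine Finset.sum_congr rfl fun j _ => ?_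
        rw [map_neg, neg_mul]
      rw [h1, map_zero, zero_mul, zero_add] at hA
      intro o
      cases o with
      | none => exact h1
      | some j => exact hJ (fun j => A (some j)) hA j
    have hval : ∀ u o, ζ' o ∈ Sv L p q u (-C') := by
      intro u o
      cases o with
      | none =>
        refine (filt_v hL hp hq u).anti ?_ (hY0 u)
        have := le_max_right |C| |CY|
        have := le_abs_self CY
        linarith
      | some j =>
        refine (filt_v hL hp hq u).anti ?_ (hCz u j)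
        have := le_max_left |C| |CY|
        linarith
    have hsi : ∀ o, Sint L p q (ζ' o) := by
      intro o
      cases o with
      | none => exact hY0i
      | some j => exact hzi j
    set A : Option J → Rg hL := fun o => o.elim δ (fun j => ∑ k, P k * co k j) with hA
    have e1 : ev2 hL hp hq δ * ((M : GG) * ch2 hL hp hq h * Y)
        = ∑ o, ev2 hL hp hq (A o) * ζ' o := by
      rw [hE, mul_add, hcomb P, Fintype.sum_option]
      simp only [hA, hζ', Option.elim]
    have hP1 : ∑ o, ev2 hL hp hq (A o) * ζ' o ∈ Sv L p q .P (h.1 * Real.log p) := by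
      rw [← e1]
      have h3 := (filt_v hL hp hq .P).alg_mem M
      have h4 := ch2_mem hL hp hq hpq .P h
      have h5 := (filt_v hL hp hq .P).mul_mem hδP
        ((filt_v hL hp hq .P).mul_mem ((filt_v hL hp hq .P).mul_mem h3 h4) hY)
      refine BD.cast_mem hL hp hq .P h5 (le_of_eq ?_)
      simp only [lv]
      ring
    have h2 := kpx p q hp hq hpq L hL .P (Option J) ζ' C' hind hval hsi A _ hP1 none gδ hgδ
    have h3 := (hδB gδ hgδ).2
    linarith

end

end Pool.Agent.TH932.S2.G
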