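import Mathlib
import Pool.Agent.TH932.S2.F.B4
import Pool.Agent.TH932.S2.G.Ab

set_option autoImplicit false
set_option linter.unusedSectionVars false

/-!
# The chain with the first term kept apart, and absorption for segments
-/

namespace Pool.Agent.TH932.S2.F

open Filter Topology Pool.Agent.TH932.Abs Pool.Agent.TH932.Germs Pool.Agent.TH932.Chi
open Pool.Agent.TH932.Words Pool.Agent.TH932.Scale

namespace Fam

variable {α : Type*} [Finite α] {T : Dt α} (X : Fam T)

/-- the generators, without the first term -/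
noncomputable def z2 : Option (Fin (X.R + 1)) → GG
  | none => X.gd
  | some s => X.gd * X.rh s

/-- **The macro step.** -/
lemma macro_step2 (e : ℕ) : ∃ (κ : X.K) (γ : ℝ × ℝ)
    (Λ : Option (Fin (X.R + 1)) → Rg X.tL), κ ≠ 0 ∧ X.cmin ≤ γ.1 ∧ Cone T.cM γ 0 ∧
    (∀ j, Sup T.cM γ (Λ j)) ∧
    (κ : GG) * X.χ γ * X.gY (X.pos (e + 1))
      = X.gY (X.pos e) + ∑ j, X.ev (Λ j) * X.z2 j := by
  classical
  obtain ⟨A, hA, hst⟩ := X.mstep e
  set a := X.pos e with ha
  set a' := X.pos (e + 1) with ha'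
  set m : ℕ → ℕ := fun n => X.Mn n (a n) with hm
  have hlm : ∀ᶠ n in (UU : Filter ℕ), X.lm n (m n) := hst.mono fun n h => h.2.1
  have ham : ∀ᶠ n in (UU : Filter ℕ), a n ≤ m n := hst.mono fun n h => h.2.2.1
  have hsh : ∀ᶠ n in (UU : Filter ℕ), ∀ m', a n ≤ m' → m' < m n → ¬ X.lm n m' :=
    hst.mono fun n h => h.2.2.2.1
  have hma : ∀ᶠ n in (UU : Filter ℕ), m n ≤ a' n := hst.mono fun n h => h.2.2.2.2.1
  have haA : ∀ᶠ n in (UU : Filter ℕ), (a' n : ℝ) ≤ A * X.L n := hst.mono fun n h => h.2.2.2.2.2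
  have hnx : ∀ n, a' n = X.nx n (m n) := fun n => rfl
  have hmA : ∀ᶠ n in (UU : Filter ℕ), (m n : ℝ) ≤ A * X.L n := by
    filter_upwards [hma, haA] with n h1 h2
    exact (by exact_mod_cast h1 : (m n : ℝ) ≤ a' n).trans h2
  have haa : ∀ᶠ n in (UU : Filter ℕ), a n ≤ a' n := by
    filter_upwards [ham, hma] with n h1 h2 using h1.trans h2
  -- the type
  obtain ⟨s, hs⟩ : ∃ s, ∀ᶠ n in (UU : Filter ℕ), X.ty n (m n) = s := by
    have h1 : (⋃ s ∈ (Set.univ : Set (Fin (X.R + 1))), {n | X.ty n (m n) = s}) ∈ UU := by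
      have : (⋃ s ∈ (Set.univ : Set (Fin (X.R + 1))), {n | X.ty n (m n) = s}) = Set.univ := by
        ext n; simp
      rw [this]; exact Filter.univ_mem
    obtain ⟨s, _, hs⟩ := (Ultrafilter.finite_biUnion_mem_iff Set.finite_univ).1 h1
    exact ⟨s, hs⟩
  have hcs : 0 < X.c s := by
    obtain ⟨n, h1, h2⟩ := (hlm.and hs).exists
    rw [← h2]; exact h1.2
  -- shadows
  obtain ⟨b, hab, hbm, hbn, f, f', hf⟩ := X.shadow_part (a := a) (m := m) (X.pos_smk e) ham hmA hsh
  have hbA : ∀ᶠ n in (UU : Filter ℕ), (b n : ℝ) ≤ A * X.L n := by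
    filter_upwards [hbm, hmA] with n h1 h2
    exact (by exact_mod_cast h1 : (b n : ℝ) ≤ m n).trans h2
  have hba : ∀ᶠ n in (UU : Filter ℕ), b n ≤ a' n := by
    filter_upwards [hbm, hma] with n h1 h2 using h1.trans h2
  -- lengths
  obtain ⟨t, ht0, _, ht⟩ := exists_st (L := X.L) X.tL (a := fun n => (a' n : ℝ) - a n) (A := A) (by
    filter_upwards [haa, haA] with n h1 h2
    have h3 : (a n : ℝ) ≤ a' n := by exact_mod_cast h1
    have h4 : (0 : ℝ) ≤ a n := by positivity
    constructor <;> linarith)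
  obtain ⟨t1, ht10, _, ht1⟩ := exists_st (L := X.L) X.tL (a := fun n => (b n : ℝ) - a n) (A := A)
    (by
      filter_upwards [hab, hbA] with n h1 h2
      have h3 : (a n : ℝ) ≤ b n := by exact_mod_cast h1
      have h4 : (0 : ℝ) ≤ a n := by positivity
      constructor <;> linarith)
  have ht2 : near X.L (fun n => (a' n : ℝ) - b n) (t - t1) :=
    (ht.sub ht1).congr (Eventually.of_forall fun n => by ring)
  have ht12 : 0 ≤ t - t1 := by
    refine near_le X.tL (near_const X.tL 0) ht2 ?_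
    filter_upwards [hba] with n h1
    have : (b n : ℝ) ≤ a' n := by exact_mod_cast h1
    linarith
  -- exponents
  obtain ⟨o, ho0, ho⟩ := X.near_seg haa haA ht
  obtain ⟨o1, ho10, ho1⟩ := X.near_seg hab hbA ht1
  obtain ⟨o2, ho20, ho2⟩ := X.near_seg hba haA ht2
  have ho12 : o = o1 + o2 := by
    refine near_unique X.tL ho ((ho1.add ho2).congr ?_)
    filter_upwards [hab, hba] with n h1 h2
    have m1 := (X.Z n).oo_mono h1
    have m2 := (X.Z n).oo_mono h2
    rw [← Nat.cast_add]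
    congr 1
    omega
  obtain ⟨o3, _, ho3⟩ := X.near_seg hbm hmA hbn
  have hct : X.c s ≤ t := by
    refine near_le X.tL (X.c_near s) ht ?_
    filter_upwards [hlm, hs, ham] with n h1 h2 h3
    have h4 := (X.type_spec h1.1).1
    rw [h2, ← hnx] at h4
    have h5 : (a' n : ℝ) = m n + X.len n s := by exact_mod_cast h4
    have h6 : (a n : ℝ) ≤ m n := by exact_mod_cast h3
    linarith
  have ho3' : o3 = 0 := by
    have h1 : o3 ≤ 0 := by
      have := near_le X.tL ho3 (hbn.const_mul X.tL T.cM) (by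
        filter_upwards [hbm] with n h1 using X.oo_le h1)
      simpa using this
    have h2 : 0 ≤ o3 := near_le X.tL (near_const X.tL 0) ho3
      (Eventually.of_forall fun n => by positivity)
    exact le_antisymm h1 h2
  rw [ho3'] at ho3
  obtain ⟨κ, hκ0, hκ⟩ := X.NA_const haa ht ho
  obtain ⟨κ1, _, hκ1⟩ := X.NA_const hab ht1 ho1
  obtain ⟨κ2, _, hκ2⟩ := X.NA_const hbm hbn ho3
  have hz : X.χ ((0 : ℝ), (0 : ℝ)) = 1 := ch2_zero _ _ _
  rw [hz, mul_one] at hκ2
  have hk2 := X.QA_const hbm hbn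
  have hρ : X.QA m a' = X.rh s := by
    unfold QA rh
    rw [gm_eq]
    filter_upwards [hlm, hs] with n h1 h2
    obtain ⟨_, h4, h5⟩ := X.type_spec h1.1
    rw [h2, ← hnx] at h4 h5
    rw [h4, h5]
  have hQ : X.QA a a' = X.NA a b * f' - f + X.NA a b * (X.QA b m + X.NA b m * X.rh s) := by
    rw [X.comp hab hba, X.comp hbm hma, hf, hρ]
  have hc1 : Cone T.cM (t, o) (t1, o1) := by
    refine ⟨by simp only; linarith, ?_⟩
    simp only
    rw [ho12]; linarith
  have hc0 : Cone T.cM (t, o) 0 := by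
    refine ⟨ht0, ?_⟩
    simp only [Prod.fst_zero, Prod.snd_zero, sub_zero]
    exact ho0
  refine ⟨κ, (t, o), fun j => match j with
    | none => AddMonoidAlgebra.single (t1, o1) (κ1 * (f' + ⟨_, hk2⟩))
        + AddMonoidAlgebra.single 0 (-f)
    | some s' => if s' = s then AddMonoidAlgebra.single (t1, o1) (κ1 * κ2) else 0,
    hκ0, (X.cmin_le s hcs).trans hct, hc0, ?_, ?_⟩
  · intro j
    match j with
    | none => exact (Sup.single _ hc1).add (Sup.single _ hc0)
    | some s' =>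
      simp only
      split_ifs
      · exact Sup.single _ hc1
      · exact Sup.zero
  · rw [Fintype.sum_option]
    simp only [z2, map_add]
    have h1 : ∀ s' : Fin (X.R + 1), X.ev (if s' = s then AddMonoidAlgebra.single (t1, o1) (κ1 * κ2)
        else 0) * (X.gd * X.rh s') = if s' = s then
          X.ev (AddMonoidAlgebra.single (t1, o1) (κ1 * κ2)) * (X.gd * X.rh s) else 0 := by
      intro s'
      split_ifs with h
      · rw [h]
      · rw [map_zero, zero_mul]
    simp only [h1]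
    rw [Finset.sum_ite_eq' Finset.univ s]
    simp only [Finset.mem_univ, if_true]
    rw [ev2_single, ev2_single, ev2_single, ch2_zero]
    have h2 := X.rel haa (X.le_H haA)
    rw [hκ, hQ, hκ1, hκ2] at h2
    push_cast
    unfold χ at h2 ⊢
    linear_combination h2

/-- the chain, with the first term -/
lemma chain2 (e : ℕ) : ∃ (M : X.K) (h : ℝ × ℝ) (P : Option (Fin (X.R + 1)) → Rg X.tL),
    M ≠ 0 ∧ e * X.cmin ≤ h.1 ∧ (∀ j, Sup T.cM h (P j)) ∧
    (M : GG) * X.χ h * X.gY (X.pos e) = X.gY (X.pos 0) + ∑ j, X.ev (P j) * X.z2 j := by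
  classical
  induction e with
  | zero =>
    refine ⟨1, 0, fun j => 0, one_ne_zero, ?_, fun j => Sup.zero, ?_⟩
    · simp
    · have hz : X.χ 0 = 1 := ch2_zero _ _ _
      rw [hz]
      simp
  | succ e ih =>
    obtain ⟨M, h, P, hM, he, hP, hr⟩ := ih
    obtain ⟨κ, γ, Λ, hκ, hγ, hγ0, hΛ, hr'⟩ := X.macro_step2 e
    have hc1 : Cone T.cM (h + γ) h := by
      have := hγ0.add h
      rwa [add_zero] at this
    refine ⟨M * κ, h + γ, fun j => P j + AddMonoidAlgebra.single h M * Λ j, mul_ne_zero hM hκ,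
      ?_, ?_, ?_⟩
    · push_cast
      simp only [Prod.fst_add]
      linarith
    · intro j
      exact ((hP j).mono hc1).add ((hΛ j).single_mul h M)
    · simp only [map_add, map_mul, add_mul, Finset.sum_add_distrib, mul_assoc]
      rw [← Finset.mul_sum, ev2_single]
      have e1 : X.χ (h + γ) = X.χ h * X.χ γ := ch2_add _ _ _ _ _
      rw [e1]
      push_cast
      have e2 : ch2 X.tL T.hp T.hq h = X.χ h := rfl
      rw [e2]
      linear_combination hr + (M : GG) * X.χ h * hr'

/-- the generators are bounded by the complexity and the multiplier only -/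
lemma z2_mem {D : ℝ} (hD : 0 ≤ D) (hd : ∀ n, |((X.Z n).d : ℝ)| ≤ Real.exp (D * X.l n)) (v : Pl)
    (j : Option (Fin (X.R + 1))) : X.z2 j ∈ Sv X.L T.p T.q v (-(X.B1 + D)) := by
  have hF := filt_v X.tL T.hp T.hq v
  have hB1 := X.B1_pos
  have hgi : X.gd ∈ SS X.L Rinf (-D) := by
    unfold gd
    rw [mem_SS]
    intro ε hε
    filter_upwards [L_nonneg X.tL] with n h1
    have h6 : 0 ≤ ε * X.L n := by positivity
    unfold Rinf
    push_cast
    refine (hd n).trans (Real.exp_le_exp.2 ?_)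
    have : (X.l n : ℝ) = X.L n := rfl
    rw [this]
    linarith
  have hgd : X.gd ∈ Sv X.L T.p T.q v (-D) := by
    cases v
    · exact hF.anti (by linarith) (X.int_b _ _ _)
    · exact hF.anti (by linarith) (X.int_b _ _ _)
    · exact hgi
  match j with
  | none =>
    change X.gd ∈ _
    exact hF.anti (by linarith) hgd
  | some s =>
    change X.gd * X.rh s ∈ _
    have hr : X.rh s ∈ Sv X.L T.p T.q v (-X.B1) := by
      cases v
      · exact hF.anti (by linarith) (X.rh_p s)
      · exact X.rh_q _ s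
      · exact X.rh_i s
    exact hF.anti (by linarith) (hF.mul_mem hgd hr)

lemma z2_sint (j : Option (Fin (X.R + 1))) : Sint X.L T.p T.q (X.z2 j) := by
  match j with
  | none => exact X.int_sint _
  | some s => exact Sint.mul X.tL T.hp T.hq (X.int_sint _) (X.rh_sint s)

/-- **Absorption for segments**: a term of the chain is bounded independently of the start. -/
theorem absorbed {D : ℝ} (hD : 0 ≤ D) (hd : ∀ n, |((X.Z n).d : ℝ)| ≤ Real.exp (D * X.l n)) :
    ∃ e, X.gY (X.pos e) ∈ SS X.L Rinf (-G.Babs T.p T.q (X.B1 + D) (X.R + 2) T.cM) := by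
  have hB := X.B_pos
  obtain ⟨H, hH⟩ := G.absorb T.hp T.hq T.hpq X.tL (Option (Fin (X.R + 1))) X.z2 (X.B1 + D) T.cM
    (fun v j => X.z2_mem hD hd v j) X.z2_sint (X.gY (X.pos 0)) X.B
    (fun u => X.zf_mem u (some none)) (X.int_sint _)
  obtain ⟨e, he⟩ := exists_nat_gt (H / X.cmin)
  rw [div_lt_iff₀ X.cmin_pos] at he
  refine ⟨e, ?_⟩
  obtain ⟨M, h, P, hM, hh, hP, hr⟩ := X.chain2 e
  have h1 := hH (X.gY (X.pos e)) h M P (X.int_b _ _ _) hM (by linarith)
    (fun j g hg => hP j g hg) hr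
  have h2 : Fintype.card (Option (Fin (X.R + 1))) = X.R + 2 := by simp
  rw [h2] at h1
  exact h1

end Fam

end Pool.Agent.TH932.S2.F
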