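import Mathlib
import Pool.Agent.TH932.S2.F.Win
import Pool.Agent.TH932.S2.App3
import Pool.Agent.TH932.S2.G.Ch

set_option autoImplicit false

/-!
# Windows at a single scale
-/

namespace Pool.Agent.TH932.S2.G

open Filter Topology Pool.Agent.TH932.Abs Pool.Agent.TH932.Germs Pool.Agent.TH932.Chi
open Pool.Agent.TH932.Words Pool.Agent.TH932.Scale Pool.Agent.TH932.S2.F

variable {α : Type*}

/-- **Absorption for windows at one scale.** A segment of distinct terms whose word has at most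
`C N` factors of length `N` returns below `exp (B N)`, where `B` does not depend on the first
term. -/
theorem window [Finite α] (T : Dt α) (C D : ℝ) : ∃ B : ℝ, 0 < B ∧ ∀ B0 : ℝ, ∃ K : ℕ, 1 ≤ K ∧
    ∀ N : ℕ, K ≤ N → ∀ (w : ℕ → α) (y : ℕ → ℤ) (d : ℤ), IsCoprime d (T.p : ℤ) →
    |(d : ℝ)| ≤ Real.exp (D * N) →
    (∀ k < K * N, (T.p : ℤ) * y (k + 1) = (T.q : ℤ) ^ T.δ (w k) * y k + d * T.β (w k)) →
    |(y 0 : ℝ)| ≤ Real.exp (B0 * N) → (wc w (K * N) N : ℝ) ≤ C * N →
    (∀ i j, i < j → j ≤ K * N → y i ≠ y j) →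
    ∃ k, 1 ≤ k ∧ k ≤ K * N ∧ |(y k : ℝ)| ≤ Real.exp (B * N) := by
  set C1 : ℝ := |C| + 4 with hC1
  have hC1p : 0 ≤ C1 := by positivity
  set B1 : ℝ := (2 * C1 + 1) * Real.log (2 * T.M) + 2 * |D| with hB1
  set B : ℝ := |Babs T.p T.q B1 (⌈6 * C1⌉₊ + 2) T.cM| + 1 with hB
  refine ⟨B, by positivity, fun B0 => ?_⟩
  suffices h : ∃ K : ℕ, ∀ N : ℕ, K + 2 ≤ N → ∀ (w : ℕ → α) (y : ℕ → ℤ) (d : ℤ),
      IsCoprime d (T.p : ℤ) → |(d : ℝ)| ≤ Real.exp (D * N) →
      (∀ k < (K + 2) * N, (T.p : ℤ) * y (k + 1) = (T.q : ℤ) ^ T.δ (w k) * y k + d * T.β (w k)) →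
      |(y 0 : ℝ)| ≤ Real.exp (B0 * N) → (wc w ((K + 2) * N) N : ℝ) ≤ C * N →
      (∀ i j, i < j → j ≤ (K + 2) * N → y i ≠ y j) →
      ∃ k, 1 ≤ k ∧ k ≤ (K + 2) * N ∧ |(y k : ℝ)| ≤ Real.exp (B * N) by
    obtain ⟨K, hK⟩ := h
    exact ⟨K + 2, by omega, hK⟩
  by_contra hcon
  push Not at hcon
  choose N hN w y d hd hdd hrec hy hcx hne hbig using hcon
  have hsc : ∀ n, ∃ l, N n ≤ 2 * l ∧ l ≤ N n ∧
      (cx (ext (w n) ((n + 2) * N n)) l : ℝ) ≤ 2 * C1 * l ∧
      (cx (ext (w n) ((n + 2) * N n)) (l + 1) : ℝ) ≤ 3 * C1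
        + cx (ext (w n) ((n + 2) * N n)) l := by
    intro n
    apply exists_scale2 _ hC1p (by have := hN n; omega)
    have h3 := cx_ext (w n) ((n + 2) * N n) (N n)
    have h4 := hcx n
    have h5 : (cx (ext (w n) ((n + 2) * N n)) (N n) : ℝ)
        ≤ wc (w n) ((n + 2) * N n) (N n) + (3 * N n + 1) := by
      exact_mod_cast h3
    have h6 : (1 : ℝ) ≤ N n := by
      have := hN n
      exact_mod_cast (by omega : 1 ≤ N n)
    have h7 : C * N n ≤ |C| * N n := by
      have := le_abs_self C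
      gcongr
    rw [hC1]
    linarith
  choose l hl1 hl2 hl3 hl4 using hsc
  have hlt : Tendsto l atTop atTop := by
    refine tendsto_atTop_mono (f := fun n => n / 2) (fun n => ?_) ?_
    · have := hl1 n
      have := hN n
      omega
    · exact Nat.tendsto_div_const_atTop (by norm_num)
  let X : Fam T.ex :=
    { Z := fun n => mkFS T (w := w n) (y := y n) (d := d n) (H := (n + 2) * N n) (hd n)
        (hrec n) (fun i j h1 h2 => hne n i j h1 h2)
      l := l
      R := ⌈6 * C1⌉₊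
      C := 2 * C1
      B0 := 2 * (|B0| + |D| + 1)
      hl := hlt
      hl1 := fun n => by have := hl1 n; have := hN n; omega
      hcx := hl3
      hR := fun n => by
        have h1 := hl4 n
        have h2 : 6 * C1 ≤ (⌈6 * C1⌉₊ : ℝ) := Nat.le_ceil _
        have h3 : ((2 * cx (ext (w n) ((n + 2) * N n)) (l n + 1) : ℕ) : ℝ)
            ≤ ((⌈6 * C1⌉₊ + 2 * cx (ext (w n) ((n + 2) * N n)) (l n) : ℕ) : ℝ) := by
          push_cast
          linarith
        exact_mod_cast h3
      hB0 := by positivity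
      hy := fun n => by
        have h1 := hy n
        have h3 : (N n : ℝ) ≤ 2 * l n := by exact_mod_cast hl1 n
        have h4 : (2 : ℝ) ≤ N n := by
          have := hN n
          exact_mod_cast (by omega : 2 ≤ N n)
        have h5 : Real.exp (B0 * N n) ≤ Real.exp ((|B0| + |D|) * N n) := by
          apply Real.exp_le_exp.2
          have := le_abs_self B0
          have := abs_nonneg D
          gcongr
          linarith
        have h5' : Real.exp (D * N n) ≤ Real.exp ((|B0| + |D|) * N n) := by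
          apply Real.exp_le_exp.2
          have := le_abs_self D
          have := abs_nonneg B0
          gcongr
          linarith
        have h6 : (2 : ℝ) ≤ Real.exp (N n) := by
          have := Real.add_one_le_exp ((N n : ℕ) : ℝ)
          linarith
        have h8 := hdd n
        calc |((y n 0 : ℤ) : ℝ)| + |((d n : ℤ) : ℝ)| ≤ 2 * Real.exp ((|B0| + |D|) * N n) := by
              linarith
          _ ≤ Real.exp (N n) * Real.exp ((|B0| + |D|) * N n) := by gcongr
          _ = Real.exp ((|B0| + |D| + 1) * N n) := by rw [← Real.exp_add]; ring_nf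
          _ ≤ Real.exp (2 * (|B0| + |D| + 1) * l n) := by
              apply Real.exp_le_exp.2
              have : 0 ≤ |B0| + |D| := by positivity
              nlinarith
      hH := fun A => by
        obtain ⟨n0, hn0⟩ := exists_nat_ge A
        filter_upwards [ev_of_atTop (eventually_ge_atTop n0)] with n hn
        have h1 : A ≤ n := hn0.trans (by exact_mod_cast hn)
        have h2 : (l n : ℝ) ≤ N n := by exact_mod_cast hl2 n
        change A * (l n : ℝ) ≤ (((n + 2) * N n : ℕ) : ℝ)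
        push_cast
        have h3 : (0 : ℝ) ≤ l n := by positivity
        have h4 : (0 : ℝ) ≤ n := by positivity
        calc A * (l n : ℝ) ≤ n * l n := by gcongr
          _ ≤ (n + 2) * N n := by gcongr; linarith }
  obtain ⟨e, he⟩ := X.absorbed (D := 2 * |D|) (by positivity) (fun n => by
    have h1 := hdd n
    have h3 : (N n : ℝ) ≤ 2 * l n := by exact_mod_cast hl1 n
    change |((d n : ℤ) : ℝ)| ≤ Real.exp (2 * |D| * l n)
    refine h1.trans (Real.exp_le_exp.2 ?_)
    have h4 : D * N n ≤ |D| * N n := by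
      have := le_abs_self D
      gcongr
    have h5 := abs_nonneg D
    nlinarith)
  obtain ⟨A, hA, hst⟩ := X.mstep e
  unfold Fam.gY at he
  rw [mem_SS] at he
  obtain ⟨n, h1, h2, h3⟩ := ((he 1 one_pos).and (hst.and (X.hH A))).exists
  have hpos : 0 < X.pos e n := by
    cases e with
    | zero => exact (X.nx_spec n 0).1
    | succ e => exact lt_of_le_of_lt (Nat.zero_le _) (X.nx_spec n _).1
  have hle : X.pos e n ≤ (n + 2) * N n := by
    have : (X.pos e n : ℝ) ≤ (((n + 2) * N n : ℕ) : ℝ) := h2.1.trans h3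
    exact_mod_cast this
  have h4 := hbig n (X.pos e n) hpos hle
  unfold Rinf at h1
  push_cast at h1
  have h5 : |((y n (X.pos e n) : ℤ) : ℝ)| ≤
      Real.exp (-(-Babs T.p T.q B1 (⌈6 * C1⌉₊ + 2) T.cM - 1) * X.L n) := h1
  have h6 : Real.exp (-(-Babs T.p T.q B1 (⌈6 * C1⌉₊ + 2) T.cM - 1) * X.L n)
      ≤ Real.exp (B * N n) := by
    apply Real.exp_le_exp.2
    have h7 : X.L n ≤ N n := by
      have : (l n : ℝ) ≤ N n := by exact_mod_cast hl2 n
      exact this
    have h8 : 0 ≤ X.L n := by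
      have : X.L n = l n := rfl
      rw [this]; positivity
    have h9 := le_abs_self (Babs T.p T.q B1 (⌈6 * C1⌉₊ + 2) T.cM)
    have h10 : 0 ≤ B := by positivity
    calc -(-Babs T.p T.q B1 (⌈6 * C1⌉₊ + 2) T.cM - 1) * X.L n
        = (Babs T.p T.q B1 (⌈6 * C1⌉₊ + 2) T.cM + 1) * X.L n := by ring
      _ ≤ B * X.L n := by
          rw [hB]; gcongr
      _ ≤ B * N n := by gcongr
  linarith

/-- **Complexity is superlinear along every infinite orbit**, with the factors already occurring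
in short windows after the last visits to small numbers. -/
theorem windows_after [Finite α] (T : Dt α) (C : ℝ) : ∃ (B : ℝ) (K : ℕ), 0 < B ∧
    ∀ N : ℕ, K ≤ N → ∀ (w : ℕ → α) (y : ℕ → ℤ),
    (∀ k < K * N, (T.p : ℤ) * y (k + 1) = (T.q : ℤ) ^ T.δ (w k) * y k + T.β (w k)) →
    |(y 0 : ℝ)| ≤ Real.exp (B * N) → (∀ k, 1 ≤ k → k ≤ K * N → Real.exp (B * N) < |(y k : ℝ)|) →
    (∀ i j, i < j → j ≤ K * N → y i ≠ y j) → C * N < wc w (K * N) N := by
  obtain ⟨B, hB, h⟩ := window T C 0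
  obtain ⟨K, hK1, hK⟩ := h B
  refine ⟨B, K, hB, fun N hN w y hrec h0 h1 hinj => ?_⟩
  by_contra hcon
  push Not at hcon
  obtain ⟨k, hk1, hk2, hk3⟩ := hK N hN w y 1 isCoprime_one_left (by simp)
    (fun k hk => by rw [one_mul]; exact hrec k hk) h0 hcon hinj
  have := h1 k hk1 hk2
  linarith

/-- last visits -/
lemma exists_last {y : ℕ → ℤ} (hinj : Function.Injective y) (X : ℝ) (h0 : |(y 0 : ℝ)| ≤ X) :
    ∃ t, |(y t : ℝ)| ≤ X ∧ ∀ k, 1 ≤ k → X < |(y (t + k) : ℝ)| := by
  classical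
  have hfin : {k : ℕ | |(y k : ℝ)| ≤ X}.Finite := by
    have h1 : {k : ℕ | |(y k : ℝ)| ≤ X} ⊆ y ⁻¹' (Set.Icc (-⌈X⌉) ⌈X⌉) := by
      intro k hk
      have h2 := abs_le.1 (show |(y k : ℝ)| ≤ X from hk)
      have h3 := Int.le_ceil X
      constructor
      · have : (-⌈X⌉ : ℝ) ≤ y k := by linarith [h2.1]
        exact_mod_cast this
      · have : (y k : ℝ) ≤ ⌈X⌉ := by linarith [h2.2]
        exact_mod_cast this
    exact ((Set.finite_Icc _ _).preimage hinj.injOn).subset h1
  obtain ⟨t, ht, hmax⟩ := Set.exists_max_image _ id hfin ⟨0, h0⟩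
  refine ⟨t, ht, fun k hk => ?_⟩
  by_contra hcon
  push Not at hcon
  have : t + k ≤ t := hmax (t + k) hcon
  omega

/-- the maps of an affine recurrence -/
lemma dt_of [Finite α] {p q : ℕ} (hp : 2 ≤ p) (hq : 2 ≤ q)
    (hpq : IsCoprime (q : ℤ) (p : ℤ)) (δ : α → ℕ) (β : α → ℤ) :
    ∃ T : Dt α, T.p = p ∧ T.q = q ∧ T.δ = δ ∧ T.β = β := by
  classical
  have := Fintype.ofFinite α
  set M : ℕ := p + ∑ a : α, (q ^ δ a + (β a).natAbs) with hM
  have h1 : ∀ a, q ^ δ a + (β a).natAbs ≤ M := by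
    intro a
    have := Finset.single_le_sum (f := fun a => q ^ δ a + (β a).natAbs)
      (fun i _ => Nat.zero_le _) (Finset.mem_univ a)
    omega
  exact ⟨
    { p := p, q := q, M := M, δ := δ, β := β, hp := hp, hq := hq, hpq := hpq
      hpM := by omega
      hqM := fun a => by have := h1 a; omega
      hβM := fun a => by
        have h2 := h1 a
        have h3 : |β a| = ((β a).natAbs : ℤ) := Int.abs_eq_natAbs _
        rw [h3]
        exact_mod_cast (by omega : (β a).natAbs ≤ M) }, rfl, rfl, rfl, rfl⟩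

/-- **Local form**: for every `C` there are `B` and `K` such that, for every injective orbit and
all large `N`, the window of length `K N` after the last visit below `exp (B N)` has more than
`C N` different factors of length `N`. -/
theorem local_of [Finite α] {p q : ℕ} (hp : 2 ≤ p) (hq : 2 ≤ q)
    (hpq : IsCoprime (q : ℤ) (p : ℤ)) (δ : α → ℕ) (β : α → ℤ) (C : ℝ) :
    ∃ (B : ℝ) (K : ℕ), 0 < B ∧ ∀ (w : ℕ → α) (y : ℕ → ℤ),
      (∀ k, (p : ℤ) * y (k + 1) = (q : ℤ) ^ δ (w k) * y k + β (w k)) → Function.Injective y →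
      ∀ N : ℕ, K ≤ N → ∀ t : ℕ, |(y t : ℝ)| ≤ Real.exp (B * N) →
        (∀ k, 1 ≤ k → k ≤ K * N → Real.exp (B * N) < |(y (t + k) : ℝ)|) →
        C * N < wc (fun k => w (t + k)) (K * N) N := by
  obtain ⟨T, rfl, rfl, rfl, rfl⟩ := dt_of hp hq hpq δ β
  obtain ⟨B, K, hB, h⟩ := windows_after T C
  refine ⟨B, K, hB, fun w y hrec hinj N hN t ht hk => ?_⟩
  exact h N hN (fun k => w (t + k)) (fun k => y (t + k))
    (fun k _ => by rw [← add_assoc]; exact hrec _) (by simpa using ht) hk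
    (fun i j hij _ h => by have := hinj h; omega)

/-- **The complexity is superlinear along every infinite orbit.** -/
theorem superlinear_all [Finite α] {p q : ℕ} (hp : 2 ≤ p) (hq : 2 ≤ q)
    (hpq : IsCoprime (q : ℤ) (p : ℤ)) (δ : α → ℕ) (β : α → ℤ) (w : ℕ → α) (y : ℕ → ℤ)
    (hrec : ∀ k, (p : ℤ) * y (k + 1) = (q : ℤ) ^ δ (w k) * y k + β (w k))
    (hinj : Function.Injective y) :
    Tendsto (fun n : ℕ => (cx w n : ℝ) / n) atTop atTop := by
  rw [tendsto_atTop]
  intro C
  obtain ⟨B, K, hB, h⟩ := local_of hp hq hpq δ β C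
  have h0 : ∀ᶠ N : ℕ in atTop, |(y 0 : ℝ)| ≤ Real.exp (B * N) := by
    have h1 : Tendsto (fun N : ℕ => Real.exp (B * N)) atTop atTop :=
      Real.tendsto_exp_atTop.comp (tendsto_natCast_atTop_atTop.const_mul_atTop hB)
    exact h1.eventually_ge_atTop _
  filter_upwards [h0, eventually_ge_atTop K, eventually_gt_atTop 0] with N hN hNK hN0
  obtain ⟨t, ht1, ht2⟩ := exists_last hinj _ hN
  have h2 := h w y hrec hinj N hNK t ht1 (fun k hk _ => ht2 k hk)
  have h3 : (wc (fun k => w (t + k)) (K * N) N : ℝ) ≤ cx w N := by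
    exact_mod_cast (wc_le_cx _ _ _).trans (Pool.Agent.TH932.App.cx_tail w t N)
  have hN' : (0 : ℝ) < N := by exact_mod_cast hN0
  rw [le_div_iff₀ hN']
  linarith

end Pool.Agent.TH932.S2.G
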