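import Mathlib
import Pool.Agent.TH932.S2.G.Win
import Pool.Agent.TH932.S2.F.Fin

set_option autoImplicit false

/-!
# Low complexity at a single scale
-/

namespace Pool.Agent.TH932.S2.G

open Filter Topology Pool.Agent.TH932.Words Pool.Agent.TH932.S2.F

variable {α : Type*}

lemma wc_sub [Finite α] (w : ℕ → α) {t H' H : ℕ} (h : t + H' ≤ H) (m : ℕ) :
    wc (fun k => w (t + k)) H' m ≤ wc w H m := by
  unfold wc
  apply Set.ncard_le_ncard _ (Set.toFinite _)
  rintro _ ⟨i, hi, rfl⟩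
  refine ⟨t + i, ?_, ?_⟩
  · simp only [Set.mem_ofPred_eq] at hi ⊢
    omega
  · funext k
    simp only [fac]
    rw [add_assoc]

/-- few factors of length `N` give few factors of length `c N` -/
lemma pigeon [Finite α] (w : ℕ → α) {H N c : ℕ} (hN : 1 ≤ N)
    (h : (wc w H N) ^ c < H + 1 - c * N) :
    ∃ i j, i < j ∧ j + c * N ≤ H ∧ Eqv w (c * N) i j := by
  classical
  set S : Set (Fin N → α) := (fun i => fac w N i) '' {i | i + N ≤ H} with hS
  set S' : Finset (Fin N → α) := (Set.toFinite S).toFinset with hS'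
  have hc : S'.card = wc w H N := by
    unfold wc
    rw [Set.ncard_eq_toFinset_card S (Set.toFinite S)]
  have hcard : (Fintype.piFinset fun _ : Fin c => S').card
      < (Finset.range (H + 1 - c * N)).card := by
    rw [Fintype.card_piFinset, Finset.prod_const, Finset.card_univ, Fintype.card_fin, hc,
      Finset.card_range]
    exact h
  have hmaps : ∀ i ∈ Finset.range (H + 1 - c * N),
      (fun i => fun s : Fin c => fac w N (i + s * N)) i ∈ Fintype.piFinset fun _ : Fin c => S' := by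
    intro i hi
    rw [Finset.mem_range] at hi
    rw [Fintype.mem_piFinset]
    intro s
    rw [hS', Set.Finite.mem_toFinset]
    refine ⟨i + s * N, ?_, rfl⟩
    have h1 : (s : ℕ) + 1 ≤ c := s.2
    have h2 : ((s : ℕ) + 1) * N ≤ c * N := Nat.mul_le_mul_right N h1
    simp only [Set.mem_ofPred_eq]
    rw [add_mul, one_mul] at h2
    omega
  obtain ⟨i, hi, j, hj, hij, he⟩ := Finset.exists_ne_map_eq_of_card_lt_of_maps_to hcard hmaps
  have key : ∀ i j, (fun s : Fin c => fac w N (i + s * N)) = (fun s : Fin c => fac w N (j + s * N)) →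
      Eqv w (c * N) i j := by
    intro i j he k hk
    have h1 : k / N < c := Nat.div_lt_of_lt_mul (by rwa [mul_comm] at hk)
    have h2 : k % N < N := Nat.mod_lt _ hN
    have h3 := congrFun (congrFun he ⟨k / N, h1⟩) ⟨k % N, h2⟩
    simp only [fac] at h3
    have h4 : k / N * N + k % N = k := Nat.div_add_mod' k N
    rw [add_assoc, add_assoc, h4] at h3
    exact h3
  rw [Finset.mem_range] at hi hj
  rcases lt_or_gt_of_ne hij with h1 | h1
  · exact ⟨i, j, h1, by omega, key _ _ he⟩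
  · exact ⟨j, i, h1, by omega, key _ _ he.symm⟩

/-- **One scale.** If the word of a sequence has at most `A N` factors of length `N`, then the
sequence has a repetition within a polynomial number of steps, and is bounded until then. -/
theorem single [Finite α] (T : Dt α) (A D B0 : ℝ) : ∃ K : ℕ, 1 ≤ K ∧ ∀ N : ℕ, K ≤ N →
    ∀ (w : ℕ → α) (y : ℕ → ℤ) (d : ℤ), IsCoprime d (T.p : ℤ) → |(d : ℝ)| ≤ Real.exp (D * N) →
    (∀ k < N ^ K, (T.p : ℤ) * y (k + 1) = (T.q : ℤ) ^ T.δ (w k) * y k + d * T.β (w k)) →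
    |(y 0 : ℝ)| ≤ Real.exp (B0 * N) → (wc w (N ^ K) N : ℝ) ≤ A * N →
    ∃ i j, i < j ∧ j ≤ N ^ K ∧ y i = y j ∧ ∀ k ≤ j, |(y k : ℝ)| ≤ Real.exp (K * N) := by
  classical
  have hlM := T.log2M
  have hlp := T.logp
  have hMr : (1 : ℝ) ≤ T.M := by exact_mod_cast T.hM1
  obtain ⟨B, hB, hwin⟩ := window T A D
  set B' : ℝ := max |B0| B with hB'
  have hB'1 : |B0| ≤ B' := le_max_left _ _
  have hB'2 : B ≤ B' := le_max_right _ _
  have hB'0 : 0 < B' := by linarith
  obtain ⟨K', hK'1, hK'⟩ := hwin B'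
  set lM := Real.log (2 * T.M) with hlMd
  set B2 : ℝ := B' + |D| + 1 + lM * K' with hB2
  have hB20 : 0 ≤ B2 := by positivity
  -- boundedness
  have bdd : ∀ (N : ℕ), K' ≤ N → ∀ (w : ℕ → α) (y : ℕ → ℤ) (d : ℤ) (H : ℕ),
      IsCoprime d (T.p : ℤ) → |(d : ℝ)| ≤ Real.exp (D * N) →
      (∀ k < H, (T.p : ℤ) * y (k + 1) = (T.q : ℤ) ^ T.δ (w k) * y k + d * T.β (w k)) →
      |(y 0 : ℝ)| ≤ Real.exp (B0 * N) → (wc w H N : ℝ) ≤ A * N →
      (∀ i j, i < j → j ≤ H → y i ≠ y j) → ∀ k ≤ H, |(y k : ℝ)| ≤ Real.exp (B2 * N) := by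
    intro N hN w y d H hd hdd hrec hy hcx hinj k hk
    have hN1 : (1 : ℝ) ≤ N := by exact_mod_cast hK'1.trans hN
    set P : ℕ → Prop := fun t => |(y t : ℝ)| ≤ Real.exp (B' * N) with hP
    have hP0 : P 0 := by
      refine hy.trans (Real.exp_le_exp.2 ?_)
      have := le_abs_self B0
      gcongr
      linarith
    set t := Nat.findGreatest P k with ht
    have htk : t ≤ k := Nat.findGreatest_le k
    have hPt : P t := Nat.findGreatest_spec (Nat.zero_le k) hP0
    have htg : ∀ m, t < m → m ≤ k → ¬ P m := fun m h1 h2 => Nat.findGreatest_is_greatest h1 h2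
    have hkt : k - t ≤ K' * N := by
      by_contra hcon
      push Not at hcon
      obtain ⟨k', h1, h2, h3⟩ := hK' N hN (fun m => w (t + m)) (fun m => y (t + m)) d hd hdd
        (fun m hm => by rw [← add_assoc]; exact hrec _ (by omega)) (by simpa using hPt) (by
          refine le_trans ?_ hcx
          exact_mod_cast wc_sub w (by omega) N) (fun i j hij hj => hinj _ _ (by omega) (by omega))
      refine htg (t + k') (by omega) (by omega) ?_
      refine h3.trans (Real.exp_le_exp.2 ?_)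
      gcongr
    have h1 := (mkFS T hd hrec hinj).y_bound t (k - t) (by
      change t + (k - t) ≤ H
      omega)
    change |y (t + (k - t))| + |d| ≤ (2 * (T.M : ℤ)) ^ (k - t) * (|y t| + |d|) at h1
    rw [Nat.add_sub_cancel' htk] at h1
    have h2 : |(y k : ℝ)| + |(d : ℝ)| ≤ (2 * (T.M : ℝ)) ^ (k - t) * (|(y t : ℝ)| + |(d : ℝ)|) := by
      exact_mod_cast h1
    have h3 : (2 * (T.M : ℝ)) ^ (k - t) ≤ Real.exp (lM * K' * N) := by
      rw [← Real.rpow_natCast, Real.rpow_def_of_pos (by linarith)]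
      apply Real.exp_le_exp.2
      have : ((k - t : ℕ) : ℝ) ≤ K' * N := by exact_mod_cast hkt
      calc Real.log (2 * T.M) * ((k - t : ℕ) : ℝ) ≤ lM * (K' * N) := by gcongr
        _ = lM * K' * N := by ring
    have h4 : |(y t : ℝ)| ≤ Real.exp ((B' + |D|) * N) := by
      refine hPt.trans (Real.exp_le_exp.2 ?_)
      have := abs_nonneg D
      gcongr
      linarith
    have h5 : |(d : ℝ)| ≤ Real.exp ((B' + |D|) * N) := by
      refine hdd.trans (Real.exp_le_exp.2 ?_)
      have := le_abs_self D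
      gcongr
      linarith
    have h6 : (2 : ℝ) ≤ Real.exp N := by
      have := Real.add_one_le_exp (N : ℝ)
      linarith
    have h7 := abs_nonneg (d : ℝ)
    calc |(y k : ℝ)| ≤ (2 * (T.M : ℝ)) ^ (k - t) * (|(y t : ℝ)| + |(d : ℝ)|) := by linarith
      _ ≤ Real.exp (lM * K' * N) * (Real.exp ((B' + |D|) * N) + Real.exp ((B' + |D|) * N)) := by
          gcongr
      _ = Real.exp (lM * K' * N) * (2 * Real.exp ((B' + |D|) * N)) := by ring
      _ ≤ Real.exp (lM * K' * N) * (Real.exp N * Real.exp ((B' + |D|) * N)) := by gcongr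
      _ = Real.exp (B2 * N) := by
          rw [← Real.exp_add, ← Real.exp_add, hB2]
          ring_nf
  obtain ⟨c, hc⟩ := exists_nat_gt ((B2 + 1) / Real.log T.p)
  rw [div_lt_iff₀ hlp] at hc
  have hc0 : 1 ≤ c := by
    by_contra h
    have : c = 0 := by omega
    rw [this] at hc
    push_cast at hc
    linarith
  refine ⟨K' + 2 * c + 2 + ⌈|A|⌉₊ + ⌈B2⌉₊, by omega, ?_⟩
  set K := K' + 2 * c + 2 + ⌈|A|⌉₊ + ⌈B2⌉₊ with hK
  intro N hN w y d hd hdd hrec hy hcx
  have hN2 : 2 ≤ N := by omega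
  have hNr : (2 : ℝ) ≤ N := by exact_mod_cast hN2
  set H := N ^ K with hH
  -- the number of factors
  have hwcN : wc w H N ≤ N ^ 2 := by
    have h1 : A * (N : ℝ) ≤ |A| * N := by
      have := le_abs_self A
      gcongr
    have h2 : |A| ≤ N := by
      have h3 : |A| ≤ (⌈|A|⌉₊ : ℝ) := Nat.le_ceil _
      have h4 : ((⌈|A|⌉₊ : ℕ) : ℝ) ≤ N := by exact_mod_cast (by omega : ⌈|A|⌉₊ ≤ N)
      linarith
    have h3 : (wc w H N : ℝ) ≤ ((N ^ 2 : ℕ) : ℝ) := by
      push_cast
      calc (wc w H N : ℝ) ≤ A * N := hcx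
        _ ≤ |A| * N := h1
        _ ≤ N * N := by gcongr
        _ = (N : ℝ) ^ 2 := by ring
    exact_mod_cast h3
  have hpig : (wc w H N) ^ c < H + 1 - c * N := by
    have h1 : (wc w H N) ^ c ≤ N ^ (2 * c) := by
      calc (wc w H N) ^ c ≤ (N ^ 2) ^ c := Nat.pow_le_pow_left hwcN c
        _ = N ^ (2 * c) := by rw [← pow_mul]
    have h2 : c * N ≤ N ^ 2 := by
      rw [sq]
      exact Nat.mul_le_mul_right N (by omega)
    have h3 : N ^ (2 * c) + N ^ 2 ≤ N ^ (2 * c) * N ^ 2 := by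
      apply Nat.add_le_mul
      · calc 2 ≤ N := hN2
          _ = N ^ 1 := (pow_one N).symm
          _ ≤ N ^ (2 * c) := Nat.pow_le_pow_right (by omega) (by omega)
      · calc 2 ≤ N := hN2
          _ = N ^ 1 := (pow_one N).symm
          _ ≤ N ^ 2 := Nat.pow_le_pow_right (by omega) (by omega)
    have h4 : N ^ (2 * c) * N ^ 2 ≤ H := by
      rw [← pow_add, hH]
      exact Nat.pow_le_pow_right (by omega) (by omega)
    omega
  have hrep : ∃ j, ∃ i, i < j ∧ j ≤ H ∧ y i = y j := by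
    by_contra hcon
    push Not at hcon
    have hinj : ∀ i j, i < j → j ≤ H → y i ≠ y j := fun i j h1 h2 => hcon j i h1 h2
    have hb := bdd N (by omega) w y d H hd hdd hrec hy hcx hinj
    obtain ⟨i, j, hij, hj, he⟩ := pigeon w (by omega) hpig
    have h8 := (mkFS T hd hrec hinj).dvd_of_eqv (l := c * N) (s := i) (t := j) (by
      intro k hk
      change ext w H (i + k) = ext w H (j + k)
      rw [ext_lt (by omega), ext_lt (by omega), he k hk]) (by change i + c * N ≤ H; omega)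
      (by change j + c * N ≤ H; omega)
    change (T.p : ℤ) ^ (c * N) ∣ y j - y i at h8
    have h9 : y j - y i ≠ 0 := by
      rw [sub_ne_zero]
      exact (hinj i j hij (by omega)).symm
    have h10 := Int.le_of_dvd (abs_pos.2 h9) ((dvd_abs _ _).2 h8)
    have h11 : ((T.p : ℝ)) ^ (c * N) ≤ |(y j : ℝ) - y i| := by exact_mod_cast h10
    have h12 : |(y j : ℝ) - y i| ≤ 2 * Real.exp (B2 * N) := by
      refine (abs_sub _ _).trans ?_
      have := hb i (by omega)
      have := hb j (by omega)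
      linarith
    have h13 : ((T.p : ℝ)) ^ (c * N) = Real.exp (Real.log T.p * (c * N)) := by
      have hp0 : (0 : ℝ) < T.p := by
        have := T.hp
        exact_mod_cast (show 0 < T.p by omega)
      rw [← Real.rpow_natCast, Real.rpow_def_of_pos hp0]
      push_cast
      rfl
    have h14 : 2 * Real.exp (B2 * N) < Real.exp ((B2 + 1) * N) := by
      have e1 : (B2 + 1) * (N : ℝ) = B2 * N + 1 * N := by ring
      rw [e1, Real.exp_add]
      have h16 : (2 : ℝ) < Real.exp (1 * N) := by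
        have := Real.add_one_le_exp (1 * (N : ℝ))
        linarith
      have := Real.exp_pos (B2 * N)
      nlinarith
    have h15 : Real.exp (Real.log T.p * (c * N)) < Real.exp ((B2 + 1) * N) := by
      rw [← h13]; linarith
    have h16 := Real.exp_lt_exp.1 h15
    nlinarith
  -- the first repetition
  set j := Nat.find hrep with hjd
  obtain ⟨i, hij, hjH, hyij⟩ := Nat.find_spec hrep
  rw [← hjd] at hij hjH hyij
  have hmin : ∀ a b, a < b → b ≤ j - 1 → y a ≠ y b := by
    intro a b hab hb he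
    exact Nat.find_min hrep (m := b) (by omega) ⟨a, hab, by omega, he⟩
  have hb := bdd N (by omega) w y d (j - 1) hd hdd (fun k hk => hrec k (by omega)) hy (by
    refine le_trans ?_ hcx
    exact_mod_cast wc_mono w (by omega) N) hmin
  have hle : Real.exp (B2 * N) ≤ Real.exp (((K' + 2 * c + 2 + ⌈|A|⌉₊ + ⌈B2⌉₊ : ℕ) : ℝ) * N) := by
    apply Real.exp_le_exp.2
    have h1 : B2 ≤ (⌈B2⌉₊ : ℝ) := Nat.le_ceil _
    have h2 : ((⌈B2⌉₊ : ℕ) : ℝ) ≤ ((K' + 2 * c + 2 + ⌈|A|⌉₊ + ⌈B2⌉₊ : ℕ) : ℝ) := by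
      exact_mod_cast (by omega)
    gcongr
    linarith
  refine ⟨i, j, hij, hjH, hyij, fun k hk => ?_⟩
  rcases Nat.lt_or_ge k j with h1 | h1
  · exact (hb k (by omega)).trans hle
  · have : k = j := by omega
    rw [this, ← hyij]
    exact (hb i (by omega)).trans hle

/-- **One scale, for maps.** -/
theorem single_map [Finite α] (T : Dt α) (A D B0 : ℝ) : ∃ K : ℕ, 1 ≤ K ∧ ∀ N : ℕ, K ≤ N →
    ∀ (d : ℤ) (f : ℤ → α) (G : ℤ → ℤ), Mp T d f G → |(d : ℝ)| ≤ Real.exp (D * N) →
    ∀ x : ℤ, |(x : ℝ)| ≤ Real.exp (B0 * N) → (wc (wd f G x) (N ^ K) N : ℝ) ≤ A * N →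
    ∃ i j, i < j ∧ j ≤ N ^ K ∧ G^[i] x = G^[j] x ∧
      ∀ k, |((G^[k] x : ℤ) : ℝ)| ≤ Real.exp (K * N) := by
  obtain ⟨K, hK, h⟩ := single T A D B0
  refine ⟨K, hK, fun N hN d f G hG hd x hx hcx => ?_⟩
  obtain ⟨i, j, hij, hj, he, hb⟩ := h N hN (wd f G x) (fun k => G^[k] x) d hG.hd hd (fun k _ => by
    rw [Function.iterate_succ_apply', hG.hG]
    rfl) hx hcx
  refine ⟨i, j, hij, hj, he, fun k => ?_⟩
  rcases Nat.lt_or_ge k j with h1 | h1
  · exact hb k h1.le
  · have hper : G^[j - i] (G^[i] x) = G^[i] x := by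
      rw [← Function.iterate_add_apply, Nat.sub_add_cancel hij.le]
      exact he.symm
    have h2 := iter_per hper (k - i)
    rw [← Function.iterate_add_apply, Nat.sub_add_cancel (by omega : i ≤ k),
      ← Function.iterate_add_apply] at h2
    have h3 : (k - i) % (j - i) < j - i := Nat.mod_lt _ (by omega)
    have h4 := hb ((k - i) % (j - i) + i) (by omega)
    rw [h2]
    exact h4

end Pool.Agent.TH932.S2.G
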