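import Mathlib
import Pool.Agent.TH932.S2.G.Desc

set_option autoImplicit false

/-!
# Injective orbits: small scales
-/

namespace Pool.Agent.TH932.S2.G

open Filter Topology Pool.Agent.TH932.Words Pool.Agent.TH932.S2.F

variable {α : Type*}

/-- the beginning of an injective orbit has many blocks at all scales of an interval -/
theorem inj_scales [Finite α] (T : Dt α) (A R : ℝ) : ∃ K : ℕ,
    ∀ (f : ℤ → α) (G : ℤ → ℤ), Mp T 1 f G → ∀ x : ℤ, (Function.Injective fun k => G^[k] x) →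
    (K : ℤ) < |x| →
    ∃ m : ℕ, 1 ≤ m ∧ R ≤ m ∧ R * m ≤ Real.log |(x : ℝ)| ∧ ∀ N : ℕ, m ≤ N → (N : ℝ) ≤ R * m →
      A * N < wc (wd f G x) ⌊K * Real.log |(x : ℝ)|⌋₊ N := by
  obtain ⟨K1, hK11, hK1⟩ := desc T A R
  obtain ⟨K3, hK31, hK3⟩ := single_map T A 0 1
  obtain ⟨r, hr⟩ := exists_nat_ge R
  set m0 : ℕ := K3 + K1 + r + 1 with hm0
  obtain ⟨K4, hK4⟩ := exists_nat_ge (Real.exp (((r * m0) ^ K3 + r * m0 : ℕ) : ℝ))
  refine ⟨K1 + K4 + 1, fun f G hG x hinj hx => ?_⟩
  set K : ℕ := K1 + K4 + 1 with hK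
  have hKr : ((K1 + K4 + 1 : ℕ) : ℝ) = K := rfl
  push_cast at hKr
  have hK1r : (1 : ℝ) ≤ K1 := by exact_mod_cast hK11
  have hK4r : (0 : ℝ) ≤ K4 := Nat.cast_nonneg K4
  have hxr : (K : ℝ) < |(x : ℝ)| := by exact_mod_cast hx
  have hx0 : (0 : ℝ) < |(x : ℝ)| := by linarith
  have hlog4 : (((r * m0) ^ K3 + r * m0 : ℕ) : ℝ) ≤ Real.log |(x : ℝ)| := by
    rw [Real.le_log_iff_exp_le hx0]
    linarith
  have hlog0 : 0 ≤ Real.log |(x : ℝ)| := Real.log_nonneg (by linarith)
  have hKK : (K1 : ℝ) * Real.log |(x : ℝ)| ≤ K * Real.log |(x : ℝ)| := by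
    have : (K1 : ℝ) ≤ K := by linarith
    gcongr
  by_cases h : ∀ i : ℕ, (i : ℝ) ≤ K1 * Real.log |(x : ℝ)| → (K1 : ℤ) < |G^[i] x|
  · obtain ⟨m, h1, h2, h3, h4⟩ := hK1 f G hG x h
    refine ⟨m, h1, h2, h3, fun N a b => (h4 N a b).trans_le ?_⟩
    exact_mod_cast wc_mono (wd f G x) (Nat.floor_le_floor hKK) N
  · push Not at h
    obtain ⟨i, hi, hy⟩ := h
    have hm1 : (1 : ℝ) ≤ m0 := by exact_mod_cast (by omega : 1 ≤ m0)
    have hrm : R * m0 ≤ r * m0 := by gcongr
    have hpos : (0 : ℝ) ≤ ((r * m0) ^ K3 : ℕ) := Nat.cast_nonneg _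
    push_cast at hlog4 hpos
    refine ⟨m0, by omega, ?_, by linarith, fun N hN1 hN2 => ?_⟩
    · have : (r : ℝ) ≤ m0 := by exact_mod_cast (by omega : r ≤ m0)
      linarith
    · by_contra hcon
      push Not at hcon
      have hNr : N ≤ r * m0 := by
        have : (N : ℝ) ≤ r * m0 := hN2.trans hrm
        exact_mod_cast this
      have hpow : N ^ K3 ≤ (r * m0) ^ K3 := Nat.pow_le_pow_left hNr K3
      have hsh : wc (wd f G (G^[i] x)) (N ^ K3) N ≤
          wc (wd f G x) ⌊(K : ℝ) * Real.log |(x : ℝ)|⌋₊ N := by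
        have h1 : i + N ^ K3 ≤ ⌊(K : ℝ) * Real.log |(x : ℝ)|⌋₊ := by
          apply Nat.le_floor
          have h1 : ((N ^ K3 : ℕ) : ℝ) ≤ ((r : ℝ) * m0) ^ K3 := by exact_mod_cast hpow
          have h2 : (0 : ℝ) ≤ (r : ℝ) * m0 := by positivity
          have h3 : (K1 : ℝ) * Real.log |(x : ℝ)| + Real.log |(x : ℝ)|
              ≤ K * Real.log |(x : ℝ)| := by
            have : (K1 : ℝ) + 1 ≤ K := by linarith
            nlinarith
          rw [Nat.cast_add]
          linarith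
        have h2 := wc_sub (wd f G x) h1 N
        have h3 : (fun k => wd f G x (i + k)) = wd f G (G^[i] x) := by
          funext k
          simp only [wd]
          rw [← Function.iterate_add_apply, add_comm i k]
        rw [h3] at h2
        exact h2
      obtain ⟨a, b, hab, _, he, _⟩ := hK3 N (by omega) 1 f G hG (by simp) (G^[i] x) (by
          have h1 : |((G^[i] x : ℤ) : ℝ)| ≤ K1 := by exact_mod_cast hy
          have h2 : (K1 : ℝ) ≤ N := by exact_mod_cast (by omega : K1 ≤ N)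
          have h3 : (N : ℝ) ≤ Real.exp N := by
            have := Real.add_one_le_exp (N : ℝ)
            linarith
          rw [one_mul]
          linarith) (le_trans (by exact_mod_cast hsh) hcon)
      rw [← Function.iterate_add_apply, ← Function.iterate_add_apply] at he
      have := hinj he
      omega

end Pool.Agent.TH932.S2.G
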