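import Mathlib
import Pool.Agent.TH932.S2.G.Desc

set_option autoImplicit false

/-!
# Times to reach `1`
-/

namespace Pool.Agent.TH932.S2.G

open Filter Topology Pool.Agent.TH932.Words Pool.Agent.TH932.S2.F

variable {α : Type*}

/-- the first time at which the trajectory is at `1` -/
def IsTime (G : ℤ → ℤ) (x : ℤ) (k : ℕ) : Prop := G^[k] x = 1 ∧ ∀ j < k, G^[j] x ≠ 1

lemma IsTime.unique {G : ℤ → ℤ} {x : ℤ} {k l : ℕ} (h1 : IsTime G x k) (h2 : IsTime G x l) :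
    k = l := by
  rcases lt_trichotomy k l with h | h | h
  · exact absurd h1.1 (h2.2 k h)
  · exact h
  · exact absurd h2.1 (h1.2 l h)

/-- **Descent in logarithmic time, and times to reach `1`.** -/
theorem desc_time [Finite α] (T : Dt α) {f : ℤ → α} {G : ℤ → ℤ} (hG : Mp T 1 f G) (A R : ℝ) :
    ∃ K : ℕ, 1 ≤ K ∧
    (∀ x : ℤ, (∀ i : ℕ, (i : ℝ) ≤ K * Real.log |(x : ℝ)| → (K : ℤ) < |G^[i] x|) →
      ∃ m : ℕ, 1 ≤ m ∧ R ≤ m ∧ R * m ≤ Real.log |(x : ℝ)| ∧ ∀ N : ℕ, m ≤ N → (N : ℝ) ≤ R * m →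
        A * N < wc (wd f G x) ⌊K * Real.log |(x : ℝ)|⌋₊ N) ∧
    (∀ (x : ℤ) (k : ℕ), 2 ≤ |x| → IsTime G x k → K * Real.log |(x : ℝ)| < k →
      ∃ m : ℕ, 1 ≤ m ∧ R ≤ m ∧ R * m ≤ Real.log |(x : ℝ)| ∧ ∀ N : ℕ, m ≤ N → (N : ℝ) ≤ R * m →
        A * N < wc (wd f G x) ⌊K * Real.log |(x : ℝ)|⌋₊ N) := by
  obtain ⟨K1, hK11, hK1⟩ := desc T A R
  have hfin : (⋃ y ∈ Set.Icc (-(K1 : ℤ)) K1, {k : ℕ | IsTime G y k}).Finite :=
    Set.Finite.biUnion (Set.finite_Icc _ _) fun y _ =>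
      Set.Subsingleton.finite fun a ha b hb => IsTime.unique ha hb
  obtain ⟨K2, hK2⟩ := hfin.bddAbove
  have mono : ∀ (x : ℤ) (N : ℕ), wc (wd f G x) ⌊(K1 : ℝ) * Real.log |(x : ℝ)|⌋₊ N ≤
      wc (wd f G x) ⌊((K1 + 2 * K2 : ℕ) : ℝ) * Real.log |(x : ℝ)|⌋₊ N := by
    intro x N
    apply wc_mono
    apply Nat.floor_le_floor
    rcases eq_or_ne x 0 with h0 | h0
    · rw [h0]; simp
    · have h1 : (1 : ℝ) ≤ |(x : ℝ)| := by exact_mod_cast Int.one_le_abs h0
      have := Real.log_nonneg h1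
      push_cast
      nlinarith [Nat.cast_nonneg (α := ℝ) K2]
  refine ⟨K1 + 2 * K2, by omega, fun x hx => ?_, fun x k hx hk hbig => ?_⟩
  · obtain ⟨m, h1, h2, h3, h4⟩ := hK1 f G hG x (fun i hi => by
      rcases eq_or_ne x 0 with h0 | h0
      · exfalso
        have := hx 0 (by rw [h0]; simp)
        rw [h0] at this
        simp only [Function.iterate_zero, id_eq, abs_zero] at this
        omega
      · have h1 : (1 : ℝ) ≤ |(x : ℝ)| := by exact_mod_cast Int.one_le_abs h0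
        have h2 := Real.log_nonneg h1
        have h3 := hx i (by
          push_cast
          nlinarith [Nat.cast_nonneg (α := ℝ) K2])
        omega)
    exact ⟨m, h1, h2, h3, fun N a b => (h4 N a b).trans_le (by exact_mod_cast mono x N)⟩
  · by_contra hcon
    have h2r : (2 : ℝ) ≤ |(x : ℝ)| := by exact_mod_cast hx
    have hlog : (1 / 2 : ℝ) ≤ Real.log |(x : ℝ)| := by
      have h1 := Real.log_two_gt_d9
      have h2 := Real.log_le_log (by norm_num) h2r
      linarith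
    have h1 : ¬ ∀ i : ℕ, (i : ℝ) ≤ K1 * Real.log |(x : ℝ)| → (K1 : ℤ) < |G^[i] x| := by
      intro h
      obtain ⟨m, h1, h2, h3, h4⟩ := hK1 f G hG x h
      exact hcon ⟨m, h1, h2, h3, fun N a b => (h4 N a b).trans_le (by exact_mod_cast mono x N)⟩
    push Not at h1
    obtain ⟨i, hi1, hi2⟩ := h1
    push_cast at hbig
    have hK2r : (0 : ℝ) ≤ K2 := Nat.cast_nonneg K2
    have hik : i ≤ k := by
      have : (i : ℝ) ≤ k := by nlinarith
      exact_mod_cast this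
    have ht : IsTime G (G^[i] x) (k - i) := by
      refine ⟨?_, fun j hj => ?_⟩
      · rw [← Function.iterate_add_apply, Nat.sub_add_cancel hik]
        exact hk.1
      · rw [← Function.iterate_add_apply]
        exact hk.2 _ (by omega)
    have h3 : k - i ≤ K2 := hK2 (by
      simp only [Set.mem_iUnion]
      exact ⟨G^[i] x, by rw [Set.mem_Icc]; exact abs_le.1 hi2, ht⟩)
    have h4 : (k : ℝ) ≤ i + K2 := by exact_mod_cast (by omega : k ≤ i + K2)
    nlinarith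

end Pool.Agent.TH932.S2.G
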