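import Mathlib
import Pool.Agent.TH932.S2.G.Ss
import Pool.Agent.TH796.F4.Cyc5

set_option autoImplicit false

/-!
# Cycles of the maps `T_{a,b}`: one scale
-/

namespace Pool.Agent.TH932.S2.G.Tb

open Filter Topology Pool.Agent.TH932.Words Pool.Agent.TH932.S2
open Pool.Agent.TH932.S2.F Pool.Agent.H547R3.Sub
open Pool.Agent.W42.CpxG (IsCyc words)

/-- exponents -/
def dl (a : ZMod 2) : ℕ := if a = 1 then 1 else 0

lemma par_odd {a : ℤ} : ((a : ℤ) : ZMod 2) = 1 ↔ a % 2 = 1 := by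
  have h1 : (1 : ZMod 2) = ((1 : ℤ) : ZMod 2) := by simp
  rw [h1, ZMod.intCast_eq_intCast_iff, Int.ModEq]
  norm_num

/-- the affine maps -/
def T (q : ℕ) (hq3 : 3 ≤ q) (hq1 : q % 2 = 1) : Dt (ZMod 2) where
  p := 2
  q := q
  M := q
  δ := dl
  β := fun a => (dl a : ℤ)
  hp := le_rfl
  hq := by omega
  hpq := Nat.isCoprime_iff_coprime.2 (Nat.coprime_two_right.2 (Nat.odd_iff.2 hq1))
  hpM := by omega
  hqM := by
    intro a; unfold dl; split_ifs
    · rw [pow_one]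
    · rw [pow_zero]; omega
  hβM := by
    intro a; unfold dl; split_ifs
    · rw [Nat.cast_one, abs_one]; omega
    · rw [Nat.cast_zero, abs_zero]; omega

/-- parities -/
def f (y : ℤ) : ZMod 2 := ((y : ℤ) : ZMod 2)

lemma mp {q : ℕ} (hq3 : 3 ≤ q) (hq1 : q % 2 = 1) {k : ℤ} (hk : k % 2 = 1) :
    Mp (T q hq3 hq1) k f (Tm q k) where
  hd := by
    rw [Int.isCoprime_iff_gcd_eq_one]
    change Int.gcd k 2 = 1
    have h1 : Int.gcd k 2 ∣ 2 := Int.gcd_dvd_natAbs_right k 2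
    rcases (Nat.dvd_prime Nat.prime_two).1 h1 with h | h
    · exact h
    · exfalso
      have h2 : ((Int.gcd k 2 : ℕ) : ℤ) ∣ k := Int.gcd_dvd_left k 2
      rw [h] at h2
      omega
  hG := by
    intro y
    change ((2 : ℕ) : ℤ) * Tm q k y = (q : ℤ) ^ dl (f y) * y + k * (dl (f y) : ℤ)
    rcases Int.emod_two_eq_zero_or_one y with h1 | h1
    · have hw : dl (f y) = 0 := by
        unfold dl
        rw [if_neg]
        unfold f
        rw [par_odd]; omega
      rw [hw, Tm, if_pos h1, pow_zero, one_mul]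
      push_cast
      omega
    · have hw : dl (f y) = 1 := by
        unfold dl
        rw [if_pos]
        unfold f
        rw [par_odd]; exact h1
      rw [hw, Tm, if_neg (by omega)]
      have h2 : ((q : ℤ) * y + k) % 2 = 0 := by
        rw [Int.add_emod, Int.mul_emod, h1, hk]
        have : (q : ℤ) % 2 = 1 := by omega
        rw [this]
        norm_num
      push_cast
      rw [pow_one, mul_one]
      omega

/-- the words read along a cycle include the factors of the parity word -/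
lemma wc_le_words {G : ℤ → ℤ} {Z : Finset ℤ} (hZ : IsCyc G Z) {x : ℤ} (hx : x ∈ Z)
    (H m : ℕ) : wc (wd f G x) H m ≤ (words G Z m).card := by
  classical
  set g : (Fin m → ℤ) → (Fin m → ZMod 2) := fun v j => ((v j : ℤ) : ZMod 2) with hg
  have hsub : (fun i => fac (wd f G x) m i) '' {i | i + m ≤ H} ⊆ ((words G Z m).image g : Set _) := by
    rintro _ ⟨i, _, rfl⟩
    rw [Finset.coe_image]
    refine ⟨fun j : Fin m => G^[(j : ℕ)] (G^[i] x) % 2, ?_, ?_⟩
    · rw [Finset.mem_coe]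
      unfold words
      rw [Finset.mem_image]
      exact ⟨_, hZ.closed hx i, rfl⟩
    · funext j
      simp only [hg, fac, wd, f]
      rw [← Function.iterate_add_apply, add_comm]
      exact (ZMod.intCast_eq_intCast_iff _ _ 2).2 (Int.mod_modEq _ _)
  unfold wc
  refine (Set.ncard_le_ncard hsub (Finset.finite_toSet _)).trans ?_
  rw [Set.ncard_coe_finset]
  exact Finset.card_image_le

/-- **Cycles have superlinear complexity at every scale.** -/
theorem cyc_scale {q : ℕ} (hq : q.Prime) (hq2 : q ≠ 2) {k : ℤ} (hk : k % 2 = 1) (C : ℝ) :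
    ∃ K : ℕ, ∀ Z : Finset ℤ, IsCyc (Tm q k) Z → ∀ n : ℕ,
      K * (1 + Real.log Z.card) ^ 2 ≤ n → n ^ K ≤ Z.card →
      C * n < ((words (Tm q k) Z n).card : ℝ) := by
  classical
  have hq1 : q % 2 = 1 := by
    rcases hq.eq_two_or_odd with h | h
    · exact absurd h hq2
    · omega
  have hq3 : 3 ≤ q := by have := hq.two_le; omega
  obtain ⟨G, hG0, hG⟩ := Pool.Agent.TH796.F4.min_log hq hq2 hk
  obtain ⟨K0, hK01, hK0⟩ := single_map (T q hq3 hq1) C |(k : ℝ)| 1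
  refine ⟨K0 + ⌈G⌉₊ + 2, ?_⟩
  intro Z hZ n hn1 hn2
  have hp : 0 < Z.card := hZ.card_pos
  have hpr : (1 : ℝ) ≤ Z.card := by exact_mod_cast hp
  have hlp : 0 ≤ Real.log Z.card := Real.log_nonneg hpr
  obtain ⟨x0, hx0, hxl⟩ := hG Z hZ
  have hsq1 : 1 ≤ (1 + Real.log Z.card) ^ 2 := by nlinarith
  have hGc : G ≤ (⌈G⌉₊ : ℝ) := Nat.le_ceil _
  have hKn : K0 + ⌈G⌉₊ + 2 ≤ n := by
    have h1 : ((K0 + ⌈G⌉₊ + 2 : ℕ) : ℝ) ≤ n := by
      refine le_trans ?_ hn1
      exact le_mul_of_one_le_right (by positivity) hsq1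
    exact_mod_cast h1
  obtain ⟨hmp, hZset⟩ := hZ.orbit hx0
  have hxn : Real.log (|(x0 : ℝ)| + 1) ≤ n := by
    refine hxl.trans (le_trans ?_ hn1)
    gcongr
    push_cast
    linarith
  have hx1 : |(x0 : ℝ)| ≤ Real.exp (1 * n) := by
    rw [one_mul]
    have h1 := Real.exp_le_exp.2 hxn
    rw [Real.exp_log (by positivity)] at h1
    linarith
  have hn1' : (1 : ℝ) ≤ n := by exact_mod_cast (by omega : 1 ≤ n)
  have hkn : |(k : ℝ)| ≤ Real.exp (|(k : ℝ)| * n) := by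
    have h1 := Real.add_one_le_exp (|(k : ℝ)| * n)
    have h2 := abs_nonneg (k : ℝ)
    nlinarith
  by_contra hcon
  push Not at hcon
  obtain ⟨i, j, hij, hj, he, -⟩ := hK0 n (by omega) k f (Tm q k) (mp hq3 hq1 hk) hkn x0 hx1
    (le_trans (by exact_mod_cast wc_le_words hZ hx0 _ n) hcon)
  have hjZ : j < Z.card := by
    refine lt_of_lt_of_le (lt_of_le_of_lt hj ?_) hn2
    exact Nat.pow_lt_pow_right (by omega) (by omega)
  have h1 : Set.InjOn (fun i => (Tm q k)^[i] x0) (Set.Iio Z.card) := by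
    rw [← hmp]; exact Function.iterate_injOn_Iio_minimalPeriod
  have := h1 (Set.mem_Iio.2 (by omega)) (Set.mem_Iio.2 hjZ) he
  omega

/-- **Arcs of cycles beginning with a small term**, for all odd `q ≥ 3` and uniformly in `k`. -/
theorem cyc_from {q : ℕ} (hq3 : 3 ≤ q) (hq1 : q % 2 = 1) (C : ℝ) : ∃ K : ℕ, ∀ k : ℤ,
    k % 2 = 1 → ∀ Z : Finset ℤ, IsCyc (Tm q k) Z → ∀ x ∈ Z, ∀ n : ℕ, K ≤ n → |k| ≤ 2 ^ n →
    |x| ≤ 2 ^ n → n ^ K ≤ Z.card → C * n < (wc (wd f (Tm q k) x) (n ^ K) n : ℝ) := by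
  classical
  obtain ⟨K0, hK01, hK0⟩ := single_map (T q hq3 hq1) C 1 1
  refine ⟨K0 + 2, fun k hk Z hZ x0 hx0 n hn hkn hxn hnZ => ?_⟩
  have h2e : (2 : ℝ) ^ n ≤ Real.exp (1 * n) := by
    have h2 : (2 : ℝ) ≤ Real.exp 1 := by
      have := Real.add_one_le_exp (1 : ℝ)
      linarith
    calc (2 : ℝ) ^ n ≤ Real.exp 1 ^ n := by gcongr
      _ = Real.exp (1 * n) := by rw [← Real.exp_nat_mul]; ring_nf
  have hkn' : |(k : ℝ)| ≤ 2 ^ n := by exact_mod_cast hkn
  have hxn' : |(x0 : ℝ)| ≤ 2 ^ n := by exact_mod_cast hxn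
  obtain ⟨hmp, hZset⟩ := hZ.orbit hx0
  by_contra hcon
  push Not at hcon
  have hle : n ^ K0 < n ^ (K0 + 2) := Nat.pow_lt_pow_right (by omega) (by omega)
  obtain ⟨i, j, hij, hj, he, -⟩ := hK0 n (by omega) k f (Tm q k) (mp hq3 hq1 hk)
    (hkn'.trans h2e) x0 (hxn'.trans h2e)
    (le_trans (by exact_mod_cast wc_mono (wd f (Tm q k) x0) hle.le n) hcon)
  have hjZ : j < Z.card := by omega
  have h1 : Set.InjOn (fun i => (Tm q k)^[i] x0) (Set.Iio Z.card) := by
    rw [← hmp]; exact Function.iterate_injOn_Iio_minimalPeriod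
  have := h1 (Set.mem_Iio.2 (by omega)) (Set.mem_Iio.2 hjZ) he
  omega

end Pool.Agent.TH932.S2.G.Tb
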