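import Mathlib
import Pool.Agent.TH932.S2.All
import Pool.Agent.TH932.S2.F.Fin
import Pool.Agent.TH932.S2.G.Ss

set_option autoImplicit false

/-!
# Maps `x ↦ (q ^ δ x + β) / d` on the residue classes modulo `d`
-/

namespace Pool.Agent.TH932.S2.G.Gc

open Filter Topology Pool.Agent.TH932.Words Pool.Agent.TH932.S2 Pool.Agent.TH932.S2.F

/-- the number of different blocks of `n` consecutive residues modulo `d` among the first `h` terms
of the orbit of `x` -/
noncomputable def blk (d : ℕ) (G : ℤ → ℤ) (x : ℤ) (h n : ℕ) : ℕ :=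
  ((fun i : ℕ => fun j : Fin n => ((G^[i + j] x : ℤ) : ZMod d)) '' {i | i + n ≤ h}).ncard

/-- the number of different blocks of `n` consecutive residues modulo `d` in the orbit of `x` -/
noncomputable def blkAll (d : ℕ) (G : ℤ → ℤ) (x : ℤ) (n : ℕ) : ℕ :=
  (Set.range fun i : ℕ => fun j : Fin n => ((G^[i + j] x : ℤ) : ZMod d)).ncard

variable {d q : ℕ} {δ : ZMod d → ℕ} {β : ZMod d → ℤ} {G : ℤ → ℤ}

/-- residues -/
def rs (d : ℕ) (y : ℤ) : ZMod d := ((y : ℤ) : ZMod d)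

lemma mp_of (T : Dt (ZMod d)) (h1 : T.p = d) (h2 : T.q = q) (h3 : T.δ = δ) (h4 : T.β = β)
    (hG : ∀ x : ℤ, (d : ℤ) * G x = (q : ℤ) ^ δ (x : ZMod d) * x + β (x : ZMod d)) :
    Mp T 1 (rs d) G where
  hd := isCoprime_one_left
  hG := by
    intro x
    rw [h1, h2, h3, h4, one_mul]
    exact hG x

lemma inj_of {x : ℤ} (h : ∀ R : ℤ, ∃ k, R < |G^[k] x|) : Function.Injective fun k => G^[k] x := by
  have key : ∀ i j, i < j → G^[i] x ≠ G^[j] x := by
    intro i j hij he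
    have hper : G^[j - i] (G^[i] x) = G^[i] x := by
      rw [← Function.iterate_add_apply, Nat.sub_add_cancel hij.le]
      exact he.symm
    obtain ⟨k, hk⟩ := h (∑ l ∈ Finset.range (j + 1), |G^[l] x|)
    have hle : ∀ l, l ≤ j → |G^[l] x| ≤ ∑ l ∈ Finset.range (j + 1), |G^[l] x| := fun l hl =>
      Finset.single_le_sum (f := fun l => |G^[l] x|) (fun _ _ => abs_nonneg _)
        (Finset.mem_range.2 (by omega))
    rcases Nat.lt_or_ge k j with h1 | h1
    · have := hle k h1.le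
      omega
    · have h2 := iter_per hper (k - i)
      rw [← Function.iterate_add_apply, Nat.sub_add_cancel (by omega : i ≤ k),
        ← Function.iterate_add_apply] at h2
      have h3 : (k - i) % (j - i) < j - i := Nat.mod_lt _ (by omega)
      have := hle ((k - i) % (j - i) + i) (by omega)
      rw [← h2] at this
      omega
  intro i j hij
  rcases lt_trichotomy i j with h1 | h1 | h1
  · exact absurd hij (key i j h1)
  · exact h1
  · exact absurd hij.symm (key j i h1)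

/-- **Unbounded orbits.** -/
theorem unb (hd : 2 ≤ d) (hq : 2 ≤ q) (hco : Nat.Coprime q d)
    (hG : ∀ x : ℤ, (d : ℤ) * G x = (q : ℤ) ^ δ (x : ZMod d) * x + β (x : ZMod d)) {x : ℤ}
    (h : ∀ R : ℤ, ∃ k, R < |G^[k] x|) :
    Tendsto (fun n : ℕ => (blkAll d G x n : ℝ) / n) atTop atTop := by
  have : NeZero d := ⟨by omega⟩
  exact superlinear_all hd hq (Nat.isCoprime_iff_coprime.2 hco) δ β
    (fun k => ((G^[k] x : ℤ) : ZMod d)) (fun k => G^[k] x) (fun k => by
      rw [Function.iterate_succ_apply', hG]) (inj_of h)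

lemma two_exp (N : ℕ) : (2 : ℝ) ^ N ≤ Real.exp N := by
  have h2 : (2 : ℝ) ≤ Real.exp 1 := by
    have := Real.add_one_le_exp (1 : ℝ)
    linarith
  calc (2 : ℝ) ^ N ≤ Real.exp 1 ^ N := by gcongr
    _ = Real.exp N := by rw [← Real.exp_nat_mul, mul_one]

lemma exp_two (n : ℕ) : Real.exp n ≤ (2 : ℝ) ^ (2 * n) := by
  have h3 : Real.exp 1 ≤ 4 := by
    have := Real.exp_one_lt_d9
    linarith
  calc Real.exp n = Real.exp 1 ^ n := by rw [← Real.exp_nat_mul, mul_one]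
    _ ≤ 4 ^ n := by gcongr
    _ = 2 ^ (2 * n) := by rw [pow_mul]; norm_num

/-- **One scale.** -/
theorem one (hd : 2 ≤ d) (hq : 2 ≤ q) (hco : Nat.Coprime q d)
    (hG : ∀ x : ℤ, (d : ℤ) * G x = (q : ℤ) ^ δ (x : ZMod d) * x + β (x : ZMod d)) (A : ℝ) :
    ∃ K : ℕ, ∀ (x : ℤ) (N : ℕ), K ≤ N → |x| ≤ 2 ^ N → (blk d G x (N ^ K) N : ℝ) ≤ A * N →
      (∃ i ≤ N ^ K, ∃ k, 1 ≤ k ∧ k ≤ N ^ K ∧ G^[k] (G^[i] x) = G^[i] x) ∧
        ∀ j, |G^[j] x| ≤ 2 ^ (K * N) := by
  have : NeZero d := ⟨by omega⟩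
  obtain ⟨T, h1, h2, h3, h4⟩ := dt_of hd hq (Nat.isCoprime_iff_coprime.2 hco) δ β
  have hmp := mp_of T h1 h2 h3 h4 hG
  obtain ⟨K, hK, h⟩ := single_map T A 0 1
  refine ⟨2 * K + 2, fun x N hN hx hcx => ?_⟩
  have hpow : N ^ K ≤ N ^ (2 * K + 2) := Nat.pow_le_pow_right (by omega) (by omega)
  obtain ⟨i, j, hij, hj, he, hb⟩ := h N (by omega) 1 (rs d) G hmp (by simp) x (by
      rw [one_mul]
      refine le_trans ?_ (two_exp N)
      exact_mod_cast hx) (by
      refine le_trans ?_ hcx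
      exact_mod_cast wc_mono (wd (rs d) G x) hpow N)
  refine ⟨⟨i, by omega, j - i, by omega, by omega, ?_⟩, fun k => ?_⟩
  · rw [← Function.iterate_add_apply, Nat.sub_add_cancel hij.le]
    exact he.symm
  · have h5 := hb k
    have h6 : Real.exp ((K : ℝ) * N) ≤ ((2 ^ (2 * (K * N)) : ℕ) : ℝ) := by
      have := exp_two (K * N)
      push_cast at this ⊢
      exact this
    have h7 : |G^[k] x| ≤ 2 ^ (2 * (K * N)) := by exact_mod_cast h5.trans h6
    refine h7.trans (pow_le_pow_right₀ (by norm_num) ?_)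
    have : (2 * K + 2) * N = 2 * (K * N) + 2 * N := by ring
    omega

/-- **All scales.** -/
theorem all (hd : 2 ≤ d) (hq : 2 ≤ q) (hco : Nat.Coprime q d)
    (hG : ∀ x : ℤ, (d : ℤ) * G x = (q : ℤ) ^ δ (x : ZMod d) * x + β (x : ZMod d)) (A : ℝ) :
    ∃ K : ℕ, ∀ (x : ℤ) (M N : ℕ), 1 ≤ M → M ≤ N → |x| ≤ 2 ^ N →
      (∀ n : ℕ, M ≤ n → n ≤ K * N → (blk d G x (K * N) n : ℝ) ≤ A * n) →
      ∃ i ≤ K * N, (∃ k, 1 ≤ k ∧ k ≤ K * M ∧ G^[k] (G^[i] x) = G^[i] x) ∧
        ∀ j, |G^[j] (G^[i] x)| ≤ 2 ^ (K * M) := by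
  have : NeZero d := ⟨by omega⟩
  obtain ⟨T, h1, h2, h3, h4⟩ := dt_of hd hq (Nat.isCoprime_iff_coprime.2 hco) δ β
  have hmp := mp_of T h1 h2 h3 h4 hG
  obtain ⟨K, hK, h⟩ := enter bd_thm su_thm kp_thm T A
  refine ⟨2 * K, fun x M N hM hMN hx hcx => ?_⟩
  obtain ⟨i, hi, hz, hper, habs⟩ := h 1 (rs d) G hmp x M N hM hMN (by
      simp only [Int.cast_one, abs_one]
      exact Real.one_le_exp (by positivity)) (by
      refine le_trans ?_ (two_exp N)
      exact_mod_cast hx) (by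
      intro m hm1 hm2
      have h5 : K * N ≤ 2 * K * N := Nat.mul_le_mul_right N (by omega)
      refine le_trans ?_ (hcx m hm1 (by omega))
      exact_mod_cast wc_mono (wd (rs d) G x) h5 m)
  simp only [Int.cast_one, abs_one, Real.log_one, zero_add] at hper habs
  set z := G^[i] x with hzd
  set π := Function.minimalPeriod G z with hπ
  have hπ1 : 1 ≤ π := Function.minimalPeriod_pos_of_mem_periodicPts hz
  have hπK : π ≤ K * M := by exact_mod_cast hper
  have h5 : K * N ≤ 2 * K * N := Nat.mul_le_mul_right N (by omega)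
  have h6 : K * M ≤ 2 * K * M := Nat.mul_le_mul_right M (by omega)
  refine ⟨i, by omega, ⟨π, hπ1, by omega, Function.iterate_minimalPeriod⟩, fun k => ?_⟩
  have h7 := habs k
  have h8 : Real.exp ((K : ℝ) * M) ≤ ((2 ^ (2 * (K * M)) : ℕ) : ℝ) := by
    have := exp_two (K * M)
    push_cast at this ⊢
    exact this
  have h9 : |G^[k] z| ≤ 2 ^ (2 * (K * M)) := by exact_mod_cast h7.trans h8
  refine h9.trans (le_of_eq ?_)
  rw [mul_assoc]

/-- **Finitely many periodic points of linear complexity.** -/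
theorem fin (hd : 2 ≤ d) (hq : 2 ≤ q) (hco : Nat.Coprime q d)
    (hG : ∀ x : ℤ, (d : ℤ) * G x = (q : ℤ) ^ δ (x : ZMod d) * x + β (x : ZMod d)) (A : ℝ) :
    {x : ℤ | (∃ k, 1 ≤ k ∧ G^[k] x = x) ∧ ∀ n : ℕ, 1 ≤ n → (blkAll d G x n : ℝ) ≤ A * n}.Finite := by
  have : NeZero d := ⟨by omega⟩
  obtain ⟨K, h⟩ := all hd hq hco hG A
  refine (Set.finite_Icc (-(2 : ℤ) ^ K) (2 ^ K)).subset ?_
  rintro x ⟨⟨π, hπ, hx⟩, hcx⟩
  obtain ⟨N0, hN0⟩ : ∃ N0 : ℕ, |x| ≤ 2 ^ N0 := by
    refine ⟨x.natAbs, ?_⟩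
    have h1 : x.natAbs < 2 ^ x.natAbs := Nat.lt_two_pow_self
    have h2 : |x| = (x.natAbs : ℤ) := Int.abs_eq_natAbs x
    rw [h2]
    exact_mod_cast h1.le
  obtain ⟨i, hi, -, hb⟩ := h x 1 (N0 + 1) le_rfl (by omega)
    (hN0.trans (pow_le_pow_right₀ (by norm_num) (by omega))) (by
    intro n hn _
    refine le_trans ?_ (hcx n hn)
    have : blk d G x (K * (N0 + 1)) n ≤ blkAll d G x n := by
      unfold blk blkAll
      exact Set.ncard_le_ncard (Set.image_subset_range _ _) (Set.toFinite _)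
    exact_mod_cast this)
  -- `x` is in the cycle of `G^[i] x`
  have h1 : G^[π * i - i + i] x = x := by
    have h2 : i ≤ π * i := Nat.le_mul_of_pos_left i hπ
    rw [Nat.sub_add_cancel h2, Function.iterate_mul]
    exact Function.iterate_fixed hx i
  have h2 := hb (π * i - i)
  rw [← Function.iterate_add_apply, h1, mul_one] at h2
  exact abs_le.1 h2

/-! ## residue classes modulo powers of `d` -/

lemma ncard_dep {ι α β : Type*} [Finite β] (u : ι → α) (v : ι → β)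
    (h : ∀ i j, v i = v j → u i = u j) (S : Set ι) : (u '' S).ncard ≤ (v '' S).ncard := by
  classical
  rcases S.eq_empty_or_nonempty with h0 | ⟨i0, _⟩
  · simp [h0]
  set F : β → α := fun b => if hb : ∃ i, v i = b then u hb.choose else u i0 with hF
  have hsub : u '' S ⊆ F '' (v '' S) := by
    rintro _ ⟨i, hi, rfl⟩
    refine ⟨v i, ⟨i, hi, rfl⟩, ?_⟩
    have hb : ∃ j, v j = v i := ⟨i, rfl⟩
    simp only [hF]
    rw [dif_pos hb]
    exact h _ _ hb.choose_spec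
  exact (Set.ncard_le_ncard hsub (Set.toFinite _)).trans (Set.ncard_image_le (Set.toFinite _))

/-- the class modulo `d ^ n` determines the next `n` residues -/
lemma res_of_modEq (hd : 2 ≤ d)
    (hG : ∀ x : ℤ, (d : ℤ) * G x = (q : ℤ) ^ δ (x : ZMod d) * x + β (x : ZMod d)) (n : ℕ) :
    ∀ a b : ℤ, (d : ℤ) ^ n ∣ a - b → ∀ k < n, ((G^[k] a : ℤ) : ZMod d) = ((G^[k] b : ℤ) : ZMod d) := by
  induction n with
  | zero => intro a b _ k hk; omega
  | succ n ih =>
    intro a b hab k hk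
    have h0 : ((a : ℤ) : ZMod d) = ((b : ℤ) : ZMod d) := by
      rw [← sub_eq_zero, ← Int.cast_sub, ZMod.intCast_zmod_eq_zero_iff_dvd]
      exact (dvd_pow_self _ (by omega)).trans hab
    rcases Nat.eq_zero_or_pos k with h1 | h1
    · rw [h1]; exact h0
    · obtain ⟨k', rfl⟩ : ∃ k', k = k' + 1 := ⟨k - 1, by omega⟩
      rw [Function.iterate_succ_apply, Function.iterate_succ_apply]
      refine ih (G a) (G b) ?_ k' (by omega)
      have h2 := hG a
      have h3 := hG b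
      rw [h0] at h2
      have h4 : (d : ℤ) * (G a - G b) = (q : ℤ) ^ δ (b : ZMod d) * (a - b) := by
        linear_combination h2 - h3
      have h5 : (d : ℤ) ^ (n + 1) ∣ d * (G a - G b) := by
        rw [h4]; exact Dvd.dvd.mul_left hab _
      rw [pow_succ'] at h5
      have hd0 : (d : ℤ) ≠ 0 := by
        have : d ≠ 0 := by omega
        exact_mod_cast this
      exact (mul_dvd_mul_iff_left hd0).1 h5

/-- the number of residue classes modulo `d ^ n` which contain one of the first `h` terms -/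
noncomputable def cls (d : ℕ) (G : ℤ → ℤ) (x : ℤ) (h n : ℕ) : ℕ :=
  ((fun i : ℕ => ((G^[i] x : ℤ) : ZMod (d ^ n))) '' {i | i < h}).ncard

/-- the number of residue classes modulo `d ^ n` which contain a term of the orbit -/
noncomputable def clsAll (d : ℕ) (G : ℤ → ℤ) (x : ℤ) (n : ℕ) : ℕ :=
  (Set.range fun i : ℕ => ((G^[i] x : ℤ) : ZMod (d ^ n))).ncard

lemma blk_dep (hd : 2 ≤ d)
    (hG : ∀ x : ℤ, (d : ℤ) * G x = (q : ℤ) ^ δ (x : ZMod d) * x + β (x : ZMod d)) (x : ℤ) (n i j : ℕ)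
    (h : ((G^[i] x : ℤ) : ZMod (d ^ n)) = ((G^[j] x : ℤ) : ZMod (d ^ n))) :
    (fun l : Fin n => ((G^[i + l] x : ℤ) : ZMod d)) = fun l : Fin n => ((G^[j + l] x : ℤ) : ZMod d) := by
  funext l
  have h1 : (d : ℤ) ^ n ∣ G^[i] x - G^[j] x := by
    rw [← sub_eq_zero, ← Int.cast_sub, ZMod.intCast_zmod_eq_zero_iff_dvd] at h
    push_cast at h
    exact h
  have h2 := res_of_modEq hd hG n _ _ h1 l l.2
  rw [← Function.iterate_add_apply, ← Function.iterate_add_apply, add_comm (l : ℕ) i,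
    add_comm (l : ℕ) j] at h2
  exact h2

lemma blk_le_cls (hd : 2 ≤ d)
    (hG : ∀ x : ℤ, (d : ℤ) * G x = (q : ℤ) ^ δ (x : ZMod d) * x + β (x : ZMod d)) (x : ℤ) (h : ℕ)
    {n : ℕ} (hn : 1 ≤ n) : blk d G x h n ≤ cls d G x h n := by
  have : NeZero (d ^ n) := ⟨by have : 0 < d ^ n := Nat.pow_pos (by omega)
                               omega⟩
  unfold blk cls
  refine (ncard_dep _ (fun i : ℕ => ((G^[i] x : ℤ) : ZMod (d ^ n))) (blk_dep hd hG x n) _).trans ?_
  refine Set.ncard_le_ncard (Set.image_mono fun i hi => ?_) (Set.toFinite _)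
  simp only [Set.mem_ofPred_eq] at hi ⊢
  omega

lemma blkAll_le_clsAll (hd : 2 ≤ d)
    (hG : ∀ x : ℤ, (d : ℤ) * G x = (q : ℤ) ^ δ (x : ZMod d) * x + β (x : ZMod d)) (x : ℤ) (n : ℕ) :
    blkAll d G x n ≤ clsAll d G x n := by
  have : NeZero (d ^ n) := ⟨by have : 0 < d ^ n := Nat.pow_pos (by omega)
                               omega⟩
  unfold blkAll clsAll
  rw [← Set.image_univ, ← Set.image_univ]
  exact ncard_dep _ (fun i : ℕ => ((G^[i] x : ℤ) : ZMod (d ^ n))) (blk_dep hd hG x n) _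

/-- the recurrence for the maps of relatively prime type -/
lemma rec_of {d q : ℕ} (hd : 2 ≤ d) {m r : ℤ → ℤ}
    (s : ℤ → ℕ) (hm : ∀ i : ℤ, 0 ≤ i → i < d → m i = (q : ℤ) ^ s i)
    (hr : ∀ i : ℤ, 0 ≤ i → i < d → (d : ℤ) ∣ m i * i - r i) (x : ℤ) :
    (d : ℤ) * ((m (x % d) * x - r (x % d)) / d) =
      (q : ℤ) ^ (fun a : ZMod d => s (a.val : ℤ)) (x : ZMod d) * x +
        (fun a : ZMod d => -r (a.val : ℤ)) (x : ZMod d) := by
  have : NeZero d := ⟨by omega⟩
  have hd0 : (0 : ℤ) < d := by exact_mod_cast (by omega : 0 < d)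
  have h1 := Int.emod_nonneg x hd0.ne'
  have h2 := Int.emod_lt_of_pos x hd0
  have h3 : ((((x : ℤ) : ZMod d).val : ℕ) : ℤ) = x % d := ZMod.val_intCast x
  simp only
  rw [h3, ← hm _ h1 h2]
  have hdz : (d : ℤ) ∣ m (x % d) * x - r (x % d) := by
    have h4 : (d : ℤ) ∣ m (x % d) * (x - x % d) := Dvd.dvd.mul_left (Int.dvd_self_sub_emod) _
    have h5 := dvd_add (hr _ h1 h2) h4
    have h6 : m (x % d) * (x % d) - r (x % d) + m (x % d) * (x - x % d)
        = m (x % d) * x - r (x % d) := by ring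
    rwa [h6] at h5
  rw [Int.mul_ediv_cancel' hdz]
  ring

end Pool.Agent.TH932.S2.G.Gc
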