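import Mathlib
import Pool.Agent.TH932.S2.G.Gc

set_option autoImplicit false

/-!
# A criterion for unbounded orbits
-/

namespace Pool.Agent.TH932.S2.G.Gc

open Filter Topology Pool.Agent.TH932.Words Pool.Agent.TH932.S2

/-- periodic orbits have boundedly many blocks -/
lemma blk_le {d : ℕ} (hd : 2 ≤ d) {G : ℤ → ℤ} {x : ℤ} {i j : ℕ} (hij : i < j)
    (he : G^[i] x = G^[j] x) (h n : ℕ) : blk d G x h n ≤ j := by
  have : NeZero d := ⟨by omega⟩
  unfold blk
  have hsub : (fun i : ℕ => fun l : Fin n => ((G^[i + l] x : ℤ) : ZMod d)) '' {i | i + n ≤ h}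
      ⊆ (fun i : ℕ => fun l : Fin n => ((G^[i + l] x : ℤ) : ZMod d)) '' (Set.Iio j) := by
    rintro _ ⟨a, _, rfl⟩
    rcases Nat.lt_or_ge a j with h1 | h1
    · exact ⟨a, h1, rfl⟩
    · have hper : G^[j - i] (G^[i] x) = G^[i] x := by
        rw [← Function.iterate_add_apply, Nat.sub_add_cancel hij.le]
        exact he.symm
      refine ⟨(a - i) % (j - i) + i, ?_, ?_⟩
      · have : (a - i) % (j - i) < j - i := Nat.mod_lt _ (by omega)
        simp only [Set.mem_Iio]
        omega
      · funext l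
        simp only
        congr 1
        have h2 := Pool.Agent.TH932.S2.F.iter_per hper (a - i)
        have e1 : G^[a] x = G^[(a - i) % (j - i) + i] x := by
          rw [Function.iterate_add_apply _ _ i, ← h2, ← Function.iterate_add_apply,
            Nat.sub_add_cancel (by omega : i ≤ a)]
        rw [add_comm _ (l : ℕ), add_comm a (l : ℕ), Function.iterate_add_apply,
          Function.iterate_add_apply _ _ a, e1]
  refine (Set.ncard_le_ncard hsub (Set.toFinite _)).trans ?_
  refine (Set.ncard_image_le (Set.toFinite _)).trans ?_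
  rw [Set.ncard_eq_toFinset_card']
  simp

/-- **The criterion.** -/
theorem crit {d q : ℕ} {δ : ZMod d → ℕ} {β : ZMod d → ℤ} {G : ℤ → ℤ}
    (hd : 2 ≤ d) (hq : 2 ≤ q) (hco : Nat.Coprime q d)
    (hG : ∀ x : ℤ, (d : ℤ) * G x = (q : ℤ) ^ δ (x : ZMod d) * x + β (x : ZMod d))
    (A : ℝ) (hA : 0 < A) : ∃ K : ℕ, ∀ (x : ℤ) (N₀ : ℕ), K ≤ N₀ → |x| ≤ 2 ^ N₀ →
      ((∀ R : ℤ, ∃ k, R < |G^[k] x|) ↔ ∀ N : ℕ, N₀ ≤ N → A * N < blk d G x (N ^ K) N) := by
  obtain ⟨K, hK⟩ := one hd hq hco hG A
  refine ⟨K, fun x N₀ hN0 hx => ⟨fun hdiv N hN => ?_, fun hcx R => ?_⟩⟩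
  · by_contra hcon
    push Not at hcon
    obtain ⟨-, hb⟩ := hK x N (hN0.trans hN) (hx.trans (pow_le_pow_right₀ (by norm_num) hN)) hcon
    obtain ⟨k, hk⟩ := hdiv (2 ^ (K * N))
    have := hb k
    omega
  · by_contra hcon
    push Not at hcon
    obtain ⟨i, j, hij, he⟩ : ∃ i j : ℕ, i < j ∧ G^[i] x = G^[j] x := by
      by_contra hne
      push Not at hne
      have hinj : Function.Injective fun k : ℕ => G^[k] x := by
        intro a b hab
        rcases lt_trichotomy a b with h | h | h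
        · exact absurd hab (hne a b h)
        · exact h
        · exact absurd hab.symm (hne b a h)
      have hfin : (Set.range fun k : ℕ => G^[k] x).Finite := by
        refine (Set.finite_Icc (-R) R).subset ?_
        rintro _ ⟨k, rfl⟩
        exact abs_le.1 (hcon k)
      exact Set.infinite_range_of_injective hinj hfin
    obtain ⟨N1, hN1⟩ := exists_nat_ge ((j : ℝ) / A)
    have h1 := hcx (max N₀ N1) (le_max_left _ _)
    have h3 : (blk d G x ((max N₀ N1) ^ K) (max N₀ N1) : ℝ) ≤ j := by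
      exact_mod_cast blk_le hd hij he _ _
    have h4 : (j : ℝ) ≤ A * (max N₀ N1 : ℕ) := by
      rw [div_le_iff₀ hA] at hN1
      have h5 : (N1 : ℝ) ≤ (max N₀ N1 : ℕ) := by exact_mod_cast le_max_right N₀ N1
      nlinarith
    linarith

end Pool.Agent.TH932.S2.G.Gc
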