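import Mathlib
import Pool.Agent.TH932.S2.All
import Pool.Agent.TH932.S2.F.Fin
import Pool.Agent.TH932.S2.G.Ss

set_option autoImplicit false

/-!
# The Collatz map: one scale
-/

namespace Pool.Agent.TH932.S2.G.Col

open Filter Topology Pool.Agent.TH932.Words Pool.Agent.TH932.S2
open Pool.Agent.TH932.S2.F

/-- the Collatz map on the integers -/
def C (x : ℤ) : ℤ := if x % 2 = 0 then x / 2 else 3 * x + 1

/-- the number of different blocks of `n` consecutive parities among the first `H` terms of the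
trajectory of `x` -/
noncomputable def blocksUpTo (x : ℤ) (H n : ℕ) : ℕ :=
  ((fun i : ℕ => fun j : Fin n => ((C^[i + j] x : ℤ) : ZMod 2)) '' {i | i + n ≤ H}).ncard

/-- times of the shortened trajectory -/
def ph (x : ℤ) : ℕ → ℕ
  | 0 => 0
  | k + 1 => ph x k + (if C^[ph x k] x % 2 = 0 then 1 else 2)

/-- the shortened trajectory -/
def yy (x : ℤ) (k : ℕ) : ℤ := C^[ph x k] x

/-- its parities -/
def ww (x : ℤ) (k : ℕ) : ZMod 2 := ((yy x k : ℤ) : ZMod 2)

lemma par_odd {a : ℤ} : ((a : ℤ) : ZMod 2) = 1 ↔ a % 2 = 1 := by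
  have h1 : (1 : ZMod 2) = ((1 : ℤ) : ZMod 2) := by simp
  rw [h1, ZMod.intCast_eq_intCast_iff, Int.ModEq]
  norm_num

lemma ph_even {x : ℤ} {k : ℕ} (h : yy x k % 2 = 0) : ph x (k + 1) = ph x k + 1 := by
  have h' : C^[ph x k] x % 2 = 0 := h
  rw [ph, if_pos h']

lemma ph_odd {x : ℤ} {k : ℕ} (h : yy x k % 2 = 1) : ph x (k + 1) = ph x k + 2 := by
  have h' : ¬ C^[ph x k] x % 2 = 0 := by
    have : C^[ph x k] x % 2 = 1 := h
    omega
  rw [ph, if_neg h']

lemma yy_even {x : ℤ} {k : ℕ} (h : yy x k % 2 = 0) : 2 * yy x (k + 1) = yy x k := by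
  have e : yy x (k + 1) = C (yy x k) := by
    unfold yy
    rw [ph_even h, Function.iterate_succ_apply']
  rw [e, C, if_pos h]
  omega

lemma yy_odd {x : ℤ} {k : ℕ} (h : yy x k % 2 = 1) : 2 * yy x (k + 1) = 3 * yy x k + 1 := by
  have e : yy x (k + 1) = C (C (yy x k)) := by
    unfold yy
    rw [ph_odd h, Function.iterate_succ_apply', Function.iterate_succ_apply']
  have e1 : C (yy x k) = 3 * yy x k + 1 := by rw [C, if_neg (by omega)]
  rw [e, e1, C, if_pos (by omega)]
  omega

/-- exponents -/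
def dl (a : ZMod 2) : ℕ := if a = 1 then 1 else 0

lemma ph_lt (x : ℤ) (k : ℕ) : ph x k < ph x (k + 1) := by
  rcases Int.emod_two_eq_zero_or_one (yy x k) with h | h
  · rw [ph_even h]; omega
  · rw [ph_odd h]; omega

lemma ph_ge (x : ℤ) (k : ℕ) : k ≤ ph x k := by
  induction k with
  | zero => exact Nat.zero_le _
  | succ k ih => have := ph_lt x k; omega

lemma ph_le (x : ℤ) (k : ℕ) : ph x k ≤ 2 * k := by
  induction k with
  | zero => exact le_rfl
  | succ k ih =>
    rcases Int.emod_two_eq_zero_or_one (yy x k) with h | h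
    · rw [ph_even h]; omega
    · rw [ph_odd h]; omega

/-- the parities of the shortened trajectory are read off from the parities of the trajectory -/
lemma decode (x : ℤ) {n i j : ℕ}
    (h : Eqv (fun k => ((C^[k] x : ℤ) : ZMod 2)) (2 * n) (ph x i) (ph x j)) :
    Eqv (ww x) n i j := by
  have key : ∀ m, m ≤ n → ∃ d, d ≤ 2 * m ∧ ph x (i + m) = ph x i + d ∧ ph x (j + m) = ph x j + d := by
    intro m
    induction m with
    | zero => intro _; exact ⟨0, le_rfl, rfl, rfl⟩
    | succ m ih =>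
      intro hm
      obtain ⟨d, hd, h1, h2⟩ := ih (by omega)
      have h3 := h d (by omega)
      simp only at h3
      rw [← h1, ← h2] at h3
      have h4 : yy x (i + m) % 2 = yy x (j + m) % 2 := by
        have h3' : ((yy x (i + m) : ℤ) : ZMod 2) = ((yy x (j + m) : ℤ) : ZMod 2) := h3
        rw [ZMod.intCast_eq_intCast_iff] at h3'
        exact_mod_cast h3'
      rcases Int.emod_two_eq_zero_or_one (yy x (i + m)) with h5 | h5
      · refine ⟨d + 1, by omega, ?_, ?_⟩
        · rw [← add_assoc, ph_even h5, h1]; ring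
        · rw [← add_assoc, ph_even (h4 ▸ h5), h2]; ring
      · refine ⟨d + 2, by omega, ?_, ?_⟩
        · rw [← add_assoc, ph_odd h5, h1]; ring
        · rw [← add_assoc, ph_odd (h4 ▸ h5), h2]; ring
  intro m hm
  obtain ⟨d, hd, h1, h2⟩ := key m hm.le
  have h3 := h d (by omega)
  simp only at h3
  rw [← h1, ← h2] at h3
  exact h3

/-! ## the shortened map -/

/-- the shortened map -/
def G (y : ℤ) : ℤ := if y % 2 = 0 then y / 2 else (3 * y + 1) / 2

/-- the affine maps -/
def T : Dt (ZMod 2) where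
  p := 2
  q := 3
  M := 3
  δ := dl
  β := fun a => (dl a : ℤ)
  hp := le_rfl
  hq := by norm_num
  hpq := by norm_num [Int.isCoprime_iff_gcd_eq_one]
  hpM := by norm_num
  hqM := by intro a; unfold dl; split_ifs <;> norm_num
  hβM := by intro a; unfold dl; split_ifs <;> norm_num

/-- parities -/
def f (y : ℤ) : ZMod 2 := ((y : ℤ) : ZMod 2)

lemma mp : Mp T 1 f G where
  hd := isCoprime_one_left
  hG := by
    intro y
    change ((2 : ℕ) : ℤ) * G y = ((3 : ℕ) : ℤ) ^ dl (f y) * y + 1 * (dl (f y) : ℤ)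
    rcases Int.emod_two_eq_zero_or_one y with h1 | h1
    · have hw : dl (f y) = 0 := by
        unfold dl
        rw [if_neg]
        unfold f
        rw [par_odd]; omega
      rw [hw, G, if_pos h1]
      push_cast
      omega
    · have hw : dl (f y) = 1 := by
        unfold dl
        rw [if_pos]
        unfold f
        rw [par_odd]; exact h1
      rw [hw, G, if_neg (by omega)]
      push_cast
      omega

lemma G_iter (x : ℤ) (k : ℕ) : G^[k] x = yy x k := by
  induction k with
  | zero => rfl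
  | succ k ih =>
    rw [Function.iterate_succ_apply', ih]
    rcases Int.emod_two_eq_zero_or_one (yy x k) with h1 | h1
    · have := yy_even h1
      rw [G, if_pos h1]; omega
    · have := yy_odd h1
      rw [G, if_neg (by omega)]; omega

lemma wd_eq (x : ℤ) : wd f G x = ww x := by
  funext k
  unfold wd ww f
  rw [G_iter]

/-- if the factor of `w` at `i` is determined by the factor of `u` at `φ i`, then `w` has at most
as many factors as `u`, in windows -/
lemma wc_le_of_dep {α β : Type*} [Finite β] {w : ℕ → α} {u : ℕ → β} {n m H H' : ℕ} (φ : ℕ → ℕ)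
    (hφ : ∀ i, i + n ≤ H → φ i + m ≤ H')
    (h : ∀ i j, Eqv u m (φ i) (φ j) → Eqv w n i j) : wc w H n ≤ wc u H' m := by
  classical
  set F : (Fin m → β) → (Fin n → α) := fun v =>
    if hv : ∃ i, fac u m (φ i) = v then fac w n hv.choose else fac w n 0 with hF
  have hsub : (fun i => fac w n i) '' {i | i + n ≤ H}
      ⊆ F '' ((fun i => fac u m i) '' {i | i + m ≤ H'}) := by
    rintro _ ⟨i, hi, rfl⟩
    refine ⟨fac u m (φ i), ⟨φ i, hφ i hi, rfl⟩, ?_⟩
    have hv : ∃ j, fac u m (φ j) = fac u m (φ i) := ⟨i, rfl⟩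
    simp only [hF]
    rw [dif_pos hv]
    exact fac_eq.2 (h _ _ (fac_eq.1 hv.choose_spec))
  unfold wc
  exact (Set.ncard_le_ncard hsub (Set.toFinite _)).trans (Set.ncard_image_le (Set.toFinite _))

/-- the iterates of the Collatz map are those of the shortened map and their successors -/
lemma C_iter (z : ℤ) (j : ℕ) : ∃ k, C^[j] z = G^[k] z ∨
    (G^[k] z % 2 = 1 ∧ C^[j] z = 3 * G^[k] z + 1) := by
  induction j with
  | zero => exact ⟨0, Or.inl rfl⟩
  | succ j ih =>
    obtain ⟨k, h | ⟨h1, h2⟩⟩ := ih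
    · rcases Int.emod_two_eq_zero_or_one (G^[k] z) with h1 | h1
      · refine ⟨k + 1, Or.inl ?_⟩
        rw [Function.iterate_succ_apply', Function.iterate_succ_apply', h, C, if_pos h1, G,
          if_pos h1]
      · refine ⟨k, Or.inr ⟨h1, ?_⟩⟩
        rw [Function.iterate_succ_apply', h, C, if_neg (by omega)]
    · refine ⟨k + 1, Or.inl ?_⟩
      rw [Function.iterate_succ_apply', Function.iterate_succ_apply', h2, C, if_pos (by omega), G,
        if_neg (by omega)]

/-- One scale: for every `A` there is `K` such that, for all `N ≥ K` and `|x| ≤ 2 ^ N`: if at most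
`A N` different blocks of `N` consecutive parities occur among the first `N ^ K` terms of the
trajectory of `x`, then the trajectory reaches, after at most `N ^ K` steps, a cycle of length at
most `N ^ K`, and all its terms have absolute value at most `2 ^ (K N)`. -/
theorem one_scale (A : ℝ) : ∃ K : ℕ, ∀ (x : ℤ) (N : ℕ), K ≤ N → |x| ≤ 2 ^ N →
    (blocksUpTo x (N ^ K) N : ℝ) ≤ A * N →
    (∃ i ≤ N ^ K, ∃ k, 1 ≤ k ∧ k ≤ N ^ K ∧ C^[k] (C^[i] x) = C^[i] x) ∧
      ∀ j, |C^[j] x| ≤ 2 ^ (K * N) := by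
  obtain ⟨K, hK, h⟩ := Pool.Agent.TH932.S2.G.single_map T (3 * |A|) 0 3
  refine ⟨2 * K + 4, fun x N hN hx hcx => ?_⟩
  set K' := 2 * K + 4 with hK'
  set n := N / 2 with hn
  have hn1 : K ≤ n := by omega
  have hn2 : 2 * n ≤ N := by omega
  have hn3 : N ≤ 3 * n := by omega
  have hn4 : N ≤ 2 * n + 1 := by omega
  have hpow : 4 * n ^ K + 4 ≤ N ^ K' := by
    have h1 : n ^ K ≤ N ^ K := Nat.pow_le_pow_left (by omega) K
    have h2 : N ^ K * N ^ 2 ≤ N ^ K' := by
      rw [← pow_add]
      exact Nat.pow_le_pow_right (by omega) (by omega)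
    have h3 : 16 ≤ N ^ 2 := by
      have : 4 ≤ N := by omega
      calc 16 = 4 ^ 2 := by norm_num
        _ ≤ N ^ 2 := Nat.pow_le_pow_left this 2
    have h4 : 1 ≤ N ^ K := Nat.one_le_pow _ _ (by omega)
    have h5 : N ^ K * 16 ≤ N ^ K * N ^ 2 := Nat.mul_le_mul_left _ h3
    omega
  obtain ⟨i, j, hij, hj, he, hb⟩ := h n hn1 1 f G mp (by simp) x (by
      have h1 : |(x : ℝ)| ≤ 2 ^ N := by exact_mod_cast hx
      refine h1.trans ?_
      have h2 : (2 : ℝ) ≤ Real.exp 1 := by
        have := Real.add_one_le_exp (1 : ℝ)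
        linarith
      have h3 : (N : ℝ) ≤ 3 * n := by exact_mod_cast hn3
      calc (2 : ℝ) ^ N ≤ Real.exp 1 ^ N := by gcongr
        _ = Real.exp N := by rw [← Real.exp_nat_mul, mul_one]
        _ ≤ Real.exp (3 * n) := Real.exp_le_exp.2 h3) (by
      have h1 : wc (wd f G x) (n ^ K) n ≤ blocksUpTo x (N ^ K') N := by
        rw [wd_eq]
        refine wc_le_of_dep (u := fun k => ((C^[k] x : ℤ) : ZMod 2)) (ph x) (fun i hi => ?_)
          (fun i j hij => decode x (hij.mono hn2))
        have := ph_le x i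
        omega
      have h2 : (wc (wd f G x) (n ^ K) n : ℝ) ≤ blocksUpTo x (N ^ K') N := by exact_mod_cast h1
      have h3 : A * (N : ℝ) ≤ |A| * (3 * n) := by
        have h4 := le_abs_self A
        have h5 : (N : ℝ) ≤ 3 * n := by exact_mod_cast hn3
        calc A * (N : ℝ) ≤ |A| * N := by gcongr
          _ ≤ |A| * (3 * n) := by gcongr
      linarith)
  set z := G^[i] x with hz
  have hzC : C^[ph x i] x = z := (G_iter x i).symm
  have hzπ : G^[j - i] z = z := by
    rw [hz, ← Function.iterate_add_apply, Nat.sub_add_cancel hij.le]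
    exact he.symm
  refine ⟨⟨ph x i, ?_, ph z (j - i), ?_, ?_, ?_⟩, ?_⟩
  · have := ph_le x i
    omega
  · have := ph_ge z (j - i)
    omega
  · have := ph_le z (j - i)
    omega
  · rw [hzC]
    have : yy z (j - i) = z := by rw [← G_iter]; exact hzπ
    exact this
  · intro l
    have hbb : ∀ k, |G^[k] x| ≤ 2 ^ (2 * (K * n)) := by
      intro k
      have h1 := hb k
      have h2 : Real.exp ((K : ℝ) * n) ≤ ((2 ^ (2 * (K * n)) : ℕ) : ℝ) := by
        have h3 : Real.exp 1 ≤ 4 := by
          have := Real.exp_one_lt_d9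
          linarith
        calc Real.exp ((K : ℝ) * n) = Real.exp 1 ^ (K * n) := by
              rw [← Real.exp_nat_mul]; push_cast; ring_nf
          _ ≤ 4 ^ (K * n) := by gcongr
          _ = ((2 ^ (2 * (K * n)) : ℕ) : ℝ) := by
              rw [pow_mul 2 2 (K * n)]; norm_num
      exact_mod_cast h1.trans h2
    have hKn : 2 * (K * n) + 2 ≤ K' * N := by
      have h1 : K * n ≤ K * N := Nat.mul_le_mul_left _ (by omega)
      have h2 : K' * N = 2 * (K * N) + 4 * N := by rw [hK']; ring
      omega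
    have h4 : (4 : ℤ) * 2 ^ (2 * (K * n)) ≤ 2 ^ (K' * N) := by
      have : (4 : ℤ) * 2 ^ (2 * (K * n)) = 2 ^ (2 * (K * n) + 2) := by ring
      rw [this]
      exact pow_le_pow_right₀ (by norm_num) hKn
    have h5 : (1 : ℤ) ≤ 2 ^ (2 * (K * n)) := one_le_pow₀ (by norm_num)
    obtain ⟨k, h1 | ⟨_, h1⟩⟩ := C_iter x l
    · rw [h1]
      have := hbb k
      omega
    · rw [h1]
      have h2 := hbb k
      have h3 : |3 * G^[k] x + 1| ≤ 3 * |G^[k] x| + 1 := by
        refine (abs_add_le _ _).trans ?_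
        rw [abs_mul, abs_one]
        norm_num
      omega


/-! ## natural numbers -/

/-- the Collatz map on the natural numbers -/
def Cn (n : ℕ) : ℕ := if n % 2 = 0 then n / 2 else 3 * n + 1

lemma Cn_iter (n k : ℕ) : ((Cn^[k] n : ℕ) : ℤ) = C^[k] (n : ℤ) := by
  induction k with
  | zero => rfl
  | succ k ih =>
    rw [Function.iterate_succ_apply', Function.iterate_succ_apply', ← ih]
    rcases Nat.mod_two_eq_zero_or_one (Cn^[k] n) with h | h
    · rw [Cn, if_pos h, C, if_pos (by omega)]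
      push_cast
      rfl
    · rw [Cn, if_neg (by omega), C, if_neg (by omega)]
      push_cast
      rfl

/-- the number of different blocks of `N` consecutive parities among the `H` terms of the
trajectory of `n` beginning with the `t`-th -/
noncomputable def blocksIn (n t H N : ℕ) : ℕ :=
  ((fun i : ℕ => fun j : Fin N => Cn^[t + i + j] n % 2) '' {i | i + N ≤ H}).ncard

lemma blocksIn_eq (n t H N : ℕ) : blocksUpTo ((Cn^[t] n : ℕ) : ℤ) H N ≤ blocksIn n t H N := by
  unfold blocksUpTo blocksIn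
  have e : (fun i : ℕ => fun j : Fin N => ((C^[i + j] ((Cn^[t] n : ℕ) : ℤ) : ℤ) : ZMod 2)) =
      (fun v : Fin N → ℕ => fun j => ((v j : ℕ) : ZMod 2)) ∘
        (fun i : ℕ => fun j : Fin N => Cn^[t + i + j] n % 2) := by
    funext i j
    simp only [Function.comp_apply]
    rw [Cn_iter, ← Function.iterate_add_apply, ← Cn_iter, ZMod.natCast_mod, Int.cast_natCast]
    congr 2
    rw [show i + (j : ℕ) + t = t + i + j by ring]
  rw [e, Set.image_comp]
  apply Set.ncard_image_le
  apply Set.Finite.subset (Set.finite_univ.image (fun v : Fin N → Fin 2 => fun j => ((v j : Fin 2) : ℕ)))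
  rintro _ ⟨i, _, rfl⟩
  exact ⟨fun j => ⟨Cn^[t + i + j] n % 2, Nat.mod_lt _ (by norm_num)⟩, trivial, rfl⟩

lemma iter_one (j : ℕ) : Cn^[j] 1 = 1 ∨ Cn^[j] 1 = 2 ∨ Cn^[j] 1 = 4 := by
  induction j with
  | zero => exact Or.inl rfl
  | succ j ih =>
    rw [Function.iterate_succ_apply']
    rcases ih with h | h | h <;> rw [h]
    · right; right; rfl
    · left; rfl
    · right; left; rfl

/-- periodic points with `1` in the trajectory -/
lemma per_one {z k r : ℕ} (hk : 1 ≤ k) (hz : Cn^[k] z = z) (hr : Cn^[r] z = 1) :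
    z = 1 ∨ z = 2 ∨ z = 4 := by
  have h1 : Cn^[k * r] z = z := by
    rw [Function.iterate_mul]
    exact Function.iterate_fixed hz r
  have h2 : r ≤ k * r := Nat.le_mul_of_pos_left r hk
  have h3 : Cn^[k * r] z = Cn^[k * r - r] 1 := by
    rw [← hr, ← Function.iterate_add_apply, Nat.sub_add_cancel h2]
  rw [h1] at h3
  rw [h3]
  exact iter_one _

/-- **One scale, on the natural numbers.** -/
theorem one_scale_nat (A : ℝ) : ∃ K : ℕ, ∀ (n t N : ℕ), K ≤ N → Cn^[t] n ≤ 2 ^ N →
    (blocksIn n t (N ^ K) N : ℝ) ≤ A * N →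
    (∃ i k, t ≤ i ∧ i ≤ t + N ^ K ∧ 1 ≤ k ∧ k ≤ N ^ K ∧ Cn^[k] (Cn^[i] n) = Cn^[i] n) ∧
      ∀ j, t ≤ j → Cn^[j] n ≤ 2 ^ (K * N) := by
  obtain ⟨K, h⟩ := one_scale A
  refine ⟨K, fun n t N hN hx hcx => ?_⟩
  obtain ⟨⟨i, hi, k, hk1, hk2, hk⟩, hb⟩ := h ((Cn^[t] n : ℕ) : ℤ) N hN (by
    rw [abs_of_nonneg (by positivity)]
    exact_mod_cast hx) (by
    refine le_trans ?_ hcx
    exact_mod_cast blocksIn_eq n t (N ^ K) N)
  refine ⟨⟨t + i, k, by omega, by omega, hk1, hk2, ?_⟩, fun j hj => ?_⟩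
  · rw [← Cn_iter, ← Cn_iter, ← Function.iterate_add_apply, ← Function.iterate_add_apply,
      ← Function.iterate_add_apply] at hk
    have h1 : Cn^[k + i + t] n = Cn^[i + t] n := by exact_mod_cast hk
    rw [← Function.iterate_add_apply]
    rw [show k + (t + i) = k + i + t by ring, show t + i = i + t by ring]
    exact h1
  · have h1 := hb (j - t)
    rw [← Cn_iter, ← Function.iterate_add_apply, Nat.sub_add_cancel hj,
      abs_of_nonneg (by positivity)] at h1
    exact_mod_cast h1

end Pool.Agent.TH932.S2.G.Col
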