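import Mathlib
import Pool.Agent.TH932.S2.All
import Pool.Agent.TH932.S2.F.Fin
import Pool.Agent.TH932.S2.G.Win

set_option autoImplicit false

/-!
# Orbits which stay above their first term, in windows
-/

namespace Pool.Agent.TH932.S2.G

open Filter Topology Pool.Agent.TH932.Words Pool.Agent.TH932.S2.F

variable {α : Type*}

/-- **Segments of orbits which stay above their first term** have superlinear complexity at all
scales between `δ log n` and `κ log n`. -/
theorem stay_fin [Finite α] (T : Dt α) (A : ℝ) : ∃ κ : ℝ, 0 < κ ∧ ∀ δ : ℝ, 0 < δ →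
    ∃ K0 K : ℕ, 1 ≤ K0 ∧ ∀ (f : ℤ → α) (G : ℤ → ℤ), Mp T 1 f G → ∀ n : ℤ, (K : ℤ) < |n| →
    ∀ N : ℕ, δ * Real.log |(n : ℝ)| ≤ N → N ≤ κ * Real.log |(n : ℝ)| →
    (∀ t ≤ K0 * N, |n| ≤ |G^[t] n|) →
    A * N < wc (wd f G n) (K0 * N) N := by
  obtain ⟨B, hB, hwin⟩ := window T A 0
  refine ⟨1 / (2 * B), by positivity, fun δ hδ => ?_⟩
  obtain ⟨K0, hK01, hK0⟩ := hwin (1 / δ)
  have hK0r : (1 : ℝ) ≤ K0 := by exact_mod_cast hK01
  -- cycles
  obtain ⟨n0, hsmall⟩ := small su_thm kp_thm T (ε := B / K0) (by positivity)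
  obtain ⟨K1, hK1⟩ := exists_nat_ge (Real.exp ((K0 + 1) / δ))
  set K : ℕ := K0 + K1 + (2 * T.M) ^ n0 + 2 with hK
  refine ⟨K0, K, hK01, fun f G hG n hn N hN1 hN2 hst => ?_⟩
  have hnR : (K : ℝ) < |(n : ℝ)| := by exact_mod_cast hn
  have hKR : ((K0 + K1 + (2 * T.M) ^ n0 + 2 : ℕ) : ℝ) ≤ K := le_rfl
  push_cast at hKR
  have hM0 : (0 : ℝ) ≤ (2 * (T.M : ℝ)) ^ n0 := by positivity
  have hK00 : (0 : ℝ) ≤ K0 := by positivity
  have hK10 : (0 : ℝ) ≤ K1 := by positivity
  have hn1 : 1 < |(n : ℝ)| := by linarith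
  have hn0 : 0 < |(n : ℝ)| := by linarith
  have hlog : (K0 + 1) / δ ≤ Real.log |(n : ℝ)| := by
    rw [Real.le_log_iff_exp_le hn0]
    linarith
  have hlog0 : 0 < Real.log |(n : ℝ)| := Real.log_pos hn1
  have hNK : K0 ≤ N := by
    have h1 : ((K0 : ℕ) : ℝ) ≤ N := by
      refine le_trans ?_ hN1
      rw [div_le_iff₀ hδ] at hlog
      linarith
    exact_mod_cast h1
  have hbN : B * N ≤ Real.log |(n : ℝ)| / 2 := by
    calc B * N ≤ B * (1 / (2 * B) * Real.log |(n : ℝ)|) := by gcongr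
      _ = Real.log |(n : ℝ)| / 2 := by field_simp
  have hhalf : Real.exp (Real.log |(n : ℝ)| / 2) < |(n : ℝ)| := by
    calc Real.exp (Real.log |(n : ℝ)| / 2) < Real.exp (Real.log |(n : ℝ)|) :=
          Real.exp_lt_exp.2 (by linarith)
      _ = |(n : ℝ)| := Real.exp_log hn0
  have hge : ∀ t ≤ K0 * N, |(n : ℝ)| ≤ |((G^[t] n : ℤ) : ℝ)| := fun t ht => by
    exact_mod_cast hst t ht
  by_contra hcx
  push Not at hcx
  by_cases hinj : ∀ i j, i < j → j ≤ K0 * N → G^[i] n ≠ G^[j] n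
  · obtain ⟨k, _, hk2, hk⟩ := hK0 N hNK (wd f G n) (fun k => G^[k] n) 1 isCoprime_one_left
      (by simp) (fun k _ => by
        rw [Function.iterate_succ_apply', hG.hG]
        rfl) (by
        have h1 : |((n : ℤ) : ℝ)| = Real.exp (Real.log |(n : ℝ)|) := (Real.exp_log hn0).symm
        change |((n : ℤ) : ℝ)| ≤ _
        rw [h1]
        apply Real.exp_le_exp.2
        rw [div_mul_eq_mul_div, one_mul, le_div_iff₀ hδ]
        linarith) hcx hinj
    have h2 := hge k hk2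
    have h3 : Real.exp (B * N) ≤ Real.exp (Real.log |(n : ℝ)| / 2) := Real.exp_le_exp.2 hbN
    linarith
  · push Not at hinj
    obtain ⟨i, j, hij, hj, he⟩ := hinj
    set z := G^[i] n with hz
    have hzπ : G^[j - i] z = z := by
      rw [hz, ← Function.iterate_add_apply, Nat.sub_add_cancel hij.le]
      exact he.symm
    have hzge : ∀ t ≤ j - i, |(n : ℝ)| ≤ |((G^[t] z : ℤ) : ℝ)| := fun t ht => by
      rw [hz, ← Function.iterate_add_apply]
      exact hge _ (by omega)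
    rcases Nat.lt_or_ge (j - i) n0 with h1 | h1
    · have h2 := per_bound hG (by omega : 1 ≤ j - i) hzπ
      have h3 : |(z : ℝ)| ≤ (2 * (T.M : ℝ)) ^ (j - i) := by
        rw [abs_one, one_mul] at h2
        exact_mod_cast h2
      have hMr : (1 : ℝ) ≤ T.M := by exact_mod_cast T.hM1
      have h4 : (2 * (T.M : ℝ)) ^ (j - i) ≤ (2 * (T.M : ℝ)) ^ n0 :=
        pow_le_pow_right₀ (by linarith) h1.le
      have h5 := hzge 0 (by omega)
      simp only [Function.iterate_zero, id_eq] at h5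
      linarith
    · obtain ⟨k, hk', hk⟩ := hsmall 1 f G hG z (j - i) h1 hzπ
      have h2 := hzge k hk'
      have h3 : B / K0 * ((j - i : ℕ) : ℝ) ≤ Real.log |(n : ℝ)| / 2 := by
        have h4 : ((j - i : ℕ) : ℝ) ≤ K0 * N := by exact_mod_cast (by omega : j - i ≤ K0 * N)
        calc B / K0 * ((j - i : ℕ) : ℝ) ≤ B / K0 * (K0 * N) := by gcongr
          _ = B * N := by field_simp
          _ ≤ _ := hbN
      rw [Int.cast_one, abs_one, one_mul] at hk
      have h4 : Real.exp (B / K0 * ((j - i : ℕ) : ℝ)) ≤ Real.exp (Real.log |(n : ℝ)| / 2) :=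
        Real.exp_le_exp.2 h3
      linarith

end Pool.Agent.TH932.S2.G
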