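import Mathlib
import Pool.Agent.TH932.S2.G.Ss

set_option autoImplicit false

/-!
# Orbits of exponential growth
-/

namespace Pool.Agent.TH932.S2.G

open Filter Topology Pool.Agent.TH932.Words Pool.Agent.TH932.S2.F

variable {α : Type*}

/-- **Orbits of exponential growth**: the initial segment of length `K N` of the word has more than
`C N` different factors of length `N`. -/
theorem incr [Finite α] {p q : ℕ} (hp : 2 ≤ p) (hq : 2 ≤ q)
    (hpq : IsCoprime (q : ℤ) (p : ℤ)) (δ : α → ℕ) (β : α → ℤ) (C : ℝ) {ρ : ℝ} (hρ : 1 < ρ) :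
    ∃ K : ℕ, 1 ≤ K ∧ ∀ N : ℕ, K ≤ N → ∀ (w : ℕ → α) (y : ℕ → ℤ),
      (∀ k, (p : ℤ) * y (k + 1) = (q : ℤ) ^ δ (w k) * y k + β (w k)) → Function.Injective y →
      |(y 0 : ℝ)| ≤ Real.exp N → (∀ k, ρ ^ k ≤ |(y k : ℝ)| + 1) →
      C * N < wc w (K * N) N := by
  obtain ⟨T, rfl, rfl, rfl, rfl⟩ := dt_of hp hq hpq δ β
  obtain ⟨B, hB, hwin⟩ := window T C 0
  set B' : ℝ := max B 1 with hB'
  have hB1 : B ≤ B' := le_max_left _ _
  have hB2 : 1 ≤ B' := le_max_right _ _
  obtain ⟨K0, hK01, hK0⟩ := hwin B'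
  have hlρ : 0 < Real.log ρ := Real.log_pos hρ
  obtain ⟨K1, hK1⟩ := exists_nat_ge ((B' + 1) / Real.log ρ)
  refine ⟨K0 + K1, by omega, fun N hN w y hrec hinj h0 hgr => ?_⟩
  have hN1 : (1 : ℝ) ≤ N := by exact_mod_cast (by omega : 1 ≤ N)
  have h0' : |(y 0 : ℝ)| ≤ Real.exp (B' * N) := by
    refine h0.trans (Real.exp_le_exp.2 ?_)
    nlinarith
  obtain ⟨t, ht1, ht2⟩ := exists_last hinj _ h0'
  have htN : t ≤ K1 * N := by
    have h1 : ρ ^ t ≤ Real.exp ((B' + 1) * N) := by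
      have h2 : (1 : ℝ) ≤ Real.exp (B' * N) := Real.one_le_exp (by positivity)
      have h3 : (2 : ℝ) ≤ Real.exp N := by
        have := Real.add_one_le_exp (N : ℝ)
        linarith
      calc ρ ^ t ≤ |(y t : ℝ)| + 1 := hgr t
        _ ≤ Real.exp (B' * N) * 2 := by linarith
        _ ≤ Real.exp (B' * N) * Real.exp N := by gcongr
        _ = Real.exp ((B' + 1) * N) := by rw [← Real.exp_add]; ring_nf
    have h2 : Real.exp (Real.log ρ * t) ≤ Real.exp ((B' + 1) * N) := by
      have e : Real.exp (Real.log ρ * t) = ρ ^ t := by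
        rw [mul_comm, Real.exp_nat_mul, Real.exp_log (by linarith)]
      rw [e]; exact h1
    have h3 := Real.exp_le_exp.1 h2
    rw [div_le_iff₀ hlρ] at hK1
    have h4 : (t : ℝ) * Real.log ρ ≤ (K1 * N) * Real.log ρ := by nlinarith
    have h5 : (t : ℝ) ≤ K1 * N := le_of_mul_le_mul_right h4 hlρ
    exact_mod_cast h5
  by_contra hcon
  push Not at hcon
  obtain ⟨k, hk1, hk2, hk3⟩ := hK0 N (by omega) (fun k => w (t + k)) (fun k => y (t + k)) 1
    isCoprime_one_left (by simp) (fun k _ => by rw [one_mul, ← add_assoc]; exact hrec _)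
    (by simpa using ht1) (by
      refine le_trans ?_ hcon
      have h1 : t + K0 * N ≤ (K0 + K1) * N := by
        have : (K0 + K1) * N = K0 * N + K1 * N := by ring
        omega
      exact_mod_cast wc_sub w h1 N)
    (fun i j hij _ h => by have := hinj h; omega)
  have h1 := ht2 k hk1
  have h2 : Real.exp (B * N) ≤ Real.exp (B' * N) := Real.exp_le_exp.2 (by gcongr)
  linarith

end Pool.Agent.TH932.S2.G
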