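import Mathlib
import Pool.Agent.TH932.S2.All
import Pool.Agent.TH932.S2.Merge
import Pool.Agent.TH932.S2.Rc3
import Pool.Agent.TH932.S2.Stms2

set_option autoImplicit false

/-!
# Two coprime bases at a single scale
-/

namespace Pool.Agent.TH932.S2.G

open Filter Topology Pool.Agent.TH932.Abs Pool.Agent.TH932.Germs Pool.Agent.TH932.Chi
open Pool.Agent.TH932.Words Pool.Agent.TH932.Scale

/-- approximations with denominators `≤ exp (B N)` of every order, along a sequence of scales -/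
lemma tb_seq {p q : ℕ} (hp : 2 ≤ p)
    (hq : 2 ≤ q) (hpq : IsCoprime (q : ℤ) (p : ℤ)) {x : ℝ} (hx : Irrational x) {C : ℝ}
    {N : ℕ → ℕ} (hN : Tendsto N atTop atTop) (hN2 : ∀ n, 2 ≤ N n)
    (h1 : ∀ n, (cx (dw p x) (N n) : ℝ) ≤ C * N n)
    (h2 : ∀ n, (cx (dw q x) (N n) : ℝ) ≤ C * N n) :
    ∃ (B : ℝ) (r : ℕ → ℚ), (∀ᶠ n in (UU : Filter ℕ), ((r n).den : ℝ) ≤ Real.exp (B * N n)) ∧
      ∀ A : ℝ, ∀ᶠ n in (UU : Filter ℕ), |x - r n| ≤ Real.exp (-(A * N n)) := by
  have hL : Tendsto (fun n => (N n : ℝ)) atTop atTop := tendsto_natCast_atTop_atTop.comp hN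
  have r1 : Rep hL hp hq AxP x := rep_of hp hq hpq (Or.inl ⟨rfl, rfl⟩) hx hN hN2
    h1 hL (fun t ht => ⟨by simpa using ht, rfl⟩)
  have r2 : Rep hL hp hq AxQ x := rep_of hp hq hpq (Or.inr ⟨rfl, rfl⟩) hx hN hN2
    h2 hL (fun t ht => ⟨rfl, ht⟩)
  exact (Merge.merge su_thm kp_thm) p q hp hq hpq _ hL x r1 r2

/-- **Two coprime bases, single scale.** For an irrational number which is not a Liouville number
the complexities of the expansions in two coprime bases are not both `O(n)` at any large `n`. -/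
theorem two_bases_local {p q : ℕ} (hp : 2 ≤ p) (hq : 2 ≤ q) (hpq : IsCoprime (q : ℤ) (p : ℤ))
    {x : ℝ} (hx : Irrational x) (hl : ¬ Liouville x) (C : ℝ) :
    ∃ N0 : ℕ, ∀ N : ℕ, N0 ≤ N → C * N < max (cx (dw p x) N : ℝ) (cx (dw q x) N) := by
  by_contra hcon
  push Not at hcon
  choose N hN1 hN2 using fun n : ℕ => hcon (max n 2)
  have hT : Tendsto N atTop atTop :=
    tendsto_atTop_mono (fun n => (le_max_left n 2).trans (hN1 n)) tendsto_id
  have hN3 : ∀ n, 2 ≤ N n := fun n => (le_max_right n 2).trans (hN1 n)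
  obtain ⟨B, r, hr1, hr2⟩ := tb_seq hp hq hpq hx hT hN3
    (fun n => (le_max_left _ _).trans (hN2 n)) (fun n => (le_max_right _ _).trans (hN2 n))
  unfold Liouville at hl
  push Not at hl
  obtain ⟨m, hm⟩ := hl
  obtain ⟨n, g1, g2, g3⟩ := (hr1.and ((hr2 (m * (|B| + 1) + 1)).and
    (show ∀ᶠ n in (UU : Filter ℕ), True from Eventually.of_forall fun _ => trivial))).exists
  have hNn : (2 : ℝ) ≤ N n := by exact_mod_cast hN3 n
  -- a representation with denominator at least two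
  obtain ⟨a, b, hb1, hb2, hab⟩ : ∃ (a b : ℤ), 1 < b ∧ (b : ℝ) ≤ Real.exp ((|B| + 1) * N n) ∧
      ((r n : ℚ) : ℝ) = a / b := by
    have hden : (0 : ℝ) < (r n).den := by exact_mod_cast (r n).den_pos
    refine ⟨2 * (r n).num, 2 * (r n).den, ?_, ?_, ?_⟩
    · have : 1 ≤ (r n).den := (r n).den_pos
      omega
    · push_cast
      have e2 : (2 : ℝ) ≤ Real.exp (1 * N n) := by
        have := Real.add_one_le_exp (1 * (N n : ℝ))
        linarith
      calc (2 : ℝ) * (r n).den ≤ Real.exp (1 * N n) * Real.exp (|B| * N n) := by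
            gcongr
            refine g1.trans (Real.exp_le_exp.2 ?_)
            have := le_abs_self B
            gcongr
        _ = Real.exp ((|B| + 1) * N n) := by rw [← Real.exp_add]; ring_nf
    · push_cast
      rw [mul_div_mul_left _ _ (two_ne_zero)]
      exact Rat.cast_def (r n)
  have hb0 : (0 : ℝ) < b := by
    have : (1 : ℝ) < b := by exact_mod_cast hb1
    linarith
  have hne : x ≠ (a : ℝ) / b := by
    intro h
    exact hx ⟨(a : ℚ) / b, by rw [h]; push_cast; rfl⟩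
  have h3 := hm a b hb1 hne
  rw [← hab] at h3
  have h4 : (1 : ℝ) / b ^ m ≤ Real.exp (-((m * (|B| + 1) + 1) * N n)) := h3.trans g2
  rw [div_le_iff₀ (by positivity)] at h4
  have h5 : (b : ℝ) ^ m ≤ Real.exp ((|B| + 1) * N n) ^ m := by gcongr
  rw [← Real.exp_nat_mul] at h5
  have h6 : (1 : ℝ) ≤ Real.exp (-((m * (|B| + 1) + 1) * N n)) *
      Real.exp (m * ((|B| + 1) * N n)) := h4.trans (by gcongr)
  rw [← Real.exp_add] at h6
  have h7 : Real.exp (-((m * (|B| + 1) + 1) * N n) + m * ((|B| + 1) * N n)) < 1 := by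
    rw [Real.exp_lt_one_iff]
    have e : -((m * (|B| + 1) + 1) * N n) + m * ((|B| + 1) * (N n : ℝ)) = -(N n : ℝ) := by ring
    rw [e]
    linarith
  linarith

end Pool.Agent.TH932.S2.G
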