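import Mathlib
import Pool.Agent.TH932.S2.All
import Pool.Agent.TH932.S2.F.Fin
import Pool.Agent.TH932.S2.G.Col
import Pool.Agent.TH932.S2.G.Desc

set_option autoImplicit false

/-!
# The Collatz map on the integers: all scales, and descent in logarithmic time
-/

namespace Pool.Agent.TH932.S2.G.Col

open Filter Topology Pool.Agent.TH932.Words Pool.Agent.TH932.S2
open Pool.Agent.TH932.S2.F

/-- All scales: for every `A` there is `K` such that, for all integers `x` and `1 ≤ M ≤ N` with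
`|x| ≤ 2 ^ N`: if for `M ≤ n ≤ K N` there are at most `A n` different blocks of `n` consecutive
parities among the first `K N` terms of the trajectory of `x`, then the trajectory reaches, after
at most `K N` steps, a cycle of length at most `K M` whose elements have absolute value at most
`2 ^ (K M)`. -/
theorem all_scales (A : ℝ) : ∃ K : ℕ, ∀ (x : ℤ) (M N : ℕ), 1 ≤ M → M ≤ N → |x| ≤ 2 ^ N →
    (∀ n : ℕ, M ≤ n → n ≤ K * N → (blocksUpTo x (K * N) n : ℝ) ≤ A * n) →
    ∃ i ≤ K * N, (∃ k, 1 ≤ k ∧ k ≤ K * M ∧ C^[k] (C^[i] x) = C^[i] x) ∧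
      ∀ j, |C^[j] (C^[i] x)| ≤ 2 ^ (K * M) := by
  obtain ⟨K, hK, h⟩ := enter bd_thm su_thm kp_thm T (2 * A)
  refine ⟨2 * K + 2, fun x M N hM hMN hx hcx => ?_⟩
  set K' := 2 * K + 2 with hK'
  have hKN : 2 * (K * N) ≤ K' * N := by
    rw [hK']
    have : (2 * K + 2) * N = 2 * (K * N) + 2 * N := by ring
    omega
  have hKM : 2 * (K * M) + 2 ≤ K' * M := by
    rw [hK']
    have : (2 * K + 2) * M = 2 * (K * M) + 2 * M := by ring
    omega
  obtain ⟨i, hi, hz, hper, habs⟩ := h 1 f G mp x M N hM hMN (by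
      simp only [Int.cast_one, abs_one]
      exact Real.one_le_exp (by positivity)) (by
      have h1 : |(x : ℝ)| ≤ 2 ^ N := by exact_mod_cast hx
      refine h1.trans ?_
      have h2 : (2 : ℝ) ≤ Real.exp 1 := by
        have := Real.add_one_le_exp (1 : ℝ)
        linarith
      calc (2 : ℝ) ^ N ≤ Real.exp 1 ^ N := by gcongr
        _ = Real.exp N := by rw [← Real.exp_nat_mul, mul_one]) (by
      intro m hm1 hm2
      have h1 : wc (wd f G x) (K * N) m ≤ blocksUpTo x (K' * N) (2 * m) := by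
        rw [wd_eq]
        refine wc_le_of_dep (u := fun k => ((C^[k] x : ℤ) : ZMod 2)) (ph x) (fun i hi => ?_)
          (fun i j hij => decode x hij)
        have := ph_le x i
        omega
      have h2 := hcx (2 * m) (by omega) (by omega)
      push_cast at h2
      have h3 : (wc (wd f G x) (K * N) m : ℝ) ≤ blocksUpTo x (K' * N) (2 * m) := by
        exact_mod_cast h1
      linarith)
  simp only [Int.cast_one, abs_one, Real.log_one, zero_add] at hper habs
  set z := G^[i] x with hzd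
  set π := Function.minimalPeriod G z with hπ
  have hπ1 : 1 ≤ π := Function.minimalPeriod_pos_of_mem_periodicPts hz
  have hπK : π ≤ K * M := by exact_mod_cast hper
  have hzπ : G^[π] z = z := Function.iterate_minimalPeriod
  have hzC : C^[ph x i] x = z := (G_iter x i).symm
  refine ⟨ph x i, ?_, ?_, ?_⟩
  · have := ph_le x i
    omega
  · refine ⟨ph z π, hπ1.trans (ph_ge z π), ?_, ?_⟩
    · have := ph_le z π
      omega
    · rw [hzC]
      have : yy z π = z := by rw [← G_iter]; exact hzπ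
      exact this
  · intro j
    rw [hzC]
    have hb : ∀ k, |G^[k] z| ≤ 2 ^ (2 * (K * M)) := by
      intro k
      have h1 := habs k
      have h2 : Real.exp ((K : ℝ) * M) ≤ ((2 ^ (2 * (K * M)) : ℕ) : ℝ) := by
        have h3 : Real.exp 1 ≤ 4 := by
          have := Real.exp_one_lt_d9
          linarith
        calc Real.exp ((K : ℝ) * M) = Real.exp 1 ^ (K * M) := by
              rw [← Real.exp_nat_mul]; push_cast; ring_nf
          _ ≤ 4 ^ (K * M) := by gcongr
          _ = ((2 ^ (2 * (K * M)) : ℕ) : ℝ) := by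
              rw [pow_mul 2 2 (K * M)]; norm_num
      exact_mod_cast h1.trans h2
    have h4 : (4 : ℤ) * 2 ^ (2 * (K * M)) ≤ 2 ^ (K' * M) := by
      have : (4 : ℤ) * 2 ^ (2 * (K * M)) = 2 ^ (2 * (K * M) + 2) := by ring
      rw [this]
      exact pow_le_pow_right₀ (by norm_num) hKM
    have h5 : (1 : ℤ) ≤ 2 ^ (2 * (K * M)) := one_le_pow₀ (by norm_num)
    obtain ⟨k, h1 | ⟨_, h1⟩⟩ := C_iter z j
    · rw [h1]
      have := hb k
      omega
    · rw [h1]
      have h2 := hb k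
      have h3 : |3 * G^[k] z + 1| ≤ 3 * |G^[k] z| + 1 := by
        refine (abs_add_le _ _).trans ?_
        rw [abs_mul, abs_one]
        norm_num
      omega

/-- **Descent in logarithmic time**, for the Collatz map. -/
theorem log_descent (A R : ℝ) : ∃ K : ℕ, 1 ≤ K ∧ ∀ x : ℤ,
    (∀ i : ℕ, (i : ℝ) ≤ K * Real.log |(x : ℝ)| → (K : ℤ) < |C^[i] x|) →
    ∃ m : ℕ, 1 ≤ m ∧ R ≤ m ∧ R * m ≤ Real.log |(x : ℝ)| ∧ ∀ N : ℕ, m ≤ N → (N : ℝ) ≤ R * m →
      A * N < blocksUpTo x ⌊K * Real.log |(x : ℝ)|⌋₊ N := by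
  obtain ⟨K, hK1, hK⟩ := desc T (3 * |A|) (2 * max R 1)
  refine ⟨2 * K + 2, by omega, fun x hx => ?_⟩
  have hKr : (0 : ℝ) ≤ K := Nat.cast_nonneg K
  have hx2 : (2 : ℝ) ≤ |(x : ℝ)| := by
    by_cases h0 : 0 ≤ Real.log |(x : ℝ)|
    · have h1 := hx 0 (by push_cast; positivity)
      simp only [Function.iterate_zero, id_eq] at h1
      have h2 : (2 : ℤ) ≤ |x| := by push_cast at h1; omega
      exact_mod_cast h2
    · exfalso
      push Not at h0
      have h1 : |(x : ℝ)| < 1 := by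
        by_contra h2
        push Not at h2
        exact absurd (Real.log_nonneg h2) (not_le.2 h0)
      have h2 : |x| < 1 := by exact_mod_cast h1
      have h3 : x = 0 := by
        have := abs_nonneg x
        exact abs_eq_zero.1 (by omega)
      rw [h3] at h0
      simp at h0
  have hlog : (1 / 2 : ℝ) ≤ Real.log |(x : ℝ)| := by
    have h1 := Real.log_two_gt_d9
    have h2 := Real.log_le_log (by norm_num) hx2
    linarith
  have hle : 2 * ((K : ℝ) * Real.log |(x : ℝ)|) + 1 ≤ ((2 * K + 2 : ℕ) : ℝ) * Real.log |(x : ℝ)| := by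
    push_cast
    linarith
  obtain ⟨m, h1, h2, h3, h4⟩ := hK f G mp x (fun i hi => by
    have h5 := hx (ph x i) (by
      have h6 : ((ph x i : ℕ) : ℝ) ≤ 2 * i := by exact_mod_cast ph_le x i
      linarith)
    rw [G_iter]
    change (K : ℤ) < |C^[ph x i] x|
    push_cast at h5
    omega)
  have hmr : (0 : ℝ) ≤ m := Nat.cast_nonneg m
  have hR1 : R ≤ max R 1 := le_max_left _ _
  have hR2 : (1 : ℝ) ≤ max R 1 := le_max_right _ _
  refine ⟨2 * m, by omega, ?_, ?_, fun N hN1 hN2 => ?_⟩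
  · push_cast
    linarith
  · push_cast
    have : R * (2 * m) ≤ max R 1 * (2 * m) := by gcongr
    linarith
  · set n := N / 2 with hn
    have hn1 : m ≤ n := by omega
    have hn2 : 2 * n ≤ N := by omega
    have hn3 : N ≤ 3 * n := by omega
    have hn4 : N ≤ 2 * n + 1 := by omega
    have h5 := h4 n hn1 (by
      push_cast at hN2
      have h6 : (2 : ℝ) * n ≤ N := by exact_mod_cast hn2
      have : R * (2 * m) ≤ max R 1 * (2 * m) := by gcongr
      have h7 : 0 ≤ max R 1 * (m : ℝ) := by positivity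
      linarith)
    have h6 : wc (wd f G x) ⌊(K : ℝ) * Real.log |(x : ℝ)|⌋₊ n ≤
        blocksUpTo x ⌊((2 * K + 2 : ℕ) : ℝ) * Real.log |(x : ℝ)|⌋₊ N := by
      rw [wd_eq]
      refine wc_le_of_dep (u := fun k => ((C^[k] x : ℤ) : ZMod 2)) (ph x) (fun i hi => ?_)
        (fun i j hij => decode x (hij.mono hn2))
      apply Nat.le_floor
      have h7 := ph_le x i
      have h8 : ((i + n : ℕ) : ℝ) ≤ (K : ℝ) * Real.log |(x : ℝ)| :=
        le_trans (by exact_mod_cast hi) (Nat.floor_le (by positivity))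
      have h9 : ((ph x i + N : ℕ) : ℝ) ≤ 2 * ((i + n : ℕ) : ℝ) + 1 := by
        exact_mod_cast (by omega : ph x i + N ≤ 2 * (i + n) + 1)
      linarith
    have h7 : A * (N : ℝ) ≤ |A| * (3 * n) := by
      have h8 := le_abs_self A
      have h9 : (N : ℝ) ≤ 3 * n := by exact_mod_cast hn3
      calc A * (N : ℝ) ≤ |A| * N := by gcongr
        _ ≤ |A| * (3 * n) := by gcongr
    have h8 : (wc (wd f G x) ⌊(K : ℝ) * Real.log |(x : ℝ)|⌋₊ n : ℝ) ≤
        blocksUpTo x ⌊((2 * K + 2 : ℕ) : ℝ) * Real.log |(x : ℝ)|⌋₊ N := by exact_mod_cast h6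
    linarith

lemma blocksUpTo_shift (x : ℤ) {i H' H : ℕ} (h : i + H' ≤ H) (N : ℕ) :
    blocksUpTo (C^[i] x) H' N ≤ blocksUpTo x H N := by
  unfold blocksUpTo
  apply Set.ncard_le_ncard _ (Set.toFinite _)
  rintro _ ⟨a, ha, rfl⟩
  refine ⟨a + i, ?_, ?_⟩
  · simp only [Set.mem_ofPred_eq] at ha ⊢
    omega
  · funext j
    simp only
    rw [← Function.iterate_add_apply, add_right_comm]

/-- **The dichotomy.** A large integer falls in logarithmic time into one of finitely many cycles,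
or the beginning of its trajectory has many blocks at all scales of an interval. -/
theorem dichotomy (A R : ℝ) : ∃ K : ℕ, ∀ x : ℤ, (K : ℤ) < |x| →
    (∃ i : ℕ, (i : ℝ) ≤ K * Real.log |(x : ℝ)| ∧
      (∃ k, 1 ≤ k ∧ k ≤ K ∧ C^[k] (C^[i] x) = C^[i] x) ∧ ∀ j, |C^[j] (C^[i] x)| ≤ K) ∨
    (∃ m : ℕ, 1 ≤ m ∧ R ≤ m ∧ R * m ≤ Real.log |(x : ℝ)| ∧ ∀ N : ℕ, m ≤ N → (N : ℝ) ≤ R * m →
      A * N < blocksUpTo x ⌊K * Real.log |(x : ℝ)|⌋₊ N) := by
  obtain ⟨K1, hK11, hK1⟩ := log_descent A R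
  obtain ⟨K3, hK3⟩ := one_scale A
  -- bounded trajectories
  have hb : ∀ y : ℤ, ∃ c : ℕ, (∃ B : ℤ, ∀ j, |C^[j] y| ≤ B) → ∃ i k, i ≤ c ∧ 1 ≤ k ∧ k ≤ c ∧
      C^[k] (C^[i] y) = C^[i] y ∧ ∀ j, |C^[j] (C^[i] y)| ≤ c := by
    intro y
    by_cases hB : ∃ B : ℤ, ∀ j, |C^[j] y| ≤ B
    · obtain ⟨B, hB⟩ := hB
      have hni : ¬ Function.Injective fun j => C^[j] y := by
        intro hinj
        have h1 : (Set.range fun j => C^[j] y) ⊆ Set.Icc (-B) B := by
          rintro _ ⟨j, rfl⟩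
          exact abs_le.1 (hB j)
        exact Set.infinite_range_of_injective hinj ((Set.finite_Icc _ _).subset h1)
      have h2 : ∃ a b, a < b ∧ C^[a] y = C^[b] y := by
        simp only [Function.Injective] at hni
        push Not at hni
        obtain ⟨a, b, hab, hne⟩ := hni
        rcases Nat.lt_or_ge a b with h | h
        · exact ⟨a, b, h, hab⟩
        · exact ⟨b, a, by omega, hab.symm⟩
      obtain ⟨a, b, hab, he⟩ := h2
      refine ⟨b + B.toNat, fun _ => ⟨a, b - a, by omega, by omega, by omega, ?_, fun j => ?_⟩⟩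
      · rw [← Function.iterate_add_apply, Nat.sub_add_cancel hab.le]
        exact he.symm
      · rw [← Function.iterate_add_apply]
        have := hB (j + a)
        push_cast
        have h3 := abs_nonneg (C^[j + a] y)
        omega
    · exact ⟨0, fun h => absurd h hB⟩
  choose c hc using hb
  set K2 : ℕ := ∑ y ∈ Finset.Icc (-(K1 : ℤ)) K1, c y with hK2
  have hcK2 : ∀ y : ℤ, |y| ≤ K1 → c y ≤ K2 := fun y hy =>
    Finset.single_le_sum (f := c) (fun _ _ => Nat.zero_le _) (Finset.mem_Icc.2 (abs_le.1 hy))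
  obtain ⟨r, hr⟩ := exists_nat_ge R
  set m0 : ℕ := K3 + K1 + r + 1 with hm0
  obtain ⟨K4, hK4⟩ := exists_nat_ge (Real.exp (((r * m0) ^ K3 + r * m0 : ℕ) : ℝ))
  refine ⟨K1 + 2 * K2 + K4 + 1, fun x hx => ?_⟩
  set K : ℕ := K1 + 2 * K2 + K4 + 1 with hK
  have hKr : ((K1 + 2 * K2 + K4 + 1 : ℕ) : ℝ) = K := rfl
  push_cast at hKr
  have hK1r : (1 : ℝ) ≤ K1 := by exact_mod_cast hK11
  have hK2r : (0 : ℝ) ≤ K2 := Nat.cast_nonneg K2
  have hK4r : (0 : ℝ) ≤ K4 := Nat.cast_nonneg K4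
  have hxr : (K : ℝ) < |(x : ℝ)| := by exact_mod_cast hx
  have hx0 : (0 : ℝ) < |(x : ℝ)| := by linarith
  have hlog : (1 / 2 : ℝ) ≤ Real.log |(x : ℝ)| := by
    have h1 := Real.log_two_gt_d9
    have h2 := Real.log_le_log (show (0 : ℝ) < 2 by norm_num) (by linarith : (2 : ℝ) ≤ |(x : ℝ)|)
    linarith
  have hlog4 : (((r * m0) ^ K3 + r * m0 : ℕ) : ℝ) ≤ Real.log |(x : ℝ)| := by
    rw [Real.le_log_iff_exp_le hx0]
    linarith
  have hlog0 : 0 ≤ Real.log |(x : ℝ)| := by linarith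
  have hKK : (K1 : ℝ) * Real.log |(x : ℝ)| ≤ K * Real.log |(x : ℝ)| := by
    have : (K1 : ℝ) ≤ K := by linarith
    gcongr
  by_cases h : ∀ i : ℕ, (i : ℝ) ≤ K1 * Real.log |(x : ℝ)| → (K1 : ℤ) < |C^[i] x|
  · right
    obtain ⟨m, h1, h2, h3, h4⟩ := hK1 x h
    refine ⟨m, h1, h2, h3, fun N a b => (h4 N a b).trans_le ?_⟩
    have h5 := blocksUpTo_shift x (i := 0) (H' := ⌊(K1 : ℝ) * Real.log |(x : ℝ)|⌋₊)
      (H := ⌊(K : ℝ) * Real.log |(x : ℝ)|⌋₊) (by
        rw [zero_add]
        exact Nat.floor_le_floor hKK) N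
    exact_mod_cast h5
  · push Not at h
    obtain ⟨i, hi, hy⟩ := h
    by_cases hbd : ∃ B : ℤ, ∀ j, |C^[j] (C^[i] x)| ≤ B
    · left
      obtain ⟨i', k, h1, h2, h3, h4, h5⟩ := hc _ hbd
      have h6 := hcK2 _ hy
      refine ⟨i' + i, ?_, ⟨k, h2, by omega, ?_⟩, fun j => ?_⟩
      · have h7 : (i' : ℝ) ≤ K2 := by exact_mod_cast h1.trans h6
        push_cast
        have h8 : (K1 + 2 * K2 : ℝ) * Real.log |(x : ℝ)| ≤ K * Real.log |(x : ℝ)| := by
          have : (K1 + 2 * K2 : ℝ) ≤ K := by linarith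
          gcongr
        nlinarith
      · rw [Function.iterate_add_apply C i' i x]
        exact h4
      · rw [Function.iterate_add_apply C i' i x]
        refine (h5 j).trans ?_
        exact_mod_cast (by omega : c (C^[i] x) ≤ K)
    · right
      have hm1 : (1 : ℝ) ≤ m0 := by exact_mod_cast (by omega : 1 ≤ m0)
      have hrm : R * m0 ≤ r * m0 := by gcongr
      have hpos : (0 : ℝ) ≤ ((r * m0) ^ K3 : ℕ) := Nat.cast_nonneg _
      push_cast at hlog4 hpos
      refine ⟨m0, by omega, ?_, by linarith, fun N hN1 hN2 => ?_⟩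
      · have : (r : ℝ) ≤ m0 := by exact_mod_cast (by omega : r ≤ m0)
        linarith
      · by_contra hcon
        push Not at hcon
        have hNr : N ≤ r * m0 := by
          have : (N : ℝ) ≤ r * m0 := hN2.trans hrm
          exact_mod_cast this
        have hpow : N ^ K3 ≤ (r * m0) ^ K3 := Nat.pow_le_pow_left hNr K3
        have hsh := blocksUpTo_shift x (i := i) (H' := N ^ K3)
          (H := ⌊(K : ℝ) * Real.log |(x : ℝ)|⌋₊) (by
            apply Nat.le_floor
            have h1 : ((N ^ K3 : ℕ) : ℝ) ≤ ((r : ℝ) * m0) ^ K3 := by exact_mod_cast hpow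
            have h2 : (0 : ℝ) ≤ (r : ℝ) * m0 := by positivity
            have h3 : (K1 : ℝ) * Real.log |(x : ℝ)| + Real.log |(x : ℝ)|
                ≤ K * Real.log |(x : ℝ)| := by
              have : (K1 : ℝ) + 1 ≤ K := by linarith
              nlinarith
            rw [Nat.cast_add]
            linarith) N
        obtain ⟨_, h2⟩ := hK3 (C^[i] x) N (by omega) (by
          have h3 : N < 2 ^ N := Nat.lt_two_pow_self
          have h4 : (K1 : ℤ) ≤ 2 ^ N := by exact_mod_cast (by omega : K1 ≤ 2 ^ N)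
          exact hy.trans h4) (le_trans (by exact_mod_cast hsh) hcon)
        exact hbd ⟨_, h2⟩

end Pool.Agent.TH932.S2.G.Col
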