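import Mathlib
import Pool.Agent.TH932.S2.G.Ss

set_option autoImplicit false

/-!
# Descent in logarithmic time from few blocks at small scales, uniformly in `d`
-/

namespace Pool.Agent.TH932.S2.G

open Filter Topology Pool.Agent.TH932.Words Pool.Agent.TH932.S2.F

variable {α : Type*}

/-- **One step of the descent.** Few blocks of length `N` bring the trajectory below `exp (B N)`,
where `B` does not depend on the first term. -/
theorem drop_d [Finite α] (T : Dt α) (A : ℝ) : ∃ B : ℝ, 1 ≤ B ∧ ∀ B0 : ℝ, ∃ K : ℕ, 1 ≤ K ∧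
    ∀ N : ℕ, K ≤ N → ∀ (d : ℤ) (f : ℤ → α) (G : ℤ → ℤ), Mp T d f G → |(d : ℝ)| ≤ Real.exp N →
    ∀ x : ℤ, |(x : ℝ)| ≤ Real.exp (B0 * N) → (wc (wd f G x) (K * N) N : ℝ) ≤ A * N →
    ∃ k, k ≤ K * N ∧ |((G^[k] x : ℤ) : ℝ)| ≤ Real.exp (B * N) := by
  obtain ⟨B1, hB1, hwin⟩ := window T A 1
  refine ⟨max B1 2, le_trans (by norm_num) (le_max_right _ _), fun B0 => ?_⟩
  obtain ⟨K0, hK01, hK0⟩ := hwin B0
  have hK0r : (1 : ℝ) ≤ K0 := by exact_mod_cast hK01
  obtain ⟨n0, hsmall⟩ := small su_thm kp_thm T (ε := 1 / K0) (by positivity)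
  obtain ⟨K1, hK1⟩ := exists_nat_ge ((n0 : ℝ) * Real.log (2 * T.M))
  refine ⟨K0 + K1, by omega, fun N hN d f G hG hd x hx hcx => ?_⟩
  have hcx' : (wc (wd f G x) (K0 * N) N : ℝ) ≤ A * N := by
    refine le_trans ?_ hcx
    exact_mod_cast wc_mono (wd f G x) (Nat.mul_le_mul_right N (by omega)) N
  have hKN : K0 * N ≤ (K0 + K1) * N := Nat.mul_le_mul_right N (by omega)
  have hNR : (0 : ℝ) ≤ N := Nat.cast_nonneg N
  have hexp : Real.exp N * Real.exp N ≤ Real.exp (max B1 2 * N) := by
    rw [← Real.exp_add]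
    apply Real.exp_le_exp.2
    have := le_max_right B1 2
    nlinarith
  have hd0 : 0 ≤ |(d : ℝ)| := abs_nonneg _
  by_cases hinj : ∀ i j, i < j → j ≤ K0 * N → G^[i] x ≠ G^[j] x
  · obtain ⟨k, _, hk2, hk⟩ := hK0 N (by omega) (wd f G x) (fun k => G^[k] x) d
      hG.hd (by rw [one_mul]; exact hd) (fun k _ => by
        rw [Function.iterate_succ_apply', hG.hG]
        rfl) hx hcx' hinj
    refine ⟨k, hk2.trans hKN, hk.trans (Real.exp_le_exp.2 ?_)⟩
    have := le_max_left B1 2
    gcongr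
  · push Not at hinj
    obtain ⟨i, j, hij, hj, he⟩ := hinj
    set z := G^[i] x with hz
    have hzπ : G^[j - i] z = z := by
      rw [hz, ← Function.iterate_add_apply, Nat.sub_add_cancel hij.le]
      exact he.symm
    rcases Nat.lt_or_ge (j - i) n0 with h1 | h1
    · refine ⟨i, by omega, ?_⟩
      have h2 := per_bound hG (by omega : 1 ≤ j - i) hzπ
      have h3 : |(z : ℝ)| ≤ |(d : ℝ)| * (2 * (T.M : ℝ)) ^ (j - i) := by exact_mod_cast h2
      have hMr : (1 : ℝ) ≤ T.M := by exact_mod_cast T.hM1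
      have h4 : (2 * (T.M : ℝ)) ^ (j - i) ≤ (2 * (T.M : ℝ)) ^ n0 :=
        pow_le_pow_right₀ (by linarith) h1.le
      have h5 : (2 * (T.M : ℝ)) ^ n0 = Real.exp (n0 * Real.log (2 * T.M)) := by
        rw [Real.exp_nat_mul, Real.exp_log (by linarith)]
      have h6 : (K1 : ℝ) ≤ N := by exact_mod_cast (by omega : K1 ≤ N)
      calc |(z : ℝ)| ≤ |(d : ℝ)| * (2 * (T.M : ℝ)) ^ n0 := h3.trans (by gcongr)
        _ = |(d : ℝ)| * Real.exp (n0 * Real.log (2 * T.M)) := by rw [h5]
        _ ≤ Real.exp N * Real.exp N := by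
            gcongr
            exact hK1.trans h6
        _ ≤ _ := hexp
    · obtain ⟨k, hk1, hk⟩ := hsmall d f G hG z (j - i) h1 hzπ
      refine ⟨k + i, by omega, ?_⟩
      rw [Function.iterate_add_apply]
      have h4 : ((j - i : ℕ) : ℝ) ≤ K0 * N := by exact_mod_cast (by omega : j - i ≤ K0 * N)
      have h5 : 1 / (K0 : ℝ) * ((j - i : ℕ) : ℝ) ≤ N := by
        calc 1 / (K0 : ℝ) * ((j - i : ℕ) : ℝ) ≤ 1 / K0 * (K0 * N) := by gcongr
          _ = N := by field_simp
      refine hk.trans (le_trans ?_ hexp)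
      gcongr

/-- **Descent in logarithmic time.** If the first `K log |x|` terms are larger than `K`, there are
many blocks at all scales of an interval `[m, R m]` below `log |x|`. -/
theorem desc_d [Finite α] (T : Dt α) (A R : ℝ) : ∃ K : ℕ, 1 ≤ K ∧
    ∀ (d : ℤ) (f : ℤ → α) (G : ℤ → ℤ), Mp T d f G → ∀ x : ℤ,
    (∀ i : ℕ, (i : ℝ) ≤ K * Real.log |(x : ℝ)| → (K : ℤ) * |d| ^ K < |G^[i] x|) →
    ∃ m : ℕ, 1 ≤ m ∧ R ≤ m ∧ Real.log |(d : ℝ)| ≤ m ∧ R * m ≤ Real.log |(x : ℝ)| ∧
      ∀ N : ℕ, m ≤ N → (N : ℝ) ≤ R * m →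
        A * N < wc (wd f G x) ⌊K * Real.log |(x : ℝ)|⌋₊ N := by
  obtain ⟨B, hB, hd⟩ := drop_d T A
  set R1 : ℝ := max R 1 with hR1
  have hR11 : 1 ≤ R1 := le_max_right _ _
  have hRR : R ≤ R1 := le_max_left _ _
  obtain ⟨K0, hK01, hK0⟩ := hd (4 * B * R1)
  have hK0r : (1 : ℝ) ≤ K0 := by exact_mod_cast hK01
  set Q : ℝ := 4 * B * R1 * (K0 + R1 + 1) with hQ
  have hQ0 : 0 < Q := by positivity
  obtain ⟨K1, hK1⟩ := exists_nat_ge (Real.exp Q)
  obtain ⟨K2, hK2⟩ := exists_nat_ge (4 * B * R1)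
  refine ⟨K0 + K1 + K2 + 1, by omega, fun d f G hG x hbig' => ?_⟩
  set K : ℕ := K0 + K1 + K2 + 1 with hK
  have hKR : ((K0 + K1 + K2 + 1 : ℕ) : ℝ) = K := rfl
  push_cast at hKR
  have hK1R : (0 : ℝ) ≤ K1 := Nat.cast_nonneg K1
  have hK2R : (0 : ℝ) ≤ K2 := Nat.cast_nonneg K2
  have hd1 : (1 : ℤ) ≤ |d| := hG.d_abs
  have hd1r : (1 : ℝ) ≤ |(d : ℝ)| := by exact_mod_cast hd1
  have hlogd : 0 ≤ Real.log |(d : ℝ)| := Real.log_nonneg hd1r
  have hbig : ∀ i : ℕ, (i : ℝ) ≤ K * Real.log |(x : ℝ)| → (K : ℤ) < |G^[i] x| := fun i hi => by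
    have h1 := hbig' i hi
    have h2 : (1 : ℤ) ≤ |d| ^ K := one_le_pow₀ hd1
    have h3 : (K : ℤ) * 1 ≤ (K : ℤ) * |d| ^ K := mul_le_mul_of_nonneg_left h2 (by positivity)
    omega
  have hx0 : (K : ℝ) < |(x : ℝ)| := by
    by_cases h0 : 0 ≤ Real.log |(x : ℝ)|
    · have h1 := hbig 0 (by push_cast; positivity)
      simp only [Function.iterate_zero, id_eq] at h1
      exact_mod_cast h1
    · exfalso
      push Not at h0
      have h1 : |(x : ℝ)| < 1 := by
        by_contra h2
        push Not at h2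
        exact absurd (Real.log_nonneg h2) (not_le.2 h0)
      have h2 : |x| < 1 := by exact_mod_cast h1
      have h3 : x = 0 := by
        have := abs_nonneg x
        exact abs_eq_zero.1 (by omega)
      rw [h3] at h0
      simp at h0
  have hlogx : 0 < Real.log |(x : ℝ)| := Real.log_pos (by linarith)
  -- it is enough to have the result for `R1`
  suffices h : ∃ m : ℕ, 1 ≤ m ∧ R1 ≤ m ∧ Real.log |(d : ℝ)| ≤ m ∧ R1 * m ≤ Real.log |(x : ℝ)| ∧
      ∀ N : ℕ, m ≤ N → (N : ℝ) ≤ R1 * m →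
        A * N < wc (wd f G x) ⌊K * Real.log |(x : ℝ)|⌋₊ N by
    obtain ⟨m, h1, h2, h2', h3, h4⟩ := h
    have hm : R * m ≤ R1 * m := by gcongr
    exact ⟨m, h1, hRR.trans h2, h2', hm.trans h3, fun N a b => h4 N a (b.trans hm)⟩
  by_contra hcon
  push Not at hcon
  have key : ∀ (b s : ℕ), (G^[s] x).natAbs ≤ b → |((G^[s] x : ℤ) : ℝ)| ≤ |(x : ℝ)| →
      s + K0 * Real.log |((G^[s] x : ℤ) : ℝ)| ≤ K0 * Real.log |(x : ℝ)| → False := by
    intro b
    induction b using Nat.strong_induction_on with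
    | _ b ih =>
      intro s hsb hsx hsK
      set y := G^[s] x with hy
      set L := Real.log |(y : ℝ)| with hL
      have hKK : K0 * Real.log |(x : ℝ)| ≤ K * Real.log |(x : ℝ)| := by
        have : (K0 : ℝ) ≤ K := by linarith
        gcongr
      have hlogy0 : 0 ≤ L := by
        rw [hL]
        by_cases h0 : y = 0
        · rw [h0]; simp
        · apply Real.log_nonneg
          have : 1 ≤ |y| := Int.one_le_abs h0
          exact_mod_cast this
      have hyK : (K : ℝ) < |(y : ℝ)| := by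
        have h1 := hbig s (by
          have : (0 : ℝ) ≤ K0 * L := by positivity
          linarith)
        exact_mod_cast h1
      have hy0 : (0 : ℝ) < |(y : ℝ)| := by linarith
      have hLQ : Q + 4 * B * R1 * Real.log |(d : ℝ)| ≤ L := by
        have h1 : (K : ℝ) * |(d : ℝ)| ^ K < |(y : ℝ)| := by
          have h1 := hbig' s (by
            have : (0 : ℝ) ≤ K0 * L := by positivity
            linarith)
          exact_mod_cast h1
        have h2 : Real.log ((K : ℝ) * |(d : ℝ)| ^ K) ≤ L := Real.log_le_log (by positivity) h1.le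
        rw [Real.log_mul (by linarith) (by positivity), Real.log_pow] at h2
        have h3 : Q ≤ Real.log K := by
          rw [Real.le_log_iff_exp_le (by linarith)]
          linarith
        have h4 : 4 * B * R1 * Real.log |(d : ℝ)| ≤ K * Real.log |(d : ℝ)| := by
          have : 4 * B * R1 ≤ K := by linarith
          gcongr
        linarith
      have hLx : L ≤ Real.log |(x : ℝ)| := Real.log_le_log hy0 hsx
      have hc : (0 : ℝ) < 2 * B * R1 := by positivity
      set m : ℕ := ⌊L / (2 * B * R1)⌋₊ with hm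
      have hm1 : (m : ℝ) ≤ L / (2 * B * R1) := Nat.floor_le (by positivity)
      have hm2 : L / (2 * B * R1) < m + 1 := Nat.lt_floor_add_one _
      have hm3 : 2 * (K0 + R1 + 1 + Real.log |(d : ℝ)|) ≤ L / (2 * B * R1) := by
        rw [le_div_iff₀ hc]
        calc 2 * ((K0 : ℝ) + R1 + 1 + Real.log |(d : ℝ)|) * (2 * B * R1)
            = Q + 4 * B * R1 * Real.log |(d : ℝ)| := by rw [hQ]; ring
          _ ≤ L := hLQ
      have hm4 : (K0 : ℝ) + R1 + Real.log |(d : ℝ)| ≤ m := by linarith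
      have hm5 : L ≤ 4 * B * R1 * m := by
        have h1 : L / (2 * B * R1) ≤ 2 * m := by linarith
        rw [div_le_iff₀ hc] at h1
        linarith
      have hm6 : 2 * B * R1 * m ≤ L := by
        rw [le_div_iff₀ hc] at hm1
        linarith
      have hmr : (0 : ℝ) ≤ m := Nat.cast_nonneg m
      have hm7 : R1 * m ≤ L / 2 := by
        have h1 : R1 * m ≤ B * (R1 * m) := le_mul_of_one_le_left (by positivity) hB
        linarith
      obtain ⟨N, hN1, hN2, hN3⟩ := hcon m (by
          have : (1 : ℝ) ≤ m := by linarith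
          exact_mod_cast this) (by linarith) (by linarith) (by linarith)
      have hNm : (m : ℝ) ≤ N := by exact_mod_cast hN1
      have hKN : (K0 : ℝ) * N ≤ K0 * (L / 2) := by
        gcongr
        linarith
      have hsub : wc (wd f G y) (K0 * N) N ≤ wc (wd f G x) ⌊K * Real.log |(x : ℝ)|⌋₊ N := by
        have h1 : s + K0 * N ≤ ⌊K * Real.log |(x : ℝ)|⌋₊ := by
          apply Nat.le_floor
          push_cast
          have : (0 : ℝ) ≤ K0 * (L / 2) := by positivity
          linarith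
        have h2 := wc_sub (wd f G x) h1 N
        have h3 : (fun k => wd f G x (s + k)) = wd f G y := by
          funext k
          simp only [wd, hy]
          rw [← Function.iterate_add_apply, add_comm s k]
        rw [h3] at h2
        exact h2
      obtain ⟨k, hk1, hk2⟩ := hK0 N (by
          have : (K0 : ℝ) ≤ N := by linarith
          exact_mod_cast this) d f G hG (by
          rw [← Real.log_le_iff_le_exp (by linarith)]
          linarith) y (by
          rw [← Real.exp_log hy0]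
          apply Real.exp_le_exp.2
          calc Real.log |(y : ℝ)| ≤ 4 * B * R1 * m := hm5
            _ ≤ 4 * B * R1 * N := by gcongr) (le_trans (by exact_mod_cast hsub) hN3)
      have hk3 : (k : ℝ) ≤ K0 * (L / 2) := by
        refine le_trans ?_ hKN
        exact_mod_cast hk1
      have hexp : Real.exp (B * N) ≤ Real.exp (L / 2) := by
        apply Real.exp_le_exp.2
        calc B * N ≤ B * (R1 * m) := by gcongr
          _ ≤ L / 2 := by linarith
      have e : G^[k] y = G^[s + k] x := by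
        rw [hy, ← Function.iterate_add_apply, add_comm]
      rw [e] at hk2
      have hz1 : (K : ℝ) < |((G^[s + k] x : ℤ) : ℝ)| := by
        have h1 := hbig (s + k) (by
          push_cast
          have : (0 : ℝ) ≤ K0 * (L / 2) := by positivity
          linarith)
        exact_mod_cast h1
      have hz0 : (0 : ℝ) < |((G^[s + k] x : ℤ) : ℝ)| := by linarith
      have hlog : Real.log |((G^[s + k] x : ℤ) : ℝ)| ≤ L / 2 := by
        rw [Real.log_le_iff_le_exp hz0]
        exact hk2.trans hexp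
      have hlt : |((G^[s + k] x : ℤ) : ℝ)| < |(y : ℝ)| := by
        rw [← Real.exp_log hz0, ← Real.exp_log hy0]
        apply Real.exp_lt_exp.2
        linarith
      have hlt2 : (G^[s + k] x).natAbs < y.natAbs := by
        have h1 : |G^[s + k] x| < |y| := by exact_mod_cast hlt
        rw [Int.abs_eq_natAbs, Int.abs_eq_natAbs] at h1
        exact_mod_cast h1
      refine ih _ (lt_of_lt_of_le hlt2 hsb) (s + k) le_rfl (hlt.le.trans hsx) ?_
      push_cast
      have h5 : (K0 : ℝ) * Real.log |((G^[s + k] x : ℤ) : ℝ)| ≤ K0 * (L / 2) := by gcongr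
      linarith
  exact key _ 0 le_rfl (by simp) (by simp)

end Pool.Agent.TH932.S2.G
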