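import Mathlib

set_option autoImplicit false

/-!
# Cycles of maps
-/

namespace Pool.Agent.TH932.S2.G.Cy

/-- `Z` is a cycle of `f`. -/
def IsCycle {α : Type*} [DecidableEq α] (f : α → α) (Z : Finset α) : Prop :=
  ∃ (x : α) (p : ℕ), 1 ≤ p ∧ f^[p] x = x ∧ Z = (Finset.range p).image fun i => f^[i] x

variable {α : Type*} [DecidableEq α] {f : α → α} {Z : Finset α}

lemma closed (hZ : IsCycle f Z) {x : α} (hx : x ∈ Z) (i : ℕ) : f^[i] x ∈ Z := by
  obtain ⟨y, p, hp, hy, rfl⟩ := hZ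
  rw [Finset.mem_image] at hx ⊢
  obtain ⟨j, hj, rfl⟩ := hx
  refine ⟨(i + j) % p, Finset.mem_range.2 (Nat.mod_lt _ hp), ?_⟩
  rw [← Function.iterate_add_apply]
  have h1 : (i + j) % p + p * ((i + j) / p) = i + j := Nat.mod_add_div _ _
  have h2 : f^[p * ((i + j) / p)] y = y := by
    rw [Function.iterate_mul]; exact Function.iterate_fixed hy _
  calc f^[(i + j) % p] y = f^[(i + j) % p] (f^[p * ((i + j) / p)] y) := by rw [h2]
    _ = f^[i + j] y := by rw [← Function.iterate_add_apply, h1]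

lemma per (hZ : IsCycle f Z) : ∃ p : ℕ, 1 ≤ p ∧ ∀ x ∈ Z, f^[p] x = x := by
  obtain ⟨y, p, hp, hy, rfl⟩ := hZ
  refine ⟨p, hp, fun x hx => ?_⟩
  rw [Finset.mem_image] at hx
  obtain ⟨j, hj, rfl⟩ := hx
  rw [← Function.iterate_add_apply, add_comm, Function.iterate_add_apply, hy]

lemma reach (hZ : IsCycle f Z) {x y : α} (hx : x ∈ Z) (hy : y ∈ Z) :
    ∃ i : ℕ, f^[i] x = y := by
  obtain ⟨z, p, hp, hz, rfl⟩ := hZ
  rw [Finset.mem_image] at hx hy
  obtain ⟨i, hi, rfl⟩ := hx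
  obtain ⟨j, hj, rfl⟩ := hy
  rw [Finset.mem_range] at hi hj
  refine ⟨p - i + j, ?_⟩
  rw [← Function.iterate_add_apply, show p - i + j + i = j + p by omega,
    Function.iterate_add_apply, hz]

lemma card_le (hZ : IsCycle f Z) {x : α} (hx : x ∈ Z) {k : ℕ}
    (hk : 1 ≤ k) (hxk : f^[k] x = x) : Z.card ≤ k := by
  have h1 : Z ⊆ (Finset.range k).image fun i => f^[i] x := by
    intro y hy
    obtain ⟨i, rfl⟩ := reach hZ hx hy
    rw [Finset.mem_image]
    refine ⟨i % k, Finset.mem_range.2 (Nat.mod_lt _ hk), ?_⟩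
    have h1 : i % k + k * (i / k) = i := Nat.mod_add_div _ _
    have h2 : f^[k * (i / k)] x = x := by
      rw [Function.iterate_mul]; exact Function.iterate_fixed hxk _
    calc f^[i % k] x = f^[i % k] (f^[k * (i / k)] x) := by rw [h2]
      _ = f^[i] x := by rw [← Function.iterate_add_apply, h1]
  refine (Finset.card_le_card h1).trans (Finset.card_image_le.trans ?_)
  rw [Finset.card_range]

end Pool.Agent.TH932.S2.G.Cy
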